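import Pool.Agent.Lib.MP_f11a48_ag.GF.Spec

/-!
# Module EVAL: values of power series with geometric growth
-/

set_option autoImplicit false

namespace Pool.Agent.Lib.MPf11a48.GF

open Polynomial
open scoped PowerSeries

namespace EvalM

/-- the terms of the series -/
noncomputable def tm (f : ℚ⟦X⟧) (z : ℂ) (k : ℕ) : ℂ :=
  ((PowerSeries.coeff k f : ℚ) : ℂ) * z ^ k

theorem norm_tm (f : ℚ⟦X⟧) (z : ℂ) (k : ℕ) :
    ‖tm f z k‖ = |((PowerSeries.coeff k f : ℚ) : ℝ)| * ‖z‖ ^ k := by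
  rw [tm, norm_mul, norm_pow, Complex.norm_ratCast]

theorem norm_tm_le {f : ℚ⟦X⟧} {C : ℕ} (hf : ∀ n, |PowerSeries.coeff n f| ≤ (C : ℚ) ^ (n + 1))
    (z : ℂ) (k : ℕ) : ‖tm f z k‖ ≤ (C : ℝ) ^ (k + 1) * ‖z‖ ^ k := by
  rw [norm_tm]
  apply mul_le_mul_of_nonneg_right _ (by positivity)
  have h1 := hf k
  have h2 : ((|PowerSeries.coeff k f| : ℚ) : ℝ) ≤ (((C : ℚ) ^ (k + 1) : ℚ) : ℝ) := by
    exact_mod_cast h1
  rw [Rat.cast_abs] at h2
  push_cast at h2
  exact h2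

/-- geometric estimate of the tail -/
theorem norm_tail_le {f : ℚ⟦X⟧} {C : ℕ} (hf : ∀ n, |PowerSeries.coeff n f| ≤ (C : ℚ) ^ (n + 1))
    {z : ℂ} (hz : 2 * (C : ℝ) * ‖z‖ ≤ 1) (o k : ℕ) :
    ‖tm f z (k + o)‖ ≤ (C : ℝ) ^ (o + 1) * ‖z‖ ^ o * (1 / 2) ^ k := by
  refine (norm_tm_le hf z (k + o)).trans ?_
  have h1 : (C : ℝ) ^ (k + o + 1) * ‖z‖ ^ (k + o) =
      (C : ℝ) ^ (o + 1) * ‖z‖ ^ o * (C * ‖z‖) ^ k := by
    rw [mul_pow, pow_add ‖z‖ k o, show k + o + 1 = k + (o + 1) by ring, pow_add (C : ℝ) k (o + 1)]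
    ring
  rw [h1]
  apply mul_le_mul_of_nonneg_left _ (by positivity)
  apply pow_le_pow_left₀ (by positivity)
  linarith

theorem summable_tm {f : ℚ⟦X⟧} {C : ℕ} (hf : ∀ n, |PowerSeries.coeff n f| ≤ (C : ℚ) ^ (n + 1))
    {z : ℂ} (hz : 2 * (C : ℝ) * ‖z‖ ≤ 1) : Summable fun k => ‖tm f z k‖ := by
  refine Summable.of_nonneg_of_le (fun _ => norm_nonneg _) (fun k => norm_tail_le hf hz 0 k) ?_
  exact (summable_geometric_of_lt_one (by norm_num) (by norm_num)).mul_left _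

theorem tm_add (f g : ℚ⟦X⟧) (z : ℂ) (k : ℕ) : tm (f + g) z k = tm f z k + tm g z k := by
  unfold tm
  rw [map_add]
  push_cast
  ring

theorem tm_mul (f g : ℚ⟦X⟧) (z : ℂ) (k : ℕ) :
    tm (f * g) z k = ∑ kl ∈ Finset.HasAntidiagonal.antidiagonal k, tm f z kl.1 * tm g z kl.2 := by
  unfold tm
  rw [PowerSeries.coeff_mul]
  push_cast
  rw [Finset.sum_mul]
  apply Finset.sum_congr rfl
  intro kl hkl
  rw [Finset.HasAntidiagonal.mem_antidiagonal] at hkl
  rw [← hkl, pow_add]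
  ring

theorem tm_coe (p : ℚ[X]) (z : ℂ) (k : ℕ) : tm (p : ℚ⟦X⟧) z k = ((p.coeff k : ℚ) : ℂ) * z ^ k := by
  rw [tm, Polynomial.coeff_coe]

end EvalM

open EvalM in
theorem specEval : SpecEval := by
  refine ⟨?_, ?_, ?_, ?_⟩
  · intro u C z hu hz
    exact summable_tm hu hz
  · intro f g z hf hg
    have hf' : Summable fun k => ‖tm f z k‖ := hf
    have hg' : Summable fun k => ‖tm g z k‖ := hg
    refine ⟨?_, ?_, ?_⟩
    · change ∑' k, tm (f + g) z k = ∑' k, tm f z k + ∑' k, tm g z k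
      rw [← hf'.of_norm.tsum_add hg'.of_norm]
      exact tsum_congr fun k => tm_add f g z k
    · change ∑' k, tm (f * g) z k = (∑' k, tm f z k) * ∑' k, tm g z k
      rw [tsum_mul_tsum_eq_tsum_sum_antidiagonal_of_summable_norm hf' hg']
      exact tsum_congr fun k => tm_mul f g z k
    · change Summable fun k => ‖tm (f * g) z k‖
      simp only [tm_mul]
      exact summable_norm_sum_mul_antidiagonal_of_summable_norm hf' hg'
  · intro p z
    have h0 : ∀ k, k ∉ Finset.range (p.natDegree + 1) → tm (p : ℚ⟦X⟧) z k = 0 := by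
      intro k hk
      rw [Finset.mem_range] at hk
      rw [tm_coe, coeff_eq_zero_of_natDegree_lt (by omega)]
      simp
    constructor
    · change Summable fun k => ‖tm (p : ℚ⟦X⟧) z k‖
      apply summable_of_ne_finset_zero (s := Finset.range (p.natDegree + 1))
      intro k hk
      rw [h0 k hk, norm_zero]
    · change ∑' k, tm (p : ℚ⟦X⟧) z k = aeval z p
      rw [tsum_eq_sum h0, aeval_eq_sum_range]
      apply Finset.sum_congr rfl
      intro k _
      rw [tm_coe, Algebra.smul_def]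
      rfl
  · intro f C hf hf0
    -- the order
    obtain ⟨n0, hn0⟩ : ∃ n, PowerSeries.coeff n f ≠ 0 := by
      by_contra h
      push Not at h
      exact hf0 (PowerSeries.ext fun n => by rw [h n, map_zero])
    classical
    set o := Nat.find (⟨n0, hn0⟩ : ∃ n, PowerSeries.coeff n f ≠ 0) with ho
    have hco : PowerSeries.coeff o f ≠ 0 :=
      Nat.find_spec (⟨n0, hn0⟩ : ∃ n, PowerSeries.coeff n f ≠ 0)
    have hlt : ∀ n, n < o → PowerSeries.coeff n f = 0 := fun n hn => by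
      have := Nat.find_min (⟨n0, hn0⟩ : ∃ n, PowerSeries.coeff n f ≠ 0) hn
      simpa using this
    set c := PowerSeries.coeff o f with hc
    refine ⟨2 * C + (2 * C ^ (o + 2) + 1) * c.den, ?_⟩
    intro z hz0 hz
    have hzpos : 0 < ‖z‖ := norm_pos_iff.2 hz0
    push_cast at hz
    have hden : (1 : ℝ) ≤ c.den := by exact_mod_cast c.den_pos
    have hnn : 0 ≤ (2 * (C : ℝ) ^ (o + 2) + 1) * (c.den : ℝ) * ‖z‖ := by positivity
    have hnn2 : 0 ≤ 2 * (C : ℝ) * ‖z‖ := by positivity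
    have h1 : 2 * (C : ℝ) * ‖z‖ ≤ 1 := by nlinarith
    have h2 : (2 * (C : ℝ) ^ (o + 2) + 1) * (c.den : ℝ) * ‖z‖ ≤ 1 := by nlinarith
    have hsum := (summable_tm hf h1).of_norm
    change ∑' k, tm f z k ≠ 0
    rw [← hsum.sum_add_tsum_nat_add (o + 1), Finset.sum_range_succ]
    have h3 : ∑ k ∈ Finset.range o, tm f z k = 0 := by
      apply Finset.sum_eq_zero
      intro k hk
      rw [tm, hlt k (Finset.mem_range.1 hk)]
      simp
    rw [h3, zero_add]
    have h4 : ‖∑' k, tm f z (k + (o + 1))‖ ≤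
        (C : ℝ) ^ (o + 1 + 1) * ‖z‖ ^ (o + 1) * 2 := by
      refine tsum_of_norm_bounded ?_ (fun k => norm_tail_le hf h1 (o + 1) k)
      exact hasSum_geometric_two.mul_left _
    have h5 : ‖tm f z o‖ = |((c : ℚ) : ℝ)| * ‖z‖ ^ o := norm_tm f z o
    have h6 : 1 ≤ |((c : ℚ) : ℝ)| * c.den := by
      have h7 : |c| * c.den = |(c.num : ℚ)| := by
        rw [← Nat.abs_cast c.den, ← abs_mul, Rat.mul_den_eq_num]
      have h8 : (1 : ℚ) ≤ |(c.num : ℚ)| := by
        have : 1 ≤ |c.num| := Int.one_le_abs (Rat.num_ne_zero.2 hco)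
        exact_mod_cast this
      rw [← h7] at h8
      have h9 : ((1 : ℚ) : ℝ) ≤ ((|c| * c.den : ℚ) : ℝ) := by exact_mod_cast h8
      push_cast at h9
      exact h9
    intro h0
    have h10 : ‖tm f z o‖ = ‖∑' k, tm f z (k + (o + 1))‖ := by
      rw [eq_neg_of_add_eq_zero_left h0, norm_neg]
    rw [← h10, h5] at h4
    have hzo : 0 < ‖z‖ ^ o := by positivity
    have h11 : |((c : ℚ) : ℝ)| ≤ 2 * (C : ℝ) ^ (o + 2) * ‖z‖ := by
      have h12 : |((c : ℚ) : ℝ)| * ‖z‖ ^ o ≤ 2 * (C : ℝ) ^ (o + 2) * ‖z‖ * ‖z‖ ^ o := by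
        refine h4.trans (le_of_eq ?_)
        rw [pow_succ ‖z‖ o]; ring
      exact le_of_mul_le_mul_right h12 hzo
    have h13 : |((c : ℚ) : ℝ)| * c.den ≤ 2 * (C : ℝ) ^ (o + 2) * ‖z‖ * c.den :=
      mul_le_mul_of_nonneg_right h11 (by positivity)
    have h14 : 0 < (c.den : ℝ) * ‖z‖ := by positivity
    nlinarith

end Pool.Agent.Lib.MPf11a48.GF
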