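import Pool.Agent.Lib.MP_f11a48_ag.GF.Est

/-!
# G-functions as periods: QUA

Linear independence of the values, in terms of homogeneous polynomials of degree `d` in the values
of the two solutions.
-/

set_option autoImplicit false

namespace Pool.Agent.Lib.MPf11a48.GF.QuaM

open Polynomial Matrix
open scoped PowerSeries
open Pool.Agent.Lib.MPf11a48.GF Pool.Agent.Lib.MPf11a48.GF.EstM

variable {ι : Type} [Fintype ι]

theorem Sm.one (hE : SpecEval) (z : ℂ) : Sm 1 z ∧ pval 1 z = 1 := by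
  have h := hE.2.2.1 1 z
  rw [Polynomial.coe_one] at h
  exact ⟨h.1, by rw [h.2, map_one]⟩

theorem Sm.pow (hE : SpecEval) {f : ℚ⟦X⟧} {z : ℂ} (hf : Sm f z) (n : ℕ) :
    Sm (f ^ n) z ∧ pval (f ^ n) z = pval f z ^ n := by
  induction n with
  | zero => simpa using Sm.one hE z
  | succ n ih =>
    have h := hE.2.1 (f ^ n) f z ih.1 hf
    rw [pow_succ, pow_succ, ← ih.2]
    exact ⟨h.2.2, h.2.1⟩

theorem Sm.prod (hE : SpecEval) {κ : Type} (s : Finset κ) {f : κ → ℚ⟦X⟧} {z : ℂ}
    (h : ∀ i ∈ s, Sm (f i) z) : Sm (∏ i ∈ s, f i) z ∧ pval (∏ i ∈ s, f i) z = ∏ i ∈ s, pval (f i) z := by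
  classical
  induction s using Finset.induction_on with
  | empty => simpa using Sm.one hE z
  | insert a s ha ih =>
    have h1 := ih fun i hi => h i (Finset.mem_insert_of_mem hi)
    have h2 := hE.2.1 (f a) (∏ i ∈ s, f i) z (h a (Finset.mem_insert_self _ _)) h1.1
    rw [Finset.prod_insert ha, Finset.prod_insert ha, ← h1.2]
    exact ⟨h2.2.2, h2.2.1⟩

omit [Fintype ι] in
/-- a homogeneous polynomial is the sum of its monomials of degree `d` -/
theorem hom_eq {R : Type} [CommRing R] (d : ℕ) [Fintype {J : ι →₀ ℕ // J.degree = d}]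
    (J : MvPolynomial ι R) (hJ : J.IsHomogeneous d) :
    J = ∑ K : {J : ι →₀ ℕ // J.degree = d}, MvPolynomial.monomial K.1 (MvPolynomial.coeff K.1 J) := by
  classical
  ext m
  rw [MvPolynomial.coeff_sum]
  by_cases hm : m.degree = d
  · rw [Finset.sum_eq_single (⟨m, hm⟩ : {J : ι →₀ ℕ // J.degree = d})]
    · rw [MvPolynomial.coeff_monomial, if_pos rfl]
    · intro K _ hK
      rw [MvPolynomial.coeff_monomial, if_neg fun h => hK (Subtype.ext h)]
    · intro h
      exact absurd (Finset.mem_univ _) h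
  · rw [hJ.coeff_eq_zero hm]
    refine (Finset.sum_eq_zero fun K _ => ?_).symm
    rw [MvPolynomial.coeff_monomial, if_neg fun h : K.1 = m => hm (h ▸ K.2)]

theorem peval_monomial (v : ι → ℚ⟦X⟧) (K : ι →₀ ℕ) (p : ℚ[X]) :
    peval v (MvPolynomial.monomial K p) = (p : ℚ⟦X⟧) * ∏ i, v i ^ K i := by
  unfold peval
  rw [MvPolynomial.eval₂_monomial, Finsupp.prod_fintype _ _ fun i => pow_zero _]
  rfl

theorem aeval_monomial (x : ι → ℂ) (K : ι →₀ ℕ) (q : ℚ) :
    MvPolynomial.aeval x (MvPolynomial.monomial K q) = (q : ℂ) * ∏ i, x i ^ K i := by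
  rw [MvPolynomial.aeval_monomial, Finsupp.prod_fintype _ _ fun i => pow_zero _]
  rfl

/-- the monomials of degree `d` in `v 0` and `v 1` are linearly independent -/
theorem linInd (d : ℕ) [Fintype {J : ι →₀ ℕ // J.degree = d}] (v : Fin 2 → ι → ℚ⟦X⟧)
    (ind : ∀ J : Fin 2 → MvPolynomial ι ℚ[X], (∀ k, (J k).IsHomogeneous d) →
      ∑ k, peval (v k) (J k) = 0 → ∀ k, J k = 0) :
    LinInd fun x : Fin 2 × {J : ι →₀ ℕ // J.degree = d} => ∏ i, v x.1 i ^ x.2.1 i := by
  classical
  intro P hP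
  have h := ind (fun k => ∑ K : {J : ι →₀ ℕ // J.degree = d}, MvPolynomial.monomial K.1 (P (k, K)))
    (fun k => MvPolynomial.IsHomogeneous.sum _ _ _ fun K _ =>
      MvPolynomial.isHomogeneous_monomial _ K.2) (by
      rw [← hP, Fintype.sum_prod_type]
      refine Finset.sum_congr rfl fun k _ => ?_
      have : peval (v k) (∑ K : {J : ι →₀ ℕ // J.degree = d},
          MvPolynomial.monomial K.1 (P (k, K))) =
          ∑ K : {J : ι →₀ ℕ // J.degree = d}, peval (v k) (MvPolynomial.monomial K.1 (P (k, K))) := by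
        unfold peval
        exact MvPolynomial.eval₂_sum _ _ _ _
      rw [this]
      exact Finset.sum_congr rfl fun K _ => peval_monomial _ _ _)
  funext x
  obtain ⟨k, K⟩ := x
  have h1 := congrArg (MvPolynomial.coeff K.1) (h k)
  rw [MvPolynomial.coeff_sum, Finset.sum_eq_single K] at h1
  · rw [MvPolynomial.coeff_monomial, if_pos rfl] at h1
    simpa using h1
  · intro K' _ hK
    rw [MvPolynomial.coeff_monomial, if_neg fun h => hK (Subtype.ext h)]
  · intro h
    exact absurd (Finset.mem_univ _) h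

/-- the values of the polynomials in terms of the values of the monomials -/
theorem values (hE : SpecEval) (d : ℕ) [Fintype {J : ι →₀ ℕ // J.degree = d}]
    (v : Fin 2 → ι → ℚ⟦X⟧) (z : ℂ) (hv : ∀ k i, Sm (v k i) z) (J : Fin 2 → MvPolynomial ι ℚ)
    (hJ : ∀ k, (J k).IsHomogeneous d) :
    ∑ k, MvPolynomial.aeval (fun i => pval (v k i) z) (J k) =
      ∑ x : Fin 2 × {J : ι →₀ ℕ // J.degree = d},
        ((MvPolynomial.coeff x.2.1 (J x.1) : ℚ) : ℂ) * pval (∏ i, v x.1 i ^ x.2.1 i) z := by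
  rw [Fintype.sum_prod_type]
  refine Finset.sum_congr rfl fun k _ => ?_
  conv_lhs => rw [hom_eq d (J k) (hJ k), map_sum]
  refine Finset.sum_congr rfl fun K _ => ?_
  rw [aeval_monomial]
  congr 1
  rw [(Sm.prod hE _ fun i _ => (Sm.pow hE (hv k i) _).1).2]
  exact Finset.prod_congr rfl fun i _ => (Sm.pow hE (hv k i) _).2.symm

end Pool.Agent.Lib.MPf11a48.GF.QuaM

namespace Pool.Agent.Lib.MPf11a48.GF

open Polynomial Matrix
open scoped PowerSeries

open QuaM EstM in
theorem specQua (hEst : SpecEst) (hSym : SpecSym) (hEval : SpecEval) : SpecQua := by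
  intro ι _ _ T B v d h
  classical
  have hfin : Finite {J : ι →₀ ℕ // J.degree = d} :=
    Set.Finite.subset (Finsupp.finite_of_degree_le (σ := ι) d) fun J hJ => le_of_eq hJ
  let _ : Fintype {J : ι →₀ ℕ // J.degree = d} := Fintype.ofFinite _
  obtain ⟨⟨B', hG, hS⟩, hu⟩ := hSym ι T B v d inferInstance h.gal h.sol h.g
  have hL := linInd d v h.ind
  by_cases hμ : Nonempty (Fin 2 × {J : ι →₀ ℕ // J.degree = d})
  · obtain ⟨C1, hC1⟩ := hEst _ T B' _ h.ne hG hS hu hL
    obtain ⟨C2, hC2⟩ := h.g 0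
    obtain ⟨C3, hC3⟩ := h.g 1
    refine ⟨C1 + 2 * C2 + 2 * C3 + 1, fun a b ha hb J hJ h0 => ?_⟩
    have ha1 : (1 : ℤ) ≤ |a| := Int.one_le_abs ha
    set C := C1 + 2 * C2 + 2 * C3 + 1 with hC
    have hpow : |a| ≤ |a| ^ C := by
      calc |a| = |a| ^ 1 := (pow_one _).symm
        _ ≤ |a| ^ C := pow_le_pow_right₀ ha1 (by omega)
    have hb1 : (C1 : ℤ) * |a| ^ C1 ≤ b := by
      refine le_trans ?_ hb
      have h1 : |a| ^ C1 ≤ |a| ^ C := pow_le_pow_right₀ ha1 (by omega)
      have h2 : (C1 : ℤ) ≤ C := by exact_mod_cast (by omega : C1 ≤ C)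
      exact mul_le_mul h2 h1 (by positivity) (by positivity)
    have hb2 : ∀ D : ℕ, 2 * D ≤ C → ‖((a : ℂ) / b)‖ * (2 * D) ≤ 1 := by
      intro D hD
      have h1 : (2 * D : ℤ) * |a| ≤ b := by
        refine le_trans ?_ hb
        have h2 : (2 * D : ℤ) ≤ C := by exact_mod_cast hD
        exact mul_le_mul h2 hpow (by positivity) (by positivity)
      have hb0 : (0 : ℤ) < b := by
        refine lt_of_lt_of_le ?_ hb
        have : (0 : ℤ) < C := by
          have : 0 < C := by omega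
          exact_mod_cast this
        positivity
      have hb0' : (0 : ℝ) < (b : ℝ) := by exact_mod_cast hb0
      rw [norm_div, Complex.norm_intCast, Complex.norm_intCast, abs_of_pos hb0', div_mul_eq_mul_div,
        div_le_one hb0']
      have h3 : (((2 * D : ℤ) * |a| : ℤ) : ℝ) ≤ (b : ℝ) := by exact_mod_cast h1
      push_cast at h3
      linarith
    have hv : ∀ k i, Sm (v k i) ((a : ℂ) / b) := by
      intro k i
      fin_cases k
      · refine hEval.1 _ C2 _ (fun n => ?_) (by have := hb2 C2 (by omega); linarith)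
        obtain ⟨q, -, -, -, hq⟩ := hC2 n
        exact hq i
      · refine hEval.1 _ C3 _ (fun n => ?_) (by have := hb2 C3 (by omega); linarith)
        obtain ⟨q, -, -, -, hq⟩ := hC3 n
        exact hq i
    rw [values hEval d v _ hv J hJ] at h0
    have h1 := hC1 a b ha hb1 (fun x => MvPolynomial.coeff x.2.1 (J x.1)) h0
    intro k
    rw [hom_eq d (J k) (hJ k)]
    refine Finset.sum_eq_zero fun K _ => ?_
    have h2 := congrFun h1 (k, K)
    simp only [Pi.zero_apply] at h2
    rw [h2, map_zero]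
  · refine ⟨0, fun a b ha hb J hJ h0 k => ?_⟩
    rw [hom_eq d (J k) (hJ k)]
    refine Finset.sum_eq_zero fun K _ => ?_
    exact absurd ⟨(k, K)⟩ hμ

end Pool.Agent.Lib.MPf11a48.GF
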