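import Pool.Agent.Lib.MP_f11a48_ag.GF.Spec

/-!
# Module SYM: symmetric powers of a system
-/

set_option autoImplicit false

namespace Pool.Agent.Lib.MPf11a48.GF.SymM

open Polynomial
open scoped PowerSeries

section Abs

variable {R : Type*} [CommRing R] [Algebra ℚ R] (D : R →+ R) (c : R)

/-- the divided powers of a derivation -/
noncomputable def dh (p : R) : ℕ → R
  | 0 => p
  | k + 1 => algebraMap ℚ R ((k + 1 : ℚ)⁻¹) * (D (dh p k) - (k : R) * c * dh p k)

theorem cancel (k : ℕ) : algebraMap ℚ R ((k + 1 : ℚ)⁻¹) * ((k : R) + 1) = 1 := by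
  have h : ((k : R) + 1) = algebraMap ℚ R ((k : ℚ) + 1) := by simp
  rw [h, ← map_mul, inv_mul_cancel₀, map_one]
  positivity

theorem dh_succ (p : R) (k : ℕ) :
    ((k : R) + 1) * dh D c p (k + 1) = D (dh D c p k) - (k : R) * c * dh D c p k := by
  rw [dh, ← mul_assoc, mul_comm ((k : R) + 1), cancel, one_mul]

theorem eq_of_mul (k : ℕ) (x y : R) (h : ((k : R) + 1) * x = ((k : R) + 1) * y) : x = y := by
  have := congrArg (fun z => algebraMap ℚ R ((k + 1 : ℚ)⁻¹) * z) h
  simpa only [← mul_assoc, cancel, one_mul] using this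

theorem dh_mul (hD : ∀ p r, D (p * r) = p * D r + r * D p) (p r : R) (k : ℕ) :
    dh D c (p * r) k = ∑ x ∈ Finset.HasAntidiagonal.antidiagonal k, dh D c p x.1 * dh D c r x.2 := by
  induction k with
  | zero => simp [dh]
  | succ k ih =>
    apply eq_of_mul k
    rw [dh_succ, ih]
    have e1 : ((k : R) + 1) * ∑ x ∈ Finset.HasAntidiagonal.antidiagonal (k + 1), dh D c p x.1 * dh D c r x.2 =
        ∑ x ∈ Finset.HasAntidiagonal.antidiagonal (k + 1), (x.1 : R) * (dh D c p x.1 * dh D c r x.2) +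
        ∑ x ∈ Finset.HasAntidiagonal.antidiagonal (k + 1), (x.2 : R) * (dh D c p x.1 * dh D c r x.2) := by
      rw [← Finset.sum_add_distrib, Finset.mul_sum]
      refine Finset.sum_congr rfl fun x hx => ?_
      have := Finset.HasAntidiagonal.mem_antidiagonal.1 hx
      have h2 : (k : R) + 1 = (x.1 : R) + (x.2 : R) := by
        have : ((x.1 + x.2 : ℕ) : R) = ((k + 1 : ℕ) : R) := by rw [this]
        push_cast at this
        rw [this]
      rw [h2]; ring
    rw [e1, Finset.Nat.sum_antidiagonal_succ, Finset.Nat.sum_antidiagonal_succ']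
    simp only [Nat.cast_zero, zero_mul, zero_add, Nat.cast_add, Nat.cast_one]
    rw [map_sum, Finset.mul_sum, ← Finset.sum_add_distrib, ← Finset.sum_sub_distrib]
    refine Finset.sum_congr rfl fun x hx => ?_
    have hx' := Finset.HasAntidiagonal.mem_antidiagonal.1 hx
    have h2 : (k : R) = (x.1 : R) + (x.2 : R) := by
      rw [← hx']; push_cast; ring
    have h3 := dh_succ D c p x.1
    have h4 := dh_succ D c r x.2
    rw [hD, h2]
    calc _ = (D (dh D c p x.1) - (x.1 : R) * c * dh D c p x.1) * dh D c r x.2 +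
        dh D c p x.1 * (D (dh D c r x.2) - (x.2 : R) * c * dh D c r x.2) := by ring
      _ = _ := by rw [← h3, ← h4]; ring

theorem dh_one (hD : ∀ p r, D (p * r) = p * D r + r * D p) (k : ℕ) :
    dh D c 1 k = 0 ∨ dh D c 1 k = 1 := by
  have h1 : D 1 = 0 := by
    have := hD 1 1
    simp only [mul_one, one_mul] at this
    simpa using this
  have : ∀ k, dh D c 1 (k + 1) = 0 := by
    intro k
    induction k with
    | zero => simp [dh, h1]
    | succ k ih => rw [dh, ih]; simp
  cases k with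
  | zero => right; rfl
  | succ k => left; exact this k

/-- `q ^ a` is a denominator of the first `n` divided powers -/
def Den (I : Subring R) (q n a : ℕ) (p : R) : Prop :=
  ∀ k ≤ n, ((q : R) ^ a) * dh D c p k ∈ I

theorem den_one (hD : ∀ p r, D (p * r) = p * D r + r * D p) (I : Subring R) (q n : ℕ) :
    Den D c I q n 0 1 := by
  intro k _
  rw [pow_zero, one_mul]
  rcases dh_one D c hD k with h | h
  · rw [h]; exact I.zero_mem
  · rw [h]; exact I.one_mem

theorem den_mul (hD : ∀ p r, D (p * r) = p * D r + r * D p) (I : Subring R) (q n a b : ℕ)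
    (p r : R) (hp : Den D c I q n a p) (hr : Den D c I q n b r) :
    Den D c I q n (a + b) (p * r) := by
  intro k hk
  rw [dh_mul D c hD, Finset.mul_sum]
  refine I.sum_mem fun x hx => ?_
  have hx' := Finset.HasAntidiagonal.mem_antidiagonal.1 hx
  have := I.mul_mem (hp x.1 (by omega)) (hr x.2 (by omega))
  convert this using 1
  ring

theorem den_pow (hD : ∀ p r, D (p * r) = p * D r + r * D p) (I : Subring R) (q n a : ℕ)
    (p : R) (hp : Den D c I q n a p) (e : ℕ) : Den D c I q n (e * a) (p ^ e) := by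
  induction e with
  | zero => simpa using den_one D c hD I q n
  | succ e ih =>
    rw [pow_succ, Nat.succ_mul]
    exact den_mul D c hD I q n _ _ _ _ ih hp

theorem den_prod (hD : ∀ p r, D (p * r) = p * D r + r * D p) (I : Subring R) (q n : ℕ)
    {α : Type*} [DecidableEq α] (s : Finset α) (a : α → ℕ) (f : α → R)
    (h : ∀ i ∈ s, Den D c I q n (a i) (f i)) : Den D c I q n (∑ i ∈ s, a i) (∏ i ∈ s, f i) := by
  induction s using Finset.induction_on with
  | empty => simpa using den_one D c hD I q n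
  | insert i s hi ih =>
    rw [Finset.sum_insert hi, Finset.prod_insert hi]
    exact den_mul D c hD I q n _ _ _ _ (h i (Finset.mem_insert_self _ _))
      (ih fun j hj => h j (Finset.mem_insert_of_mem hj))

end Abs

section Conc

variable {ι : Type} [Fintype ι] [DecidableEq ι]

/-- `T * d/dX` -/
noncomputable def tder (T : ℚ[X]) : ℚ[X] →+ ℚ[X] :=
  (AddMonoidHom.mulLeft T).comp (derivative : ℚ[X] →ₗ[ℚ] ℚ[X]).toAddMonoidHom

theorem tder_apply (T a : ℚ[X]) : tder T a = T * derivative a := rfl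

/-- `T * d/dX` on the coefficients -/
noncomputable def D1 (ι : Type) (T : ℚ[X]) : MvPolynomial ι ℚ[X] →+ MvPolynomial ι ℚ[X] where
  toFun p := AddMonoidAlgebra.map (tder T) p
  map_zero' := AddMonoidAlgebra.map_zero _
  map_add' := AddMonoidAlgebra.map_add _

omit [Fintype ι] [DecidableEq ι] in
theorem D1_monomial (T : ℚ[X]) (m : ι →₀ ℕ) (a : ℚ[X]) :
    D1 ι T (MvPolynomial.monomial m a) = MvPolynomial.monomial m (T * derivative a) :=
  AddMonoidAlgebra.map_single _ _ _

omit [Fintype ι] [DecidableEq ι] in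
theorem D1_mul (T : ℚ[X]) (p r : MvPolynomial ι ℚ[X]) :
    D1 ι T (p * r) = p * D1 ι T r + r * D1 ι T p := by
  induction p using MvPolynomial.induction_on' with
  | add p p' hp hp' =>
    rw [add_mul, map_add, hp, hp', map_add]; ring
  | monomial m a =>
    induction r using MvPolynomial.induction_on' with
    | add r r' hr hr' => rw [mul_add, map_add, hr, hr', map_add]; ring
    | monomial m' a' =>
      rw [MvPolynomial.monomial_mul, D1_monomial, D1_monomial, D1_monomial,
        MvPolynomial.monomial_mul, MvPolynomial.monomial_mul, add_comm m' m, ← map_add]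
      congr 1
      rw [derivative_mul]; ring

/-- the linear part of the derivation -/
noncomputable def EE {S : Type*} [CommRing S] (B : Matrix ι ι S) :
    Derivation S (MvPolynomial ι S) (MvPolynomial ι S) :=
  MvPolynomial.mkDerivation S fun i => ∑ j, MvPolynomial.C (B i j) * MvPolynomial.X j

omit [DecidableEq ι] in
theorem EE_X {S : Type*} [CommRing S] (B : Matrix ι ι S) (i : ι) :
    EE B (MvPolynomial.X i) = ∑ j, MvPolynomial.C (B i j) * MvPolynomial.X j := by
  rw [EE, MvPolynomial.mkDerivation_X]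

omit [DecidableEq ι] in
theorem EE_C {S : Type*} [CommRing S] (B : Matrix ι ι S) (a : S) :
    EE B (MvPolynomial.C a) = 0 :=
  MvPolynomial.derivation_C _ _

omit [DecidableEq ι] in
theorem EE_map {S S' : Type*} [CommRing S] [CommRing S'] (f : S →+* S') (B : Matrix ι ι S)
    (p : MvPolynomial ι S) :
    EE (B.map f) (MvPolynomial.map f p) = MvPolynomial.map f (EE B p) := by
  induction p using MvPolynomial.induction_on with
  | C a => rw [MvPolynomial.map_C, EE_C, EE_C, map_zero]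
  | add p r hp hr => rw [map_add, map_add, hp, hr, map_add, map_add]
  | mul_X p i hp =>
    rw [map_mul, Derivation.leibniz, Derivation.leibniz, hp, MvPolynomial.map_X, EE_X, EE_X]
    simp only [smul_eq_mul, map_add, map_mul, map_sum, MvPolynomial.map_C, MvPolynomial.map_X,
      Matrix.map_apply]

omit [DecidableEq ι] in
theorem EE_hom {S : Type*} [CommRing S] (B : Matrix ι ι S) (J : ι →₀ ℕ) :
    (EE B (MvPolynomial.monomial J 1)).IsHomogeneous J.degree := by
  classical
  rw [EE, MvPolynomial.mkDerivation_monomial, one_smul, Finsupp.sum]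
  refine MvPolynomial.IsHomogeneous.sum _ _ _ fun i hi => ?_
  have h1 : (J - Finsupp.single i 1).degree + 1 = J.degree := by
    have hi' : 1 ≤ J i := Nat.one_le_iff_ne_zero.2 (Finsupp.mem_support_iff.1 hi)
    have : J - Finsupp.single i 1 + Finsupp.single i 1 = J := by
      apply tsub_add_cancel_of_le
      rw [Finsupp.single_le_iff]
      exact hi'
    conv_rhs => rw [← this]
    rw [map_add, Finsupp.degree_single]
  rw [← h1, smul_eq_mul]
  refine MvPolynomial.IsHomogeneous.mul (MvPolynomial.isHomogeneous_monomial _ rfl) ?_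
  refine MvPolynomial.IsHomogeneous.sum _ _ _ fun j _ => ?_
  have := (MvPolynomial.isHomogeneous_C ι (B i j)).mul (MvPolynomial.isHomogeneous_X S j)
  simpa using this

/-- the whole derivation -/
noncomputable def DD (T : ℚ[X]) (B : Matrix ι ι ℚ[X]) :
    MvPolynomial ι ℚ[X] →+ MvPolynomial ι ℚ[X] :=
  D1 ι T + (EE B).toLinearMap.toAddMonoidHom

omit [DecidableEq ι] in
theorem DD_apply (T : ℚ[X]) (B : Matrix ι ι ℚ[X]) (p : MvPolynomial ι ℚ[X]) :
    DD T B p = D1 ι T p + EE B p := rfl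

omit [DecidableEq ι] in
theorem DD_mul (T : ℚ[X]) (B : Matrix ι ι ℚ[X]) (p r : MvPolynomial ι ℚ[X]) :
    DD T B (p * r) = p * DD T B r + r * DD T B p := by
  rw [DD_apply, DD_apply, DD_apply, D1_mul, Derivation.leibniz, smul_eq_mul, smul_eq_mul]
  ring

omit [DecidableEq ι] in
theorem DD_monomial (T : ℚ[X]) (B : Matrix ι ι ℚ[X]) (m : ι →₀ ℕ) (a : ℚ[X]) :
    DD T B (MvPolynomial.monomial m a) = MvPolynomial.monomial m (T * derivative a) +
      a • EE B (MvPolynomial.monomial m 1) := by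
  rw [DD_apply, D1_monomial]
  congr 1
  rw [← Derivation.map_smul, MvPolynomial.smul_monomial, smul_eq_mul, mul_one]

/-- row vectors as polynomials -/
noncomputable def Ph {μ : Type} [Fintype μ] (e : μ → (ι →₀ ℕ)) (P : μ → ℚ[X]) :
    MvPolynomial ι ℚ[X] :=
  ∑ J, MvPolynomial.monomial (e J) (P J)

omit [DecidableEq ι] in
/-- compatibility of the systems -/
theorem Ph_del {μ : Type} [Fintype μ] (e : μ → (ι →₀ ℕ)) (T : ℚ[X]) (B : Matrix ι ι ℚ[X])
    (B' : Matrix μ μ ℚ[X])
    (h : ∀ J, EE B (MvPolynomial.monomial (e J) 1) = Ph e (B' J)) (P : μ → ℚ[X]) :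
    DD T B (Ph e P) = Ph e (del T B' P) := by
  classical
  unfold Ph at h ⊢
  rw [map_sum]
  simp only [DD_monomial, h, Finset.sum_add_distrib, del, map_add, map_sum, Finset.smul_sum,
    MvPolynomial.smul_monomial, smul_eq_mul]
  rw [Finset.sum_comm]

omit [DecidableEq ι] in
theorem Ph_dd {μ : Type} [Fintype μ] (e : μ → (ι →₀ ℕ)) (T : ℚ[X]) (B : Matrix ι ι ℚ[X])
    (B' : Matrix μ μ ℚ[X])
    (h : ∀ J, EE B (MvPolynomial.monomial (e J) 1) = Ph e (B' J)) (P : μ → ℚ[X]) (k : ℕ) :
    dh (DD T B) (MvPolynomial.C (derivative T)) (Ph e P) k = Ph e (dd T B' P k) := by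
  induction k with
  | zero => rfl
  | succ k ih =>
    rw [dh, ih, Ph_del e T B B' h, dd]
    have h1 : ∀ (a : ℚ[X]) (Q : μ → ℚ[X]), MvPolynomial.C a * Ph e Q = Ph e fun j => a * Q j := by
      intro a Q
      unfold Ph
      rw [Finset.mul_sum]
      exact Finset.sum_congr rfl fun j _ => MvPolynomial.C_mul_monomial
    have h2 : algebraMap ℚ (MvPolynomial ι ℚ[X]) ((k + 1 : ℚ)⁻¹) =
        MvPolynomial.C (C ((k + 1 : ℚ)⁻¹)) := rfl
    have h3 : ((k : ℕ) : MvPolynomial ι ℚ[X]) = MvPolynomial.C ((k : ℕ) : ℚ[X]) := by simp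
    have h4 : ∀ (Q Q' : μ → ℚ[X]), Ph e Q - Ph e Q' = Ph e fun j => Q j - Q' j := by
      intro Q Q'
      unfold Ph
      rw [← Finset.sum_sub_distrib]
      exact Finset.sum_congr rfl fun j _ => (map_sub _ _ _).symm
    rw [h2, h3, ← map_mul, h1, h4, h1]

omit [Fintype ι] [DecidableEq ι] in
theorem coeff_Ph {μ : Type} [Fintype μ] [DecidableEq μ] (e : μ → (ι →₀ ℕ))
    (he : Function.Injective e) (P : μ → ℚ[X]) (K : μ) :
    MvPolynomial.coeff (e K) (Ph e P) = P K := by
  classical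
  rw [Ph, MvPolynomial.coeff_sum]
  simp only [MvPolynomial.coeff_monomial]
  rw [Finset.sum_eq_single K]
  · simp
  · intro j _ hj
    rw [if_neg]
    exact fun h => hj (he h)
  · simp

omit [Fintype ι] [DecidableEq ι] in
/-- a homogeneous polynomial is the sum over the monomials of its degree -/
theorem hom_eq {d : ℕ} [Fintype {J : ι →₀ ℕ // J.degree = d}] {S : Type*} [CommRing S]
    (p : MvPolynomial ι S) (hp : p.IsHomogeneous d) :
    p = ∑ J : {J : ι →₀ ℕ // J.degree = d}, MvPolynomial.monomial J.1 (MvPolynomial.coeff J.1 p) := by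
  classical
  ext m
  rw [MvPolynomial.coeff_sum]
  simp only [MvPolynomial.coeff_monomial]
  by_cases hm : m.degree = d
  · rw [Finset.sum_eq_single (⟨m, hm⟩ : {J : ι →₀ ℕ // J.degree = d})]
    · simp
    · intro j _ hj
      rw [if_neg]
      exact fun h => hj (Subtype.ext h)
    · simp
  · rw [hp.coeff_eq_zero hm, Finset.sum_eq_zero]
    intro j _
    rw [if_neg]
    rintro rfl
    exact hm j.2

/-- the matrix of the symmetric power -/
noncomputable def BS (d : ℕ) (B : Matrix ι ι ℤ[X]) :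
    Matrix {J : ι →₀ ℕ // J.degree = d} {J : ι →₀ ℕ // J.degree = d} ℤ[X] :=
  fun J K => MvPolynomial.coeff K.1 (EE B (MvPolynomial.monomial J.1 1))

omit [DecidableEq ι] in
theorem BS_map (d : ℕ) (B : Matrix ι ι ℤ[X]) (J K : {J : ι →₀ ℕ // J.degree = d}) :
    zq (BS d B J K) =
      MvPolynomial.coeff K.1 (EE (B.map zq) (MvPolynomial.monomial J.1 1)) := by
  have h := EE_map (mapRingHom (Int.castRingHom ℚ)) B (MvPolynomial.monomial J.1 1)
  rw [MvPolynomial.map_monomial, map_one] at h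
  have e : B.map (mapRingHom (Int.castRingHom ℚ)) = B.map zq := by
    ext1 i j
    rfl
  rw [e] at h
  rw [h, MvPolynomial.coeff_map]
  rfl

omit [DecidableEq ι] in
theorem BS_Ph (d : ℕ) [Fintype {J : ι →₀ ℕ // J.degree = d}] (B : Matrix ι ι ℤ[X])
    (J : {J : ι →₀ ℕ // J.degree = d}) :
    EE (B.map zq) (MvPolynomial.monomial J.1 1) =
      Ph (fun K : {J : ι →₀ ℕ // J.degree = d} => K.1) ((BS d B).map zq J) := by
  rw [Ph]
  have hh := EE_hom (B.map zq) J.1
  rw [J.2] at hh
  conv_lhs => rw [hom_eq _ hh]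
  refine Finset.sum_congr rfl fun K _ => ?_
  rw [Matrix.map_apply, BS_map]

/-- integral polynomials -/
noncomputable def II (ι : Type) : Subring (MvPolynomial ι ℚ[X]) :=
  (MvPolynomial.map (mapRingHom (Int.castRingHom ℚ)) :
    MvPolynomial ι ℤ[X] →+* MvPolynomial ι ℚ[X]).range

/-- the denominators of the divided powers of a monomial -/
theorem den_monomial (T : ℚ[X]) (B : Matrix ι ι ℚ[X]) (q n : ℕ)
    (h : ∀ k ≤ n, ∀ i j, ∃ z : ℤ[X], (q : ℚ[X]) * dd T B (Pi.single i 1) k j = zq z)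
    (J : ι →₀ ℕ) :
    Den (DD T B) (MvPolynomial.C (derivative T)) (II ι) q n J.degree
      (MvPolynomial.monomial J 1) := by
  have hX : ∀ i : ι, Den (DD T B) (MvPolynomial.C (derivative T)) (II ι) q n 1
      (MvPolynomial.X i) := by
    intro i k hk
    choose z hz using h k hk i
    have e : (MvPolynomial.X i : MvPolynomial ι ℚ[X]) =
        Ph (fun j : ι => Finsupp.single j 1) (Pi.single i 1) := by
      rw [Ph, Finset.sum_eq_single i]
      · rw [Pi.single_eq_same]; rfl
      · intro j _ hj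
        rw [Pi.single_eq_of_ne hj, map_zero]
      · simp
    have hE : ∀ J : ι, EE B (MvPolynomial.monomial (Finsupp.single J 1) 1) =
        Ph (fun j : ι => Finsupp.single j 1) (B J) := by
      intro J
      have : (MvPolynomial.monomial (Finsupp.single J 1) (1 : ℚ[X])) = MvPolynomial.X J := rfl
      rw [this, EE_X, Ph]
      refine Finset.sum_congr rfl fun j _ => ?_
      rw [MvPolynomial.C_mul_X_eq_monomial]
    rw [e, Ph_dd _ T B B hE, pow_one, Ph, Finset.mul_sum]
    refine Subring.sum_mem _ fun j _ => ?_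
    refine ⟨MvPolynomial.monomial (Finsupp.single j 1) (z j), ?_⟩
    rw [MvPolynomial.map_monomial]
    have : (q : MvPolynomial ι ℚ[X]) = MvPolynomial.C (q : ℚ[X]) := by simp
    rw [this, MvPolynomial.C_mul_monomial, hz j]
    rfl
  have hp := den_prod (DD T B) (MvPolynomial.C (derivative T)) (DD_mul T B) (II ι) q n J.support
    (fun i => J i * 1) (fun i => MvPolynomial.X i ^ J i)
    (fun i _ => den_pow _ _ (DD_mul T B) _ q n 1 _ (hX i) (J i))
  have e1 : ∑ i ∈ J.support, J i * 1 = J.degree := by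
    simp only [mul_one]
    rfl
  have e2 : ∏ i ∈ J.support, (MvPolynomial.X i : MvPolynomial ι ℚ[X]) ^ J i =
      MvPolynomial.monomial J 1 := by
    rw [MvPolynomial.monomial_eq, map_one, one_mul]; rfl
  rw [e1, e2] at hp
  exact hp

/-- the system on the symmetric power satisfies Galochkin's condition -/
theorem gal_BS (d : ℕ) [Fintype {J : ι →₀ ℕ // J.degree = d}] (T B)
    (q n : ℕ) (hk : ∀ k ≤ n, ∀ i j, ∃ z : ℤ[X],
      (q : ℚ[X]) * dd (zq T) (Matrix.map B zq) (Pi.single i 1) k j = zq z) :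
    ∀ k ≤ n, ∀ J K : {J : ι →₀ ℕ // J.degree = d}, ∃ z : ℤ[X],
      ((q ^ d : ℕ) : ℚ[X]) * dd (zq T) ((BS d B).map zq) (Pi.single J 1) k K = zq z := by
  classical
  intro k hkn J K
  have h := den_monomial (zq T) (B.map zq) q n hk J.1 k hkn
  have e : (MvPolynomial.monomial J.1 1 : MvPolynomial ι ℚ[X]) =
      Ph (fun K : {J : ι →₀ ℕ // J.degree = d} => K.1) (Pi.single J 1) := by
    rw [Ph, Finset.sum_eq_single J]
    · rw [Pi.single_eq_same]
    · intro j _ hj
      rw [Pi.single_eq_of_ne hj, map_zero]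
    · simp
  rw [e, Ph_dd _ (zq T) (B.map zq) ((BS d B).map zq) (fun J => BS_Ph d B J)] at h
  obtain ⟨w, hw⟩ := h
  refine ⟨MvPolynomial.coeff K.1 w, ?_⟩
  have h2 := congrArg (MvPolynomial.coeff K.1) hw
  have e2 : ((q : MvPolynomial ι ℚ[X]) ^ J.1.degree) = MvPolynomial.C ((q ^ d : ℕ) : ℚ[X]) := by
    rw [J.2]; simp
  rw [e2, MvPolynomial.coeff_C_mul, MvPolynomial.coeff_map,
    coeff_Ph _ Subtype.val_injective] at h2
  rw [← h2]
  rfl

/-- evaluation at a vector of power series -/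
noncomputable def ev (v : ι → ℚ⟦X⟧) : MvPolynomial ι ℚ[X] →+* ℚ⟦X⟧ :=
  MvPolynomial.eval₂Hom (Polynomial.coeToPowerSeries.ringHom (R := ℚ)) v

omit [DecidableEq ι] in
theorem ev_DD (T : ℚ[X]) (B : Matrix ι ι ℚ[X]) (v : ι → ℚ⟦X⟧) (hv : IsSol T B v)
    (p : MvPolynomial ι ℚ[X]) :
    ev v (DD T B p) = (T : ℚ⟦X⟧) * PowerSeries.derivative ℚ (ev v p) := by
  induction p using MvPolynomial.induction_on with
  | C a =>
    have h1 : DD T B (MvPolynomial.C a) = MvPolynomial.C (T * derivative a) := by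
      rw [DD_apply, EE_C, add_zero]
      exact D1_monomial T 0 a
    rw [h1, ev, MvPolynomial.eval₂Hom_C, MvPolynomial.eval₂Hom_C]
    simp [Polynomial.coeToPowerSeries.ringHom_apply, PowerSeries.derivative_coe]
  | add p r hp hr => rw [map_add, map_add, map_add, map_add, hp, hr, mul_add]
  | mul_X p i hp =>
    have h1 : DD T B (MvPolynomial.X i) = ∑ j, MvPolynomial.C (B i j) * MvPolynomial.X j := by
      rw [DD_apply, EE_X]
      have : D1 ι T (MvPolynomial.X i) = 0 := by
        have := D1_monomial T (Finsupp.single i 1) 1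
        rw [derivative_one, mul_zero, map_zero] at this
        exact this
      rw [this, zero_add]
    have h2 : ev v (DD T B (MvPolynomial.X i)) = (T : ℚ⟦X⟧) * PowerSeries.derivative ℚ (v i) := by
      rw [h1, hv i, map_sum]
      refine Finset.sum_congr rfl fun j _ => ?_
      rw [map_mul, ev, MvPolynomial.eval₂Hom_C, MvPolynomial.eval₂Hom_X',
        Polynomial.coeToPowerSeries.ringHom_apply]
    have h3 : ev v (MvPolynomial.X i) = v i := MvPolynomial.eval₂Hom_X' _ _ _
    rw [DD_mul, map_add, map_mul, map_mul, map_mul, hp, h2, h3, Derivation.leibniz, smul_eq_mul,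
      smul_eq_mul]
    ring

omit [DecidableEq ι] in
theorem ev_monomial (v : ι → ℚ⟦X⟧) (J : ι →₀ ℕ) (a : ℚ[X]) :
    ev v (MvPolynomial.monomial J a) = (a : ℚ⟦X⟧) * ∏ i, v i ^ J i := by
  rw [ev, MvPolynomial.coe_eval₂Hom, MvPolynomial.eval₂_monomial,
    Polynomial.coeToPowerSeries.ringHom_apply, Finsupp.prod_fintype]
  simp

omit [DecidableEq ι] in
theorem sol_BS (d : ℕ) [Fintype {J : ι →₀ ℕ // J.degree = d}] (T : ℤ[X]) (B : Matrix ι ι ℤ[X])
    (v : ι → ℚ⟦X⟧) (hv : IsSol (zq T) (B.map zq) v) :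
    IsSol (zq T) ((BS d B).map zq)
      fun J : {J : ι →₀ ℕ // J.degree = d} => ∏ i, v i ^ J.1 i := by
  intro J
  have h := ev_DD (zq T) (B.map zq) v hv (MvPolynomial.monomial J.1 1)
  rw [ev_monomial] at h
  have h1 : DD (zq T) (B.map zq) (MvPolynomial.monomial J.1 1) =
      EE (B.map zq) (MvPolynomial.monomial J.1 1) := by
    rw [DD_monomial]; simp
  rw [h1, BS_Ph, Ph, map_sum] at h
  simp only [ev_monomial] at h
  rw [Polynomial.coe_one, one_mul] at h
  rw [← h]

end Conc

section Blk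

variable {μ : Type} [Fintype μ]

/-- two copies of a system -/
noncomputable def BB (B : Matrix μ μ ℤ[X]) : Matrix (Fin 2 × μ) (Fin 2 × μ) ℤ[X] :=
  fun x y => if x.1 = y.1 then B x.2 y.2 else 0

theorem sum_BB {S : Type*} [AddCommMonoid S] (f : Fin 2 × μ → S) (s : Fin 2)
    (hf : ∀ x, x.1 ≠ s → f x = 0) : ∑ x, f x = ∑ J, f (s, J) := by
  rw [Fintype.sum_prod_type, Finset.sum_eq_single s]
  · intro b _ hb
    exact Finset.sum_eq_zero fun J _ => hf _ hb
  · simp

theorem dd_BB (T : ℚ[X]) (B : Matrix μ μ ℤ[X]) (P : Fin 2 × μ → ℚ[X]) (k : ℕ) (s : Fin 2) (J : μ) :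
    dd T ((BB B).map zq) P k (s, J) = dd T (B.map zq) (fun J => P (s, J)) k J := by
  induction k generalizing J with
  | zero => rfl
  | succ k ih =>
    simp only [dd]
    rw [ih J]
    congr 2
    rw [del, del]
    have e : (dd T ((BB B).map zq) P k (s, J)) = dd T (B.map zq) (fun J => P (s, J)) k J := ih J
    rw [e, sum_BB _ s]
    · congr 1
      refine Finset.sum_congr rfl fun K _ => ?_
      rw [ih K]
      simp [BB]
    · intro x hx
      simp [BB, hx]

theorem sol_BB (T : ℚ[X]) (B : Matrix μ μ ℤ[X]) (y : Fin 2 × μ → ℚ⟦X⟧)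
    (h : ∀ s, IsSol T (B.map zq) fun J => y (s, J)) : IsSol T ((BB B).map zq) y := by
  rintro ⟨s, J⟩
  rw [h s J, sum_BB _ s]
  · refine Finset.sum_congr rfl fun K _ => ?_
    simp [BB]
  · intro x hx
    simp [BB, Ne.symm hx]

end Blk

section G

theorem coeff_mul_int (u w : ℚ⟦X⟧) (q q' n : ℕ)
    (hu : ∀ k ≤ n, ∃ z : ℤ, (q : ℚ) * PowerSeries.coeff k u = z)
    (hw : ∀ k ≤ n, ∃ z : ℤ, (q' : ℚ) * PowerSeries.coeff k w = z) :
    ∀ k ≤ n, ∃ z : ℤ, ((q * q' : ℕ) : ℚ) * PowerSeries.coeff k (u * w) = z := by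
  intro k hk
  rw [PowerSeries.coeff_mul, Finset.mul_sum]
  have : ∀ x ∈ Finset.HasAntidiagonal.antidiagonal k,
      ((q * q' : ℕ) : ℚ) * (PowerSeries.coeff x.1 u * PowerSeries.coeff x.2 w) ∈
        (Int.castAddHom ℚ).range := by
    intro x hx
    have hx' := Finset.HasAntidiagonal.mem_antidiagonal.1 hx
    obtain ⟨z, hz⟩ := hu x.1 (by omega)
    obtain ⟨z', hz'⟩ := hw x.2 (by omega)
    refine ⟨z * z', ?_⟩
    simp only [Int.coe_castAddHom, Int.cast_mul]
    rw [← hz, ← hz']
    push_cast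
    ring
  obtain ⟨z, hz⟩ := AddSubgroup.sum_mem _ this
  exact ⟨z, hz.symm⟩

theorem coeff_mul_le (u w : ℚ⟦X⟧) (C C' : ℕ) (hC : 1 ≤ C) (hC' : 1 ≤ C')
    (hu : ∀ n, |PowerSeries.coeff n u| ≤ (C : ℚ) ^ (n + 1))
    (hw : ∀ n, |PowerSeries.coeff n w| ≤ (C' : ℚ) ^ (n + 1)) (n : ℕ) :
    |PowerSeries.coeff n (u * w)| ≤ ((2 * (C * C') ^ 2 : ℕ) : ℚ) ^ (n + 1) := by
  rw [PowerSeries.coeff_mul]
  have h1 : (1 : ℚ) ≤ C := by exact_mod_cast hC
  have h1' : (1 : ℚ) ≤ C' := by exact_mod_cast hC'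
  calc |∑ x ∈ Finset.HasAntidiagonal.antidiagonal n,
        PowerSeries.coeff x.1 u * PowerSeries.coeff x.2 w|
      ≤ ∑ x ∈ Finset.HasAntidiagonal.antidiagonal n,
        |PowerSeries.coeff x.1 u * PowerSeries.coeff x.2 w| := Finset.abs_sum_le_sum_abs _ _
    _ ≤ ∑ x ∈ Finset.HasAntidiagonal.antidiagonal n, ((C : ℚ) * C') ^ (n + 1) := by
        refine Finset.sum_le_sum fun x hx => ?_
        have hx' := Finset.HasAntidiagonal.mem_antidiagonal.1 hx
        rw [abs_mul, mul_pow]
        refine mul_le_mul ((hu _).trans (pow_le_pow_right₀ h1 (by omega)))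
          ((hw _).trans (pow_le_pow_right₀ h1' (by omega))) (abs_nonneg _) (by positivity)
    _ = ((n : ℚ) + 1) * ((C : ℚ) * C') ^ (n + 1) := by
        rw [Finset.sum_const, Finset.Nat.card_antidiagonal, nsmul_eq_mul]
        push_cast
        ring
    _ ≤ (2 : ℚ) ^ (n + 1) * (((C : ℚ) * C') ^ 2) ^ (n + 1) := by
        refine mul_le_mul ?_ ?_ (by positivity) (by positivity)
        · have : (n + 1 : ℕ) ≤ 2 ^ (n + 1) := (Nat.lt_two_pow_self).le
          exact_mod_cast this
        · refine pow_le_pow_left₀ (by positivity) ?_ _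
          have : (1 : ℚ) ≤ (C : ℚ) * C' := by nlinarith
          nlinarith
    _ = _ := by
        rw [← mul_pow]
        push_cast
        ring

theorem isG_mul {μ₁ μ₂ μ : Type} (u : μ₁ → ℚ⟦X⟧) (w : μ₂ → ℚ⟦X⟧) (hu : IsG u) (hw : IsG w)
    (f : μ → μ₁) (g : μ → μ₂) : IsG fun x => u (f x) * w (g x) := by
  obtain ⟨C, hC⟩ := hu
  obtain ⟨C', hC'⟩ := hw
  have h1 : 1 ≤ C := by
    obtain ⟨q, hq, hq', _⟩ := hC 0
    simp at hq'
    omega
  have h1' : 1 ≤ C' := by
    obtain ⟨q, hq, hq', _⟩ := hC' 0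
    simp at hq'
    omega
  refine ⟨2 * (C * C') ^ 2, fun n => ?_⟩
  obtain ⟨q, hq, hqC, hqi, hqs⟩ := hC n
  obtain ⟨q', hq', hqC', hqi', hqs'⟩ := hC' n
  refine ⟨q * q', Nat.mul_pos hq hq', ?_, fun x k hk => coeff_mul_int _ _ q q' n
    (hqi (f x)) (hqi' (g x)) k hk, fun x => ?_⟩
  · calc q * q' ≤ C ^ (n + 1) * C' ^ (n + 1) := Nat.mul_le_mul hqC hqC'
      _ = (C * C') ^ (n + 1) := (mul_pow _ _ _).symm
      _ ≤ (2 * (C * C') ^ 2) ^ (n + 1) := by
          refine Nat.pow_le_pow_left ?_ _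
          have : 1 ≤ C * C' := Nat.mul_pos h1 h1'
          nlinarith
  · exact coeff_mul_le _ _ C C' h1 h1' (fun m => by
      obtain ⟨_, _, _, _, h⟩ := hC m
      exact h (f x)) (fun m => by
      obtain ⟨_, _, _, _, h⟩ := hC' m
      exact h (g x)) n

theorem isG_one (μ : Type) : IsG fun _ : μ => (1 : ℚ⟦X⟧) := by
  refine ⟨1, fun n => ⟨1, one_pos, by simp, fun _ k _ => ⟨if k = 0 then 1 else 0, ?_⟩, fun _ => ?_⟩⟩
  · rw [PowerSeries.coeff_one]; split <;> simp
  · rw [PowerSeries.coeff_one]; split <;> simp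

/-- all products of a bounded number of members of a family of G-functions -/
theorem isG_words {μ : Type} (u : μ → ℚ⟦X⟧) (hu : IsG u) (d : ℕ) :
    IsG fun w : Fin d → μ => ∏ a, u (w a) := by
  induction d with
  | zero => simpa using isG_one (Fin 0 → μ)
  | succ d ih =>
    have := isG_mul u (fun w : Fin d → μ => ∏ a, u (w a)) hu ih
      (fun w : Fin (d + 1) → μ => w 0) (fun w : Fin (d + 1) → μ => fun a => w a.succ)
    simpa only [Fin.prod_univ_succ] using this

/-- a family whose members are products of `d` members of a family of G-functions -/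
theorem isG_of_words {μ μ' : Type} (u : μ → ℚ⟦X⟧) (hu : IsG u) (d : ℕ) (y : μ' → ℚ⟦X⟧)
    (h : ∀ x, ∃ w : Fin d → μ, y x = ∏ a, u (w a)) : IsG y := by
  choose w hw using h
  obtain ⟨C, hC⟩ := isG_words u hu d
  refine ⟨C, fun n => ?_⟩
  obtain ⟨q, hq, hqC, hqi, hqs⟩ := hC n
  refine ⟨q, hq, hqC, fun x k hk => ?_, fun x => ?_⟩
  · rw [hw x]; exact hqi (w x) k hk
  · rw [hw x]; exact hqs (w x)

/-- finitely many families of G-functions -/
theorem isG_two {μ : Type} (u : Fin 2 → μ → ℚ⟦X⟧) (hu : ∀ s, IsG (u s)) :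
    IsG fun x : Fin 2 × μ => u x.1 x.2 := by
  obtain ⟨C, hC⟩ := hu 0
  obtain ⟨C', hC'⟩ := hu 1
  have h1 : 1 ≤ C := by
    obtain ⟨q, hq, hq', _⟩ := hC 0
    simp at hq'
    omega
  have h1' : 1 ≤ C' := by
    obtain ⟨q, hq, hq', _⟩ := hC' 0
    simp at hq'
    omega
  refine ⟨C * C', fun n => ?_⟩
  obtain ⟨q, hq, hqC, hqi, hqs⟩ := hC n
  obtain ⟨q', hq', hqC', hqi', hqs'⟩ := hC' n
  have hc1 : (1 : ℚ) ≤ C := by exact_mod_cast h1
  have hc1' : (1 : ℚ) ≤ C' := by exact_mod_cast h1'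
  refine ⟨q * q', Nat.mul_pos hq hq', ?_, ?_, ?_⟩
  · calc q * q' ≤ C ^ (n + 1) * C' ^ (n + 1) := Nat.mul_le_mul hqC hqC'
      _ = (C * C') ^ (n + 1) := (mul_pow _ _ _).symm
  · rintro ⟨s, x⟩ k hk
    fin_cases s
    · obtain ⟨z, hz⟩ := hqi x k hk
      refine ⟨q' * z, ?_⟩
      push_cast
      rw [← hz]
      show ((q : ℚ) * q') * PowerSeries.coeff k (u 0 x) =
        (q' : ℚ) * ((q : ℚ) * PowerSeries.coeff k (u 0 x))
      ring
    · obtain ⟨z, hz⟩ := hqi' x k hk
      refine ⟨q * z, ?_⟩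
      push_cast
      rw [← hz]
      show ((q : ℚ) * q') * PowerSeries.coeff k (u 1 x) =
        (q : ℚ) * ((q' : ℚ) * PowerSeries.coeff k (u 1 x))
      ring
  · rintro ⟨s, x⟩
    fin_cases s
    · refine (hqs x).trans (pow_le_pow_left₀ (by positivity) ?_ _)
      push_cast
      nlinarith
    · refine (hqs' x).trans (pow_le_pow_left₀ (by positivity) ?_ _)
      push_cast
      nlinarith

/-- a monomial of degree `d` is a product of `d` variables -/
theorem exists_word {ι : Type} [Fintype ι] {R : Type*} [CommRing R] (v : ι → R) (d : ℕ)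
    (J : ι →₀ ℕ) (hJ : J.degree = d) : ∃ w : Fin d → ι, ∏ i, v i ^ J i = ∏ a, v (w a) := by
  classical
  induction d generalizing J with
  | zero =>
    have : J = 0 := (Finsupp.degree_eq_zero_iff J).1 hJ
    subst this
    exact ⟨Fin.elim0, by simp⟩
  | succ d ih =>
    have hne : J ≠ 0 := by
      rintro rfl
      simp at hJ
    obtain ⟨i, hi⟩ := Finsupp.ne_iff.1 hne
    have hi' : 1 ≤ J i := Nat.one_le_iff_ne_zero.2 hi
    have e : Finsupp.single i 1 + (J - Finsupp.single i 1) = J :=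
      add_tsub_cancel_of_le (Finsupp.single_le_iff.2 hi')
    have hd : (J - Finsupp.single i 1).degree = d := by
      have := congrArg Finsupp.degree e
      rw [map_add, Finsupp.degree_single, hJ] at this
      omega
    obtain ⟨w, hw⟩ := ih _ hd
    refine ⟨Fin.cons i w, ?_⟩
    rw [Fin.prod_univ_succ]
    simp only [Fin.cons_zero, Fin.cons_succ]
    rw [← hw]
    conv_lhs => rw [← e]
    simp only [Finsupp.add_apply, pow_add, Finset.prod_mul_distrib]
    congr 1
    rw [Finset.prod_eq_single i]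
    · simp
    · intro j _ hj
      rw [Finsupp.single_eq_of_ne hj, pow_zero]
    · simp

end G

end Pool.Agent.Lib.MPf11a48.GF.SymM

namespace Pool.Agent.Lib.MPf11a48.GF

open SymM Polynomial
open scoped PowerSeries

theorem specSym : SpecSym := by
  intro ι _ _ T B v d _ hgal hsol hg
  refine ⟨⟨BB (BS d B), ?_, ?_⟩, ?_⟩
  · obtain ⟨C, hC⟩ := hgal
    refine ⟨C ^ d, fun n => ?_⟩
    obtain ⟨q, hq, hqC, hk⟩ := hC n
    refine ⟨q ^ d, pow_pos hq d, ?_, ?_⟩
    · calc q ^ d ≤ (C ^ (n + 1)) ^ d := Nat.pow_le_pow_left hqC d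
        _ = (C ^ d) ^ (n + 1) := by rw [← pow_mul, ← pow_mul, mul_comm]
    · rintro k hkn ⟨s, J⟩ ⟨s', K⟩
      rw [dd_BB]
      by_cases hs : s' = s
      · subst hs
        obtain ⟨z, hz⟩ := gal_BS d T B q n hk k hkn J K
        refine ⟨z, ?_⟩
        rw [← hz]
        congr 2
        funext L
        by_cases hL : L = J
        · subst hL; simp
        · have : ((s', L) : Fin 2 × {J : ι →₀ ℕ // J.degree = d}) ≠ (s', J) := by
            simp [hL]
          rw [Pi.single_eq_of_ne this, Pi.single_eq_of_ne hL]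
      · refine ⟨0, ?_⟩
        have e : (fun L : {J : ι →₀ ℕ // J.degree = d} =>
            (Pi.single (s, J) 1 : Fin 2 × {J : ι →₀ ℕ // J.degree = d} → ℚ[X]) (s', L)) = 0 := by
          funext L
          have : ((s', L) : Fin 2 × {J : ι →₀ ℕ // J.degree = d}) ≠ (s, J) := by
            simp [hs]
          rw [Pi.single_eq_of_ne this]
          rfl
        rw [e]
        have h0 : ∀ k, dd (zq T) ((BS d B).map zq) (0 : {J : ι →₀ ℕ // J.degree = d} → ℚ[X]) k
            = 0 := by
          intro k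
          induction k with
          | zero => rfl
          | succ k ih =>
            rw [dd, ih]
            funext j
            simp [del]
        rw [h0]
        simp
  · exact sol_BB _ _ _ fun s => sol_BS d T B (v s) (hsol s)
  · refine isG_of_words _ (isG_two v hg) d _ ?_
    rintro ⟨s, J⟩
    obtain ⟨w, hw⟩ := exists_word (v s) d J.1 J.2
    exact ⟨fun a => (s, w a), hw⟩

end Pool.Agent.Lib.MPf11a48.GF
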