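import Pool.Agent.Lib.MP_f11a48_ag.GF.Spec

/-!
# EST: linear independence of the values
-/

set_option autoImplicit false

namespace Pool.Agent.Lib.MPf11a48.GF

open Polynomial Matrix
open scoped PowerSeries

namespace EstM

/-! ### linear algebra -/

theorem det_bound {μ : Type} [Fintype μ] [DecidableEq μ] (A : Matrix μ μ ℂ) (c0 : μ) (ε Y : ℝ)
    (hε : 0 ≤ ε) (hY : 0 ≤ Y) (h1 : ∀ i, ‖A i c0‖ ≤ ε) (h2 : ∀ i j, j ≠ c0 → ‖A i j‖ ≤ Y) :
    ‖A.det‖ ≤ (Fintype.card μ).factorial * (ε * Y ^ (Fintype.card μ - 1)) := by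
  rw [Matrix.det_apply']
  have hb : ∀ σ : Equiv.Perm μ, ‖((Equiv.Perm.sign σ : ℤ) : ℂ) * ∏ i, A (σ i) i‖ ≤
      ε * Y ^ (Fintype.card μ - 1) := by
    intro σ
    have hs : ‖((Equiv.Perm.sign σ : ℤ) : ℂ)‖ = 1 := by
      rcases Int.units_eq_one_or (Equiv.Perm.sign σ) with h | h <;> simp [h]
    rw [norm_mul, hs, one_mul, norm_prod, ← Finset.mul_prod_erase Finset.univ _ (Finset.mem_univ c0)]
    refine mul_le_mul (h1 _) ?_ (Finset.prod_nonneg fun _ _ => norm_nonneg _) hε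
    have h3 : ∏ i ∈ Finset.univ.erase c0, ‖A (σ i) i‖ ≤ ∏ _i ∈ Finset.univ.erase c0, Y :=
      Finset.prod_le_prod (fun _ _ => norm_nonneg _) fun i hi =>
        h2 _ _ (Finset.ne_of_mem_erase hi)
    rw [Finset.prod_const, Finset.card_erase_of_mem (Finset.mem_univ c0), Finset.card_univ] at h3
    exact h3
  refine (norm_sum_le _ _).trans ((Finset.sum_le_sum fun σ _ => hb σ).trans ?_)
  rw [Finset.sum_const, Finset.card_univ, Fintype.card_perm, nsmul_eq_mul]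

theorem key_lin {μ : Type} [Fintype μ] [DecidableEq μ] (Z : Matrix μ μ ℚ) (hZ : Z.det ≠ 0)
    (h : μ → ℤ) (hh : h ≠ 0) (b : ℤ) (hb : 0 < b) (E : ℕ)
    (hint : ∀ i j, ∃ n : ℤ, (b : ℚ) ^ E * Z i j = n) (U : μ → ℂ)
    (hU : ∑ c, (h c : ℂ) * U c = 0) (ε Y : ℝ) (hε : 0 ≤ ε) (hY : 0 ≤ Y)
    (h1 : ∀ i, ‖∑ c, (Z i c : ℂ) * U c‖ ≤ ε) (h2 : ∀ i c, ‖(Z i c : ℂ)‖ ≤ Y)
    (h3 : ∀ c, ‖(h c : ℂ)‖ ≤ Y) (c0 : μ) :
    ‖U c0‖ ≤ ((b : ℝ) ^ E) ^ (Fintype.card μ - 1) *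
      ((Fintype.card μ).factorial * (ε * Y ^ (Fintype.card μ - 1))) := by
  -- exchange
  obtain ⟨i0, hi0⟩ : ∃ i0, (Z.updateRow i0 fun c => (h c : ℚ)).det ≠ 0 := by
    by_contra hcon
    push Not at hcon
    have h4 : Matrix.cramer Zᵀ (fun c => (h c : ℚ)) = 0 := by
      funext i
      rw [Matrix.cramer_transpose_apply, hcon i]; rfl
    have h5 := Matrix.mulVec_cramer Zᵀ (fun c => (h c : ℚ))
    rw [h4, Matrix.mulVec_zero, Matrix.det_transpose] at h5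
    apply hh
    funext c
    have h6 := congrFun h5 c
    simp only [Pi.zero_apply, Pi.smul_apply, smul_eq_mul] at h6
    have h7 : (h c : ℚ) = 0 := by
      rcases mul_eq_zero.mp h6.symm with h8 | h8
      · exact absurd h8 hZ
      · exact h8
    exact_mod_cast h7
  set W : Matrix μ μ ℚ := Z.updateRow i0 fun c => (h c : ℚ) with hW
  -- the determinant is not small
  have hbq : (0 : ℚ) < (b : ℚ) ^ E := by positivity
  have hdet : (1 : ℝ) ≤ ((b : ℝ) ^ E) ^ (Fintype.card μ - 1) * |(W.det : ℝ)| := by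
    let v : μ → ℚ := fun i => if i = i0 then 1 else (b : ℚ) ^ E
    have hv : ∏ i, v i = ((b : ℚ) ^ E) ^ (Fintype.card μ - 1) := by
      rw [← Finset.mul_prod_erase Finset.univ v (Finset.mem_univ i0)]
      have : ∀ i ∈ Finset.univ.erase i0, v i = (b : ℚ) ^ E := fun i hi => by
        simp only [v, if_neg (Finset.ne_of_mem_erase hi)]
      rw [Finset.prod_congr rfl this, Finset.prod_const,
        Finset.card_erase_of_mem (Finset.mem_univ i0), Finset.card_univ]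
      simp [v]
    have hA : ∃ N : Matrix μ μ ℤ, (Matrix.of fun i j => v i * W i j) = N.map (Int.castRingHom ℚ) := by
      have : ∀ i j, ∃ n : ℤ, v i * W i j = n := by
        intro i j
        by_cases hi : i = i0
        · subst hi
          exact ⟨h j, by simp [v, W]⟩
        · obtain ⟨n, hn⟩ := hint i j
          refine ⟨n, ?_⟩
          simp only [v, if_neg hi, W, Matrix.updateRow_ne hi]
          exact hn
      choose N hN using this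
      exact ⟨Matrix.of N, by ext i j; simp [hN]⟩
    obtain ⟨N, hN⟩ := hA
    have h5 := Matrix.det_mul_column v W
    rw [hN, hv, ← RingHom.mapMatrix_apply, ← RingHom.map_det] at h5
    have h6 : N.det ≠ 0 := by
      intro h0
      rw [h0, map_zero] at h5
      rcases mul_eq_zero.mp h5.symm with h7 | h7
      · exact absurd h7 (pow_ne_zero _ hbq.ne')
      · exact hi0 h7
    have h7 : (1 : ℤ) ≤ |N.det| := Int.one_le_abs h6
    have h8 : (1 : ℚ) ≤ |((b : ℚ) ^ E) ^ (Fintype.card μ - 1) * W.det| := by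
      rw [← h5]
      have : ((Int.castRingHom ℚ) N.det : ℚ) = (N.det : ℚ) := rfl
      rw [this, ← Int.cast_abs]
      exact_mod_cast h7
    rw [abs_mul, abs_of_pos (pow_pos hbq _)] at h8
    have h9 : (1 : ℝ) ≤ (((((b : ℚ) ^ E) ^ (Fintype.card μ - 1) * |W.det| : ℚ)) : ℝ) := by
      exact_mod_cast h8
    rw [Rat.cast_mul, Rat.cast_pow, Rat.cast_pow, Rat.cast_intCast, Rat.cast_abs] at h9
    exact h9
  -- Cramer
  let WC : Matrix μ μ ℂ := W.map (Rat.castHom ℂ)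
  have hWC : WC.det = (W.det : ℂ) := by
    rw [show WC = (Rat.castHom ℂ).mapMatrix W from rfl, ← RingHom.map_det]; rfl
  have hcr : WC.det * U c0 = (WC.updateCol c0 (WC *ᵥ U)).det := by
    rw [← Matrix.cramer_apply, Matrix.cramer_eq_adjugate_mulVec, Matrix.mulVec_mulVec,
      Matrix.adjugate_mul, Matrix.smul_mulVec, Matrix.one_mulVec]
    rfl
  have hrow : ∀ i, ‖(WC *ᵥ U) i‖ ≤ ε := by
    intro i
    by_cases hi : i = i0
    · subst hi
      have : (WC *ᵥ U) i = ∑ c, (h c : ℂ) * U c := by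
        simp only [Matrix.mulVec, dotProduct, WC, W, Matrix.map_apply, Matrix.updateRow_self]
        exact Finset.sum_congr rfl fun c _ => by simp
      rw [this, hU, norm_zero]; exact hε
    · have : (WC *ᵥ U) i = ∑ c, (Z i c : ℂ) * U c := by
        simp only [Matrix.mulVec, dotProduct, WC, W, Matrix.map_apply, Matrix.updateRow_ne hi]
        exact Finset.sum_congr rfl fun c _ => by simp
      rw [this]; exact h1 i
  have hent : ∀ i j, ‖WC i j‖ ≤ Y := by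
    intro i j
    by_cases hi : i = i0
    · subst hi
      have : WC i j = (h j : ℂ) := by simp [WC, W]
      rw [this]; exact h3 j
    · have : WC i j = (Z i j : ℂ) := by simp [WC, W, Matrix.updateRow_ne hi]
      rw [this]; exact h2 i j
  have hfin := det_bound (WC.updateCol c0 (WC *ᵥ U)) c0 ε Y hε hY
    (fun i => by rw [Matrix.updateCol_self]; exact hrow i)
    (fun i j hj => by rw [Matrix.updateCol_ne hj]; exact hent i j)
  rw [← hcr, norm_mul, hWC] at hfin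
  have hn : ‖(W.det : ℂ)‖ = |(W.det : ℝ)| := by
    rw [← Complex.ofReal_ratCast, Complex.norm_real, Real.norm_eq_abs]
  rw [hn] at hfin
  have hb0 : (0 : ℝ) ≤ ((b : ℝ) ^ E) ^ (Fintype.card μ - 1) := by positivity
  calc ‖U c0‖ = 1 * ‖U c0‖ := (one_mul _).symm
    _ ≤ (((b : ℝ) ^ E) ^ (Fintype.card μ - 1) * |(W.det : ℝ)|) * ‖U c0‖ :=
        mul_le_mul_of_nonneg_right hdet (norm_nonneg _)
    _ = ((b : ℝ) ^ E) ^ (Fintype.card μ - 1) * (|(W.det : ℝ)| * ‖U c0‖) := by ring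
    _ ≤ _ := mul_le_mul_of_nonneg_left hfin hb0

/-! ### values of polynomials -/

theorem eval_int (z : ℤ[X]) (E : ℕ) (hE : z.natDegree ≤ E) (a b : ℤ) (hb : b ≠ 0) :
    ∃ n : ℤ, (b : ℚ) ^ E * (zq z).eval ((a : ℚ) / b) = n := by
  refine ⟨∑ i ∈ Finset.range (E + 1), z.coeff i * a ^ i * b ^ (E - i), ?_⟩
  have hd : (zq z).natDegree < E + 1 := by
    have : (zq z).natDegree ≤ z.natDegree := Polynomial.natDegree_map_le
    omega
  have hbq : (b : ℚ) ≠ 0 := by exact_mod_cast hb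
  rw [Polynomial.eval_eq_sum_range' hd, Finset.mul_sum]
  push_cast
  refine Finset.sum_congr rfl fun i hi => ?_
  have hi' : i ≤ E := by simpa [Nat.lt_succ_iff] using hi
  rw [Polynomial.coeff_map, Int.coe_castRingHom, div_pow]
  obtain ⟨j, rfl⟩ := Nat.exists_eq_add_of_le hi'
  rw [Nat.add_sub_cancel_left, pow_add]
  field_simp

theorem eval_bound (z : ℤ[X]) (E : ℕ) (hE : z.natDegree ≤ E) (H : ℤ)
    (hH : ∀ i, |z.coeff i| ≤ H) (ξ : ℚ) (hξ : |ξ| ≤ 1) :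
    |(zq z).eval ξ| ≤ (E + 1) * H := by
  have hd : (zq z).natDegree < E + 1 := by
    have : (zq z).natDegree ≤ z.natDegree := Polynomial.natDegree_map_le
    omega
  rw [Polynomial.eval_eq_sum_range' hd]
  refine (Finset.abs_sum_le_sum_abs _ _).trans ?_
  have : ∀ i ∈ Finset.range (E + 1), |(zq z).coeff i * ξ ^ i| ≤ (H : ℚ) := by
    intro i _
    rw [abs_mul, Polynomial.coeff_map, Int.coe_castRingHom, abs_pow, ← Int.cast_abs]
    have h1 : ((|z.coeff i| : ℤ) : ℚ) ≤ H := by exact_mod_cast hH i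
    have h2 : |ξ| ^ i ≤ 1 := pow_le_one₀ (abs_nonneg _) hξ
    have h3 : (0 : ℚ) ≤ ((|z.coeff i| : ℤ) : ℚ) := by exact_mod_cast abs_nonneg _
    calc ((|z.coeff i| : ℤ) : ℚ) * |ξ| ^ i ≤ ((|z.coeff i| : ℤ) : ℚ) * 1 :=
          mul_le_mul_of_nonneg_left h2 h3
      _ ≤ H := by rw [mul_one]; exact h1
  refine (Finset.sum_le_sum this).trans ?_
  rw [Finset.sum_const, Finset.card_range, nsmul_eq_mul]
  push_cast
  exact le_rfl

theorem eval_ne_zero (T : ℚ[X]) (hT : T ≠ 0) :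
    ∃ N : ℕ, ∀ ξ : ℚ, ξ ≠ 0 → N * |ξ| ≤ 1 → T.eval ξ ≠ 0 := by
  obtain ⟨N, hN⟩ : ∃ N : ℕ, ∀ ξ ∈ T.roots.toFinset, ξ ≠ 0 → |ξ|⁻¹ < N := by
    obtain ⟨x, hx⟩ := (T.roots.toFinset.image fun ξ => |ξ|⁻¹).exists_le
    obtain ⟨N, hN⟩ := exists_nat_gt x
    exact ⟨N, fun ξ hξ _ => lt_of_le_of_lt (hx _ (Finset.mem_image_of_mem _ hξ)) hN⟩
  refine ⟨N, fun ξ h0 h1 h2 => ?_⟩
  have h3 : ξ ∈ T.roots.toFinset := by
    rw [Multiset.mem_toFinset, Polynomial.mem_roots hT]; exact h2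
  have h4 := hN ξ h3 h0
  have h5 : 0 < |ξ| := abs_pos.mpr h0
  have h6 : 1 < N * |ξ| := by
    calc (1 : ℚ) = |ξ|⁻¹ * |ξ| := (inv_mul_cancel₀ h5.ne').symm
      _ < N * |ξ| := mul_lt_mul_of_pos_right h4 h5
  linarith

/-! ### values of power series -/

/-- absolute convergence -/
def Sm (f : ℚ⟦X⟧) (z : ℂ) : Prop :=
  Summable fun k => ‖((PowerSeries.coeff k f : ℚ) : ℂ) * z ^ k‖

theorem Sm.add {f g : ℚ⟦X⟧} {z : ℂ} (hf : Sm f z) (hg : Sm g z) : Sm (f + g) z := by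
  refine Summable.of_nonneg_of_le (fun _ => norm_nonneg _) (fun k => ?_) (Summable.add hf hg)
  rw [map_add, Rat.cast_add, add_mul]
  exact norm_add_le _ _

theorem Sm.zero (z : ℂ) : Sm 0 z := by
  unfold Sm; simp

theorem Sm.sum {κ : Type} (s : Finset κ) {f : κ → ℚ⟦X⟧} {z : ℂ} (h : ∀ i ∈ s, Sm (f i) z) :
    Sm (∑ i ∈ s, f i) z := by
  classical
  induction s using Finset.induction_on with
  | empty => simpa using Sm.zero z
  | insert a s ha ih =>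
    rw [Finset.sum_insert ha]
    exact (h a (Finset.mem_insert_self _ _)).add
      (ih fun i hi => h i (Finset.mem_insert_of_mem hi))

theorem pval_zero (z : ℂ) : pval 0 z = 0 := by simp [pval]

theorem pval_sum (hE : SpecEval) {κ : Type} (s : Finset κ) {f : κ → ℚ⟦X⟧} {z : ℂ}
    (h : ∀ i ∈ s, Sm (f i) z) : pval (∑ i ∈ s, f i) z = ∑ i ∈ s, pval (f i) z := by
  classical
  induction s using Finset.induction_on with
  | empty => simpa using pval_zero z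
  | insert a s ha ih =>
    rw [Finset.sum_insert ha, Finset.sum_insert ha,
      (hE.2.1 _ _ z (h a (Finset.mem_insert_self _ _))
        (Sm.sum s fun i hi => h i (Finset.mem_insert_of_mem hi))).1,
      ih fun i hi => h i (Finset.mem_insert_of_mem hi)]

theorem Sm.hs {f : ℚ⟦X⟧} {z : ℂ} (k : ℕ) (h : Sm f (2 * z)) (hz : z ≠ 0) : Sm (hs k f) z := by
  -- bounded terms at `2 z`
  obtain ⟨A, hA⟩ : ∃ A : ℝ, ∀ n, ‖((PowerSeries.coeff n f : ℚ) : ℂ) * (2 * z) ^ n‖ ≤ A := by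
    refine ⟨∑' n, ‖((PowerSeries.coeff n f : ℚ) : ℂ) * (2 * z) ^ n‖, fun n => ?_⟩
    exact h.le_tsum n fun _ _ => norm_nonneg _
  have hz0 : 0 < ‖z‖ := norm_pos_iff.mpr hz
  have hs1 := summable_choose_mul_geometric_of_norm_lt_one (R := ℝ) k (r := (1 / 2 : ℝ))
    (by rw [Real.norm_eq_abs, abs_of_pos (by norm_num)]; norm_num)
  refine Summable.of_nonneg_of_le (fun _ => norm_nonneg _) (fun n => ?_)
    (hs1.mul_left (A * ‖2 * z‖⁻¹ ^ k))
  have h2 := hA (n + k)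
  have hc : PowerSeries.coeff n (GF.hs k f) =
      ((n + k).choose k : ℚ) * PowerSeries.coeff (n + k) f := PowerSeries.coeff_mk _ _
  rw [hc]
  rw [norm_mul, norm_pow] at h2 ⊢
  rw [Rat.cast_mul, norm_mul]
  have h3 : ‖(((n + k).choose k : ℚ) : ℂ)‖ = ((n + k).choose k : ℝ) := by
    rw [Rat.cast_natCast]; simp
  rw [h3]
  have h2z : ‖2 * z‖ = 2 * ‖z‖ := by rw [norm_mul]; simp
  rw [h2z] at h2 ⊢
  have h4 : ‖((PowerSeries.coeff (n + k) f : ℚ) : ℂ)‖ ≤ A * (2 * ‖z‖)⁻¹ ^ (n + k) := by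
    have hp : 0 < (2 * ‖z‖) ^ (n + k) := by positivity
    rw [inv_pow, ← div_eq_mul_inv, le_div_iff₀ hp]
    exact h2
  have h5 : (0 : ℝ) ≤ ((n + k).choose k : ℝ) := by positivity
  calc ((n + k).choose k : ℝ) * ‖((PowerSeries.coeff (n + k) f : ℚ) : ℂ)‖ * ‖z‖ ^ n
      ≤ ((n + k).choose k : ℝ) * (A * (2 * ‖z‖)⁻¹ ^ (n + k)) * ‖z‖ ^ n := by gcongr
    _ = A * (2 * ‖z‖)⁻¹ ^ k * (((n + k).choose k : ℝ) * (1 / 2) ^ n) := by
        rw [pow_add, mul_inv, mul_pow ((2 : ℝ)⁻¹) (‖z‖⁻¹) n, one_div]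
        have : ‖z‖⁻¹ ^ n * ‖z‖ ^ n = 1 := by
          rw [← mul_pow, inv_mul_cancel₀ hz0.ne', one_pow]
        calc ((n + k).choose k : ℝ) * (A * (2⁻¹ ^ n * ‖z‖⁻¹ ^ n * (2⁻¹ * ‖z‖⁻¹) ^ k)) * ‖z‖ ^ n
            = ((n + k).choose k : ℝ) * A * 2⁻¹ ^ n * (2⁻¹ * ‖z‖⁻¹) ^ k * (‖z‖⁻¹ ^ n * ‖z‖ ^ n) := by
              ring
          _ = _ := by rw [this]; ring

theorem aeval_rat (p : ℚ[X]) (ξ : ℚ) : aeval ((ξ : ℚ) : ℂ) p = ((p.eval ξ : ℚ) : ℂ) := by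
  have := Polynomial.aeval_algebraMap_apply ℂ ξ p
  simpa using this

theorem value_formula (hE : SpecEval) (hSolv : SpecSolv) {μ : Type} [Fintype μ] (T : ℚ[X])
    (B : Matrix μ μ ℚ[X]) (u : μ → ℚ⟦X⟧) (hs0 : IsSol T B u) (P : μ → ℚ[X]) (k : ℕ) (ξ : ℚ)
    (hξ : ξ ≠ 0) (h1 : ∀ c, Sm (u c) (ξ : ℂ)) (h2 : ∀ c, Sm (u c) (2 * (ξ : ℂ))) :
    ∑ c, ((((dd T B P k c).eval ξ : ℚ)) : ℂ) * pval (u c) (ξ : ℂ) =
      ((T.eval ξ : ℚ) : ℂ) ^ k * pval (GF.hs k (∑ c, (P c : ℚ⟦X⟧) * u c)) (ξ : ℂ) := by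
  have hz : (ξ : ℂ) ≠ 0 := by exact_mod_cast hξ
  have hP : ∀ (p : ℚ[X]) (z : ℂ), Sm (p : ℚ⟦X⟧) z := fun p z => (hE.2.2.1 p z).1
  have hR : Sm (∑ c, (P c : ℚ⟦X⟧) * u c) (2 * (ξ : ℂ)) :=
    Sm.sum _ fun c _ => (hE.2.1 _ _ _ (hP _ _) (h2 c)).2.2
  have hhs := hR.hs k hz
  have hsol : pval (∑ j, (dd T B P k j : ℚ⟦X⟧) * u j) (ξ : ℂ) =
      pval ((T : ℚ⟦X⟧) ^ k * GF.hs k (∑ j, (P j : ℚ⟦X⟧) * u j)) (ξ : ℂ) := by
    rw [hSolv μ T B u hs0 P k]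
  rw [pval_sum hE _ fun c _ => (hE.2.1 _ _ _ (hP _ _) (h1 c)).2.2] at hsol
  have hTk : ((T : ℚ[X]) : ℚ⟦X⟧) ^ k = ((T ^ k : ℚ[X]) : ℚ⟦X⟧) := by
    rw [Polynomial.coe_pow]
  rw [hTk, (hE.2.1 _ _ _ (hP _ _) hhs).2.1, (hE.2.2.1 _ _).2, aeval_rat, Polynomial.eval_pow,
    Rat.cast_pow] at hsol
  rw [← hsol]
  refine Finset.sum_congr rfl fun c _ => ?_
  rw [(hE.2.1 _ _ _ (hP _ _) (h1 c)).2.1, (hE.2.2.1 _ _).2, aeval_rat]

theorem exists_clear {μ : Type} [Fintype μ] (h : μ → ℚ) :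
    ∃ N : ℕ, 0 < N ∧ ∀ c, ∃ n : ℤ, (N : ℚ) * h c = n := by
  classical
  refine ⟨∏ c, (h c).den, Finset.prod_pos fun c _ => (h c).den_pos, fun c => ?_⟩
  obtain ⟨m, hm⟩ := Finset.dvd_prod_of_mem (fun c => (h c).den) (Finset.mem_univ c)
  refine ⟨m * (h c).num, ?_⟩
  rw [hm]
  push_cast
  have := Rat.mul_den_eq_num (h c)
  calc ((h c).den : ℚ) * m * h c = m * (h c * (h c).den) := by ring
    _ = _ := by rw [this]

theorem exists_coeff_bound (T : ℤ[X]) : ∃ H : ℕ, ∀ i, |T.coeff i| ≤ (H : ℤ) := by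
  refine ⟨∑ i ∈ Finset.range (T.natDegree + 1), (T.coeff i).natAbs, fun i => ?_⟩
  by_cases hi : i ≤ T.natDegree
  · rw [Int.abs_eq_natAbs]
    exact_mod_cast Finset.single_le_sum (f := fun i => (T.coeff i).natAbs)
      (fun _ _ => Nat.zero_le _) (Finset.mem_range.mpr (Nat.lt_succ_of_le hi))
  · rw [Polynomial.coeff_eq_zero_of_natDegree_lt (not_le.mp hi), abs_zero]
    positivity

/-- bounds by powers of a product -/
theorem pow_bounds (g1 g2 g3 g4 g5 : ℝ) (h1 : 1 ≤ g1) (h2 : 1 ≤ g2) (h3 : 1 ≤ g3) (h4 : 1 ≤ g4)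
    (h5 : 1 ≤ g5) (s n1 n2 n3 n4 n5 : ℕ) (k1 : n1 ≤ s) (k2 : n2 ≤ s) (k3 : n3 ≤ s) (k4 : n4 ≤ s)
    (k5 : n5 ≤ s) :
    g1 ^ n1 * g2 ^ n2 * g3 ^ n3 * g4 ^ n4 * g5 ^ n5 ≤ (g1 * g2 * g3 * g4 * g5) ^ s := by
  rw [mul_pow, mul_pow, mul_pow, mul_pow]
  have e1 := pow_le_pow_right₀ h1 k1
  have e2 := pow_le_pow_right₀ h2 k2
  have e3 := pow_le_pow_right₀ h3 k3
  have e4 := pow_le_pow_right₀ h4 k4
  have e5 := pow_le_pow_right₀ h5 k5
  gcongr

/-- the estimate for one `k` -/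
theorem step (hBnd : SpecBnd) (hSieg : SpecSieg) (hShid : SpecShid) (hZero : SpecZero)
    (hSolv : SpecSolv) (hE : SpecEval) (hRem : SpecRem) {μ : Type} [Fintype μ] [DecidableEq μ]
    [Nonempty μ] (T : ℤ[X]) (B : Matrix μ μ ℤ[X]) (u : μ → ℚ⟦X⟧) (hT : T ≠ 0) (hgal : IsGal T B)
    (hsol : IsSol (zq T) (B.map zq) u) (hG : IsG u) (hlin : LinInd u) (c0 : μ) :
    ∃ C KZ k0 CB G : ℕ, 1 ≤ G ∧ ∀ a b : ℤ, a ≠ 0 → 0 < b → C * |a| ≤ b →
      pval (u c0) ((((a : ℚ) / b : ℚ)) : ℂ) ≠ 0 ∧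
      ∀ (h : μ → ℤ) (H0 : ℝ), 0 ≤ H0 → (∀ c, ‖(h c : ℂ)‖ ≤ H0) → h ≠ 0 →
        ∑ c, (h c : ℂ) * pval (u c) ((((a : ℚ) / b : ℚ)) : ℂ) = 0 → ∀ k, k0 ≤ k →
        ‖pval (u c0) ((((a : ℚ) / b : ℚ)) : ℂ)‖ ≤
          ((b : ℝ) ^ (((Fintype.card μ - 1) * CB + 4) * k + CB * (k + KZ))) ^ (Fintype.card μ - 1) *
          ((Fintype.card μ).factorial *
            (((G : ℝ) ^ ((Fintype.card μ + 1) * (((Fintype.card μ - 1) * CB + 4) * k) +
                (CB + 1) * (k + KZ) + 2) *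
              (|(a : ℝ)| / b) ^ (Fintype.card μ * (((Fintype.card μ - 1) * CB + 4) * k) - k -
                (k + KZ))) *
            ((1 + H0) * (G : ℝ) ^ ((Fintype.card μ + 1) * (((Fintype.card μ - 1) * CB + 4) * k) +
                (CB + 1) * (k + KZ) + 2)) ^ (Fintype.card μ - 1))) := by
  obtain ⟨CB, hCB⟩ := hBnd μ T B hgal
  obtain ⟨CS, hCS⟩ := hSieg μ u hG ((Fintype.card μ - 1) * CB + 4) (by omega)
  have hTq : zq T ≠ 0 := by
    rw [Ne, Polynomial.map_eq_zero_iff (Int.cast_injective)]; exact hT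
  obtain ⟨KS, hKS⟩ := hShid μ (zq T) (B.map zq) u hTq hsol hlin
  have huc : u c0 ≠ 0 := by
    intro h0
    have := hlin (Pi.single c0 1) (by
      refine Finset.sum_eq_zero fun c _ => ?_
      by_cases hc : c = c0
      · subst hc; rw [h0, mul_zero]
      · rw [Pi.single_eq_of_ne hc]; simp)
    have h1 := congrFun this c0
    simp at h1
  have hu : u ≠ 0 := fun h0 => huc (by rw [h0]; rfl)
  obtain ⟨KZ, hKZ⟩ := hZero μ (zq T) (B.map zq) u hsol hu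
  have hG0 := hG
  obtain ⟨CG, hCG⟩ := hG0
  have hco : ∀ c n, |PowerSeries.coeff n (u c)| ≤ (CG : ℚ) ^ (n + 1) := fun c n => by
    obtain ⟨q, _, _, _, h4⟩ := hCG n
    exact h4 c
  obtain ⟨C', hC'⟩ := hRem μ u CG hco
  obtain ⟨NT, hNT⟩ := eval_ne_zero (zq T) hTq
  obtain ⟨KE, hKE⟩ := hE.2.2.2 (u c0) CG (hco c0) huc
  obtain ⟨HT, hHT⟩ := exists_coeff_bound T
  set CT : ℕ := (T.natDegree + 1) * HT with hCTdef
  set M := Fintype.card μ with hM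
  set r := (M - 1) * CB + 4 with hr
  have hM1 : 1 ≤ M := Fintype.card_pos
  refine ⟨NT + KE + C' + 4 * CG + 1, KZ, KS + KZ + 1, CB,
    2 * (CS + 1) * (CB + 1) * (CT + 1) * (C' + 1), by
      have : 0 < 2 * (CS + 1) * (CB + 1) * (CT + 1) * (C' + 1) := by positivity
      omega, ?_⟩
  intro a b ha hb hab
  set ξ : ℚ := (a : ℚ) / b with hξdef
  have hbq : (0 : ℚ) < b := by exact_mod_cast hb
  have hbr : (0 : ℝ) < b := by exact_mod_cast hb
  have haq : (a : ℚ) ≠ 0 := by exact_mod_cast ha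
  have hξ0 : ξ ≠ 0 := div_ne_zero haq hbq.ne'
  have hξabs : |ξ| = |(a : ℚ)| / b := by rw [hξdef, abs_div, abs_of_pos hbq]
  have hsmall : ∀ K : ℕ, K ≤ NT + KE + C' + 4 * CG + 1 → (K : ℚ) * |ξ| ≤ 1 := by
    intro K hK
    rw [hξabs, ← mul_div_assoc, div_le_one hbq]
    have h1 : (K : ℤ) * |a| ≤ ((NT + KE + C' + 4 * CG + 1 : ℕ) : ℤ) * |a| :=
      mul_le_mul_of_nonneg_right (by exact_mod_cast hK) (abs_nonneg _)
    have h2 := h1.trans hab
    exact_mod_cast h2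
  have hznorm : ‖(ξ : ℂ)‖ = ((|ξ| : ℚ) : ℝ) := by
    rw [← Complex.ofReal_ratCast, Complex.norm_real, Real.norm_eq_abs, Rat.cast_abs]
  have hsmallr : ∀ K : ℕ, K ≤ NT + KE + C' + 4 * CG + 1 → (K : ℝ) * ‖(ξ : ℂ)‖ ≤ 1 := by
    intro K hK
    rw [hznorm]
    exact_mod_cast hsmall K hK
  have hξ1 : |ξ| ≤ 1 := by simpa using hsmall 1 (by omega)
  have hz1 : ‖(ξ : ℂ)‖ ≤ 1 := by simpa using hsmallr 1 (by omega)
  have hz0 : (ξ : ℂ) ≠ 0 := by exact_mod_cast hξ0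
  have hzval : ‖(ξ : ℂ)‖ = |(a : ℝ)| / b := by
    rw [hznorm, hξabs]; push_cast; rfl
  refine ⟨hKE _ hz0 (hsmallr KE (by omega)), ?_⟩
  intro h H0 hH0 hhb hh hsum k hk
  -- Padé approximants
  obtain ⟨P, hP0, hPdeg, hPco, hPdvd⟩ := hCS k (by omega)
  set Pq : μ → ℚ[X] := fun c => zq (P c) with hPq
  have hPq0 : Pq ≠ 0 := by
    intro h0
    apply hP0
    funext c
    have h1 : zq (P c) = 0 := congrFun h0 c
    rwa [Polynomial.map_eq_zero_iff (Int.cast_injective)] at h1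
  have hPqdeg : ∀ c, (Pq c).natDegree ≤ r * k := fun c =>
    (Polynomial.natDegree_map_le).trans (hPdeg c).le
  -- arithmetic
  obtain ⟨m, hm⟩ : ∃ m, M = m + 1 := ⟨M - 1, by omega⟩
  have hMr : M * (r * k) = m * (r * k) + r * k := by rw [hm]; ring
  have hrk : 4 * k ≤ r * k := Nat.mul_le_mul_right k (by omega)
  have hm1 : M - 1 = m := by omega
  have hli := hKS Pq (r * k) (M * (r * k) - k) hPq0 hPqdeg hPdvd (by
    rw [hm1, hMr]; omega)
  have hξT : (zq T).eval ξ ≠ 0 := hNT ξ hξ0 (hsmall NT (by omega))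
  obtain ⟨kk, hkk, hkli⟩ := hKZ Pq (r * k) (M * (r * k) - k) ξ hPqdeg hPdvd hli hξ0 hξT
  have hkk' : ∀ i, kk i ≤ k + KZ := by
    intro i
    have h1 : kk i + (M * (r * k) - k) ≤ M * (r * k) + KZ := hkk i
    have h2 : k ≤ M * (r * k) := by rw [hMr]; omega
    omega
  obtain ⟨q, hq0, hqC, hq⟩ := hCB (k + KZ)
  choose! zz hzz using hq P (r * k) (CS ^ (r * k)) (fun c => (hPdeg c).le)
    (fun c i => by exact_mod_cast hPco c i)
  let e : μ ≃ Fin M := Fintype.equivFin μ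
  set s := (M + 1) * (r * k) + (CB + 1) * (k + KZ) + 2 with hs
  have hs' : s = m * (r * k) + r * k + r * k + CB * (k + KZ) + (k + KZ) + 2 := by
    rw [hs, hm]; ring
  let Z : Matrix μ μ ℚ := Matrix.of fun i c =>
    (q : ℚ) * (dd (zq T) (B.map zq) Pq (kk (e i)) c).eval ξ
  have hZval : ∀ i c, Z i c = (zq (zz (kk (e i)) c)).eval ξ := by
    intro i c
    have h1 := (hzz (kk (e i)) (hkk' _) c).1
    have h2 := congrArg (Polynomial.eval ξ) h1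
    rw [Polynomial.eval_mul, Polynomial.eval_natCast] at h2
    exact h2
  have hqq : (q : ℚ) ≠ 0 := by exact_mod_cast hq0.ne'
  have hZdet : Z.det ≠ 0 := by
    have h1 : LinearIndependent ℚ fun i : μ => fun c =>
        (dd (zq T) (B.map zq) Pq (kk (e i)) c).eval ξ := hkli.comp e e.injective
    have h2 : Z = (q : ℚ) • Matrix.of (fun i : μ => fun c =>
        (dd (zq T) (B.map zq) Pq (kk (e i)) c).eval ξ) := by
      ext i c; simp [Z]
    rw [h2, Matrix.det_smul]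
    refine mul_ne_zero (pow_ne_zero _ hqq) ?_
    have h3 : IsUnit (Matrix.of (fun i : μ => fun c =>
        (dd (zq T) (B.map zq) Pq (kk (e i)) c).eval ξ)) :=
      Matrix.linearIndependent_rows_iff_isUnit.mp h1
    rw [Matrix.isUnit_iff_isUnit_det] at h3
    exact h3.ne_zero
  -- the sizes
  have g1 : (1 : ℝ) ≤ 2 := by norm_num
  have g2 : (1 : ℝ) ≤ (CS : ℝ) + 1 := by simp
  have g3 : (1 : ℝ) ≤ (CB : ℝ) + 1 := by simp
  have g4 : (1 : ℝ) ≤ (CT : ℝ) + 1 := by simp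
  have g5 : (1 : ℝ) ≤ (C' : ℝ) + 1 := by simp
  have hGc : (((2 * (CS + 1) * (CB + 1) * (CT + 1) * (C' + 1) : ℕ)) : ℝ) =
      2 * ((CS : ℝ) + 1) * ((CB : ℝ) + 1) * ((CT : ℝ) + 1) * ((C' : ℝ) + 1) := by push_cast; ring
  rw [hGc]
  set G : ℝ := 2 * ((CS : ℝ) + 1) * ((CB : ℝ) + 1) * ((CT : ℝ) + 1) * ((C' : ℝ) + 1) with hGdef
  have hG0 : 0 ≤ G := by positivity
  have hZb : ∀ i c, ‖(Z i c : ℂ)‖ ≤ G ^ s := by
    intro i c
    have h1 := hzz (kk (e i)) (hkk' _) c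
    have h2 := eval_bound (zz (kk (e i)) c) (r * k + CB * (k + KZ)) h1.2.1
      (((CS ^ (r * k) : ℕ) : ℤ) * (CB : ℤ) ^ (r * k + (k + KZ) + 1)) (by exact_mod_cast h1.2.2) ξ hξ1
    rw [← hZval] at h2
    have h3 : ‖(Z i c : ℂ)‖ = ((|Z i c| : ℚ) : ℝ) := by
      rw [← Complex.ofReal_ratCast, Complex.norm_real, Real.norm_eq_abs, Rat.cast_abs]
    rw [h3]
    have h4 : ((|Z i c| : ℚ) : ℝ) ≤ (((((r * k + CB * (k + KZ) : ℕ) : ℚ) + 1) *
        ((((CS ^ (r * k) : ℕ) : ℤ) * (CB : ℤ) ^ (r * k + (k + KZ) + 1) : ℤ) : ℚ) : ℚ) : ℝ) := by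
      exact_mod_cast h2
    refine h4.trans ?_
    have h5 : (((r * k + CB * (k + KZ) : ℕ) : ℝ) + 1) ≤ 2 ^ (r * k + CB * (k + KZ)) := by
      have : r * k + CB * (k + KZ) + 1 ≤ 2 ^ (r * k + CB * (k + KZ)) := Nat.lt_two_pow_self
      exact_mod_cast this
    have h6 := pow_bounds 2 ((CS : ℝ) + 1) ((CB : ℝ) + 1) ((CT : ℝ) + 1) ((C' : ℝ) + 1) g1 g2 g3 g4 g5
      s (r * k + CB * (k + KZ)) (r * k) (r * k + (k + KZ) + 1) 0 0 (by omega) (by omega) (by omega)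
      (by omega) (by omega)
    rw [pow_zero, mul_one, pow_zero, mul_one] at h6
    refine le_trans ?_ h6
    push_cast
    push_cast at h5
    have h7 : (CS : ℝ) ^ (r * k) ≤ ((CS : ℝ) + 1) ^ (r * k) := by gcongr; simp
    have h8 : (CB : ℝ) ^ (r * k + (k + KZ) + 1) ≤ ((CB : ℝ) + 1) ^ (r * k + (k + KZ) + 1) := by
      gcongr; simp
    rw [mul_assoc]
    refine mul_le_mul h5 (mul_le_mul h7 h8 (by positivity) (by positivity)) (by positivity)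
      (by positivity)
  have hSm1 : ∀ c, Sm (u c) (ξ : ℂ) := fun c =>
    hE.1 (u c) CG _ (hco c) (by
      have := hsmallr (2 * CG) (by omega)
      push_cast at this; exact this)
  have hSm2 : ∀ c, Sm (u c) (2 * (ξ : ℂ)) := fun c =>
    hE.1 (u c) CG _ (hco c) (by
      have := hsmallr (4 * CG) (by omega)
      push_cast at this
      rw [norm_mul, Complex.norm_ofNat]
      linarith)
  have hrow : ∀ i, ‖∑ c, (Z i c : ℂ) * pval (u c) (ξ : ℂ)‖ ≤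
      G ^ s * (|(a : ℝ)| / b) ^ (M * (r * k) - k - (k + KZ)) := by
    intro i
    have h1 : ∑ c, (Z i c : ℂ) * pval (u c) (ξ : ℂ) = (q : ℂ) *
        ((((zq T).eval ξ : ℚ) : ℂ) ^ (kk (e i)) *
          pval (GF.hs (kk (e i)) (∑ c, (Pq c : ℚ⟦X⟧) * u c)) (ξ : ℂ)) := by
      rw [← value_formula hE hSolv (zq T) (B.map zq) u hsol Pq (kk (e i)) ξ hξ0 hSm1 hSm2,
        Finset.mul_sum]
      refine Finset.sum_congr rfl fun c _ => ?_
      simp only [Z, Matrix.of_apply]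
      push_cast
      ring
    rw [h1, norm_mul, norm_mul, norm_pow]
    have hLk : kk (e i) ≤ M * (r * k) - k := by
      have h2 := hkk' (e i)
      rw [hMr]; omega
    have h2 := hC' P (r * k) (CS ^ (r * k)) (M * (r * k) - k) (kk (e i)) (ξ : ℂ)
      (fun c => (hPdeg c).le) (fun c i => by exact_mod_cast hPco c i) hLk hPdvd
      (hsmallr C' (by omega))
    have h3 : ‖(q : ℂ)‖ ≤ ((CB : ℝ) + 1) ^ (k + KZ + 1) := by
      have h4 : ‖(q : ℂ)‖ = (q : ℝ) := by simp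
      rw [h4]
      have h5 : (q : ℝ) ≤ (CB : ℝ) ^ (k + KZ + 1) := by exact_mod_cast hqC
      refine h5.trans ?_
      gcongr; simp
    have h4 : ‖(((zq T).eval ξ : ℚ) : ℂ)‖ ≤ (CT : ℝ) + 1 := by
      have h5 := eval_bound T T.natDegree le_rfl HT hHT ξ hξ1
      have h6 : ‖(((zq T).eval ξ : ℚ) : ℂ)‖ = ((|(zq T).eval ξ| : ℚ) : ℝ) := by
        rw [← Complex.ofReal_ratCast, Complex.norm_real, Real.norm_eq_abs, Rat.cast_abs]
      rw [h6]
      have h7 : ((|(zq T).eval ξ| : ℚ) : ℝ) ≤ (((T.natDegree + 1) * (HT : ℤ) : ℚ) : ℝ) := by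
        exact_mod_cast h5
      refine h7.trans ?_
      rw [hCTdef]; push_cast; linarith
    have h5 : ‖(((zq T).eval ξ : ℚ) : ℂ)‖ ^ (kk (e i)) ≤ ((CT : ℝ) + 1) ^ (k + KZ) :=
      (pow_le_pow_left₀ (norm_nonneg _) h4 _).trans (pow_le_pow_right₀ g4 (hkk' _))
    have h6 : ‖(ξ : ℂ)‖ ^ (M * (r * k) - k - kk (e i)) ≤
        (|(a : ℝ)| / b) ^ (M * (r * k) - k - (k + KZ)) := by
      rw [← hzval]
      exact pow_le_pow_of_le_one (norm_nonneg _) hz1 (by have := hkk' (e i); omega)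
    have h7 : ((CS ^ (r * k) : ℕ) : ℝ) * (C' : ℝ) ^ (r * k + (M * (r * k) - k) + 1) ≤
        ((CS : ℝ) + 1) ^ (r * k) * ((C' : ℝ) + 1) ^ (r * k + (M * (r * k) - k) + 1) := by
      push_cast
      gcongr <;> simp
    have h8 := pow_bounds 2 ((CS : ℝ) + 1) ((CB : ℝ) + 1) ((CT : ℝ) + 1) ((C' : ℝ) + 1) g1 g2 g3 g4 g5
      s 0 (r * k) (k + KZ + 1) (k + KZ) (r * k + (M * (r * k) - k) + 1) (by omega) (by omega)
      (by omega) (by omega) (by rw [hMr]; omega)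
    rw [pow_zero, one_mul] at h8
    calc ‖(q : ℂ)‖ * (‖(((zq T).eval ξ : ℚ) : ℂ)‖ ^ (kk (e i)) *
          ‖pval (GF.hs (kk (e i)) (∑ c, (Pq c : ℚ⟦X⟧) * u c)) (ξ : ℂ)‖)
        ≤ ((CB : ℝ) + 1) ^ (k + KZ + 1) * (((CT : ℝ) + 1) ^ (k + KZ) *
          (((CS ^ (r * k) : ℕ) : ℝ) * (C' : ℝ) ^ (r * k + (M * (r * k) - k) + 1) *
            ‖(ξ : ℂ)‖ ^ (M * (r * k) - k - kk (e i)))) := by
          gcongr
      _ ≤ ((CB : ℝ) + 1) ^ (k + KZ + 1) * (((CT : ℝ) + 1) ^ (k + KZ) *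
          (((CS : ℝ) + 1) ^ (r * k) * ((C' : ℝ) + 1) ^ (r * k + (M * (r * k) - k) + 1) *
            (|(a : ℝ)| / b) ^ (M * (r * k) - k - (k + KZ)))) := by
          gcongr
      _ = (((CS : ℝ) + 1) ^ (r * k) * ((CB : ℝ) + 1) ^ (k + KZ + 1) * ((CT : ℝ) + 1) ^ (k + KZ) *
          ((C' : ℝ) + 1) ^ (r * k + (M * (r * k) - k) + 1)) *
            (|(a : ℝ)| / b) ^ (M * (r * k) - k - (k + KZ)) := by ring
      _ ≤ _ := mul_le_mul_of_nonneg_right h8 (by positivity)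
  have hGs : (1 : ℝ) ≤ G ^ s := one_le_pow₀ (by
    have := pow_bounds 2 ((CS : ℝ) + 1) ((CB : ℝ) + 1) ((CT : ℝ) + 1) ((C' : ℝ) + 1) g1 g2 g3 g4 g5
      1 0 0 0 0 0 (by omega) (by omega) (by omega) (by omega) (by omega)
    simpa using this)
  have hfin := key_lin Z hZdet h hh b hb (r * k + CB * (k + KZ))
    (fun i c => by
      rw [hZval]
      exact eval_int _ _ (hzz (kk (e i)) (hkk' _) c).2.1 a b hb.ne')
    (fun c => pval (u c) (ξ : ℂ)) hsum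
    (G ^ s * (|(a : ℝ)| / b) ^ (M * (r * k) - k - (k + KZ))) ((1 + H0) * G ^ s)
    (by positivity) (by positivity) hrow
    (fun i c => (hZb i c).trans (by nlinarith [pow_nonneg hG0 s]))
    (fun c => (hhb c).trans (by nlinarith)) c0
  exact hfin

/-- the final comparison -/
theorem final_bound (m CB KZ G k : ℕ) (a b : ℤ) (H0 : ℝ) (hG : 1 ≤ G) (ha : a ≠ 0) (hb : 0 < b)
    (hH : 0 ≤ H0) (hk : KZ ≤ k)
    (hbig : 2 * (G : ℤ) ^ ((m + 1) * ((m + 2) * (m * CB + 4) + CB + 1)) *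
      |a| ^ ((m + 1) * (m * CB + 4)) ≤ b) :
    ((b : ℝ) ^ ((m * CB + 4) * k + CB * (k + KZ))) ^ m *
      (((m + 1).factorial : ℝ) *
        (((G : ℝ) ^ ((m + 2) * ((m * CB + 4) * k) + (CB + 1) * (k + KZ) + 2) *
          (|(a : ℝ)| / b) ^ ((m + 1) * ((m * CB + 4) * k) - k - (k + KZ))) *
        ((1 + H0) * (G : ℝ) ^ ((m + 2) * ((m * CB + 4) * k) + (CB + 1) * (k + KZ) + 2)) ^ m)) ≤
    (((m + 1).factorial : ℝ) * (1 + H0) ^ m * ((G : ℝ) ^ ((CB + 1) * KZ + 2)) ^ (m + 1) *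
      (b : ℝ) ^ (m * CB * KZ + KZ)) * (1 / 2) ^ k := by
  have hbr : (0 : ℝ) < b := by exact_mod_cast hb
  have hGr : (1 : ℝ) ≤ G := by exact_mod_cast hG
  have har : (1 : ℝ) ≤ |(a : ℝ)| := by
    have := Int.one_le_abs ha
    rw [← Int.cast_abs]
    exact_mod_cast this
  have hb1 : (1 : ℝ) ≤ b := by exact_mod_cast hb
  set r := m * CB + 4 with hr
  set s1 := (m + 2) * r + CB + 1 with hs1
  set w := (m + 1) * (r * k) - k - (k + KZ) with hw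
  have hrk : 4 * k ≤ r * k := Nat.mul_le_mul_right k (by omega)
  have hMr : (m + 1) * (r * k) = m * (r * k) + r * k := by ring
  have hwe : w + (2 * k + KZ) = (m + 1) * (r * k) := by rw [hw, hMr]; omega
  have hexp : (r * k + CB * (k + KZ)) * m + 2 * k = w + (m * CB * KZ + KZ) := by
    have h1 : (r * k + CB * (k + KZ)) * m + 2 * k + (2 * k + KZ) =
        (m + 1) * (r * k) + (m * CB * KZ + KZ) := by
      rw [hr]; ring
    omega
  have hse : (m + 2) * (r * k) + (CB + 1) * (k + KZ) + 2 = s1 * k + ((CB + 1) * KZ + 2) := by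
    rw [hs1]; ring
  rw [hse]
  have e1 : ((b : ℝ) ^ (r * k + CB * (k + KZ))) ^ m * (|(a : ℝ)| / b) ^ w =
      (b : ℝ) ^ (m * CB * KZ + KZ) * |(a : ℝ)| ^ w / (b : ℝ) ^ (2 * k) := by
    rw [div_pow, ← pow_mul, mul_div_assoc', div_eq_div_iff (by positivity) (by positivity)]
    calc (b : ℝ) ^ ((r * k + CB * (k + KZ)) * m) * |(a : ℝ)| ^ w * (b : ℝ) ^ (2 * k)
        = (b : ℝ) ^ ((r * k + CB * (k + KZ)) * m + 2 * k) * |(a : ℝ)| ^ w := by
          rw [pow_add]; ring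
      _ = _ := by rw [hexp, pow_add]; ring
  have e2 : |(a : ℝ)| ^ w ≤ (|(a : ℝ)| ^ ((m + 1) * r)) ^ k := by
    rw [← pow_mul]
    refine pow_le_pow_right₀ har ?_
    have : (m + 1) * r * k = (m + 1) * (r * k) := by ring
    omega
  have e3 : (G : ℝ) ^ (s1 * k + ((CB + 1) * KZ + 2)) =
      ((G : ℝ) ^ s1) ^ k * (G : ℝ) ^ ((CB + 1) * KZ + 2) := by rw [pow_add, pow_mul]
  have e4 : (G : ℝ) ^ ((m + 1) * s1) * |(a : ℝ)| ^ ((m + 1) * r) / (b : ℝ) ^ 2 ≤ 1 / 2 := by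
    rw [div_le_div_iff₀ (by positivity) (by norm_num)]
    have h1 : 2 * (G : ℝ) ^ ((m + 1) * s1) * |(a : ℝ)| ^ ((m + 1) * r) ≤ b := by
      rw [← Int.cast_abs]
      exact_mod_cast hbig
    nlinarith [h1, hb1]
  calc ((b : ℝ) ^ (r * k + CB * (k + KZ))) ^ m *
      (((m + 1).factorial : ℝ) *
        (((G : ℝ) ^ (s1 * k + ((CB + 1) * KZ + 2)) * (|(a : ℝ)| / b) ^ w) *
        ((1 + H0) * (G : ℝ) ^ (s1 * k + ((CB + 1) * KZ + 2))) ^ m))
      = ((m + 1).factorial : ℝ) * (1 + H0) ^ m *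
          ((G : ℝ) ^ (s1 * k + ((CB + 1) * KZ + 2))) ^ (m + 1) *
          (((b : ℝ) ^ (r * k + CB * (k + KZ))) ^ m * (|(a : ℝ)| / b) ^ w) := by
        rw [mul_pow, pow_succ ((G : ℝ) ^ (s1 * k + ((CB + 1) * KZ + 2)))]; ring
    _ = (((m + 1).factorial : ℝ) * (1 + H0) ^ m * ((G : ℝ) ^ ((CB + 1) * KZ + 2)) ^ (m + 1) *
          (b : ℝ) ^ (m * CB * KZ + KZ)) *
          ((((G : ℝ) ^ s1) ^ k) ^ (m + 1) * |(a : ℝ)| ^ w / (b : ℝ) ^ (2 * k)) := by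
        rw [e1, e3, mul_pow]; ring
    _ ≤ (((m + 1).factorial : ℝ) * (1 + H0) ^ m * ((G : ℝ) ^ ((CB + 1) * KZ + 2)) ^ (m + 1) *
          (b : ℝ) ^ (m * CB * KZ + KZ)) *
          ((((G : ℝ) ^ s1) ^ k) ^ (m + 1) * (|(a : ℝ)| ^ ((m + 1) * r)) ^ k /
            (b : ℝ) ^ (2 * k)) := by
        gcongr
    _ = (((m + 1).factorial : ℝ) * (1 + H0) ^ m * ((G : ℝ) ^ ((CB + 1) * KZ + 2)) ^ (m + 1) *
          (b : ℝ) ^ (m * CB * KZ + KZ)) *
          ((G : ℝ) ^ ((m + 1) * s1) * |(a : ℝ)| ^ ((m + 1) * r) / (b : ℝ) ^ 2) ^ k := by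
        have h1 : (((G : ℝ) ^ s1) ^ k) ^ (m + 1) = ((G : ℝ) ^ ((m + 1) * s1)) ^ k := by
          rw [← pow_mul, ← pow_mul, ← pow_mul]; congr 1; ring
        rw [h1, div_pow, mul_pow, pow_mul (b : ℝ) 2 k]
    _ ≤ _ := by
        gcongr

end EstM

open EstM in
theorem specEst (hBnd : SpecBnd) (hSieg : SpecSieg) (hShid : SpecShid) (hZero : SpecZero)
    (hSolv : SpecSolv) (hEval : SpecEval) (hRem : SpecRem) : SpecEst := by
  intro μ _ _ _ T B u hT hgal hsol hG hlin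
  obtain ⟨c0⟩ := ‹Nonempty μ›
  obtain ⟨C1, KZ, k0, CB, G, hG1, hstep⟩ := step hBnd hSieg hShid hZero hSolv hEval hRem T B u hT
    hgal hsol hG hlin c0
  obtain ⟨m, hm⟩ : ∃ m, Fintype.card μ = m + 1 :=
    ⟨Fintype.card μ - 1, by have : 0 < Fintype.card μ := Fintype.card_pos_iff.mpr ⟨c0⟩; omega⟩
  rw [hm, Nat.add_sub_cancel] at hstep
  set GG := G ^ ((m + 1) * ((m + 2) * (m * CB + 4) + CB + 1)) with hGG
  refine ⟨C1 + 2 * GG + (m + 1) * (m * CB + 4) + 1, ?_⟩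
  intro a b ha hab h hsum
  have ha1 : (1 : ℤ) ≤ |a| := Int.one_le_abs ha
  set C := C1 + 2 * GG + (m + 1) * (m * CB + 4) + 1 with hC
  have hpow : ∀ n, n ≤ C → |a| ^ n ≤ |a| ^ C := fun n hn => pow_le_pow_right₀ ha1 hn
  have hCb : ∀ K n : ℕ, K ≤ C → n ≤ C → (K : ℤ) * |a| ^ n ≤ b := by
    intro K n hK hn
    refine le_trans (mul_le_mul (by exact_mod_cast hK) (hpow n hn) (by positivity) (by positivity))
      hab
  have hb : 0 < b := by
    have := hCb 1 1 (by omega) (by omega)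
    push_cast at this
    rw [pow_one, one_mul] at this
    omega
  have hab1 : (C1 : ℤ) * |a| ≤ b := by simpa using hCb C1 1 (by omega) (by omega)
  have hbig : 2 * (G : ℤ) ^ ((m + 1) * ((m + 2) * (m * CB + 4) + CB + 1)) *
      |a| ^ ((m + 1) * (m * CB + 4)) ≤ b := by
    have := hCb (2 * GG) ((m + 1) * (m * CB + 4)) (by omega) (by omega)
    rw [hGG] at this
    push_cast at this
    exact this
  obtain ⟨hne, hst⟩ := hstep a b ha hb hab1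
  have hcast : (a : ℂ) / b = ((((a : ℚ) / b : ℚ)) : ℂ) := by push_cast; rfl
  rw [hcast] at hsum
  by_contra hh
  obtain ⟨N, hN, hint⟩ := exists_clear h
  choose h' hh' using hint
  have hNq : (N : ℚ) ≠ 0 := by exact_mod_cast hN.ne'
  have hne' : h' ≠ 0 := by
    intro h0
    apply hh
    funext c
    have h1 := hh' c
    rw [h0] at h1
    simp only [Pi.zero_apply, Int.cast_zero] at h1
    rcases mul_eq_zero.mp h1 with h2 | h2
    · exact absurd h2 hNq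
    · exact h2
  have hsum' : ∑ c, (h' c : ℂ) * pval (u c) ((((a : ℚ) / b : ℚ)) : ℂ) = 0 := by
    have h1 : ∀ c, (h' c : ℂ) = (N : ℂ) * (h c : ℂ) := by
      intro c
      have h2 := congrArg (Rat.cast : ℚ → ℂ) (hh' c)
      push_cast at h2
      exact h2.symm
    calc ∑ c, (h' c : ℂ) * pval (u c) ((((a : ℚ) / b : ℚ)) : ℂ)
        = (N : ℂ) * ∑ c, (h c : ℂ) * pval (u c) ((((a : ℚ) / b : ℚ)) : ℂ) := by
          rw [Finset.mul_sum]
          exact Finset.sum_congr rfl fun c _ => by rw [h1]; ring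
      _ = 0 := by rw [hsum, mul_zero]
  set H0 : ℝ := ∑ c, ‖(h' c : ℂ)‖ with hH0
  have hH0n : 0 ≤ H0 := Finset.sum_nonneg fun _ _ => norm_nonneg _
  have hH0c : ∀ c, ‖(h' c : ℂ)‖ ≤ H0 := fun c =>
    Finset.single_le_sum (f := fun c => ‖(h' c : ℂ)‖) (fun _ _ => norm_nonneg _)
      (Finset.mem_univ c)
  set K2 : ℝ := (((m + 1).factorial : ℝ) * (1 + H0) ^ m * ((G : ℝ) ^ ((CB + 1) * KZ + 2)) ^ (m + 1) *
      (b : ℝ) ^ (m * CB * KZ + KZ)) with hK2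
  have hbr : (0 : ℝ) < b := by exact_mod_cast hb
  have hK2n : 0 ≤ K2 := by positivity
  have hall : ∀ k, k0 + KZ ≤ k → ‖pval (u c0) ((((a : ℚ) / b : ℚ)) : ℂ)‖ ≤ K2 * (1 / 2) ^ k := by
    intro k hk
    exact (hst h' H0 hH0n hH0c hne' hsum' k (by omega)).trans
      (final_bound m CB KZ G k a b H0 hG1 ha hb hH0n (by omega) hbig)
  have hpos : 0 < ‖pval (u c0) ((((a : ℚ) / b : ℚ)) : ℂ)‖ := norm_pos_iff.mpr hne
  obtain ⟨n, hn⟩ := exists_pow_lt_of_lt_one (div_pos hpos (by positivity : 0 < K2 + 1))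
    (by norm_num : (1 / 2 : ℝ) < 1)
  have h1 := hall (n + (k0 + KZ)) (by omega)
  have h2 : (1 / 2 : ℝ) ^ (n + (k0 + KZ)) ≤ (1 / 2) ^ n :=
    pow_le_pow_of_le_one (by norm_num) (by norm_num) (by omega)
  rw [lt_div_iff₀ (by positivity)] at hn
  have h3 : K2 * (1 / 2) ^ (n + (k0 + KZ)) ≤ K2 * (1 / 2 : ℝ) ^ n :=
    mul_le_mul_of_nonneg_left h2 hK2n
  have h4 : (0 : ℝ) < (1 / 2) ^ n := by positivity
  nlinarith

end Pool.Agent.Lib.MPf11a48.GF
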