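import Pool.Agent.Lib.MP_f11a48_ag.GF.Sub
import Pool.Agent.Lib.MP_f11a48_ag.K3.Curve
import Pool.Agent.Lib.MP_f11a48_ag.helper92.Exp

/-!
# Module GRP: from the Lie algebra to the torsor
-/

set_option autoImplicit false
set_option linter.unusedSectionVars false

namespace Pool.Agent.Lib.MPf11a48.GF.GrpM

open Matrix
open Pool.Agent.Lib.MPf11a48.Tors
open Pool.Agent.Lib.MPf11a48.CM hiding OmegaM
open Pool.Agent.Lib.MPf11a48.GL2
open Pool.Agent.Lib.MPf11a48.K3 (cx)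

variable {ι : Type} [Fintype ι] [DecidableEq ι]

/-- `u wᵀ ψ` -/
def rk (ψ : Matrix ι ι ℂ) (u w : ι → ℂ) : Matrix ι ι ℂ := vecMulVec u (w ᵥ* ψ)

omit [DecidableEq ι] in
theorem rk_mul (ψ : Matrix ι ι ℂ) (u w a b : ι → ℂ) :
    rk ψ u w * rk ψ a b = (w ⬝ᵥ (ψ *ᵥ a)) • rk ψ u b := by
  rw [rk, rk, rk, Matrix.vecMulVec_mul_vecMulVec, Matrix.dotProduct_mulVec]
  refine Matrix.ext fun i j => ?_
  simp only [Matrix.vecMulVec_apply, Matrix.smul_apply, smul_eq_mul, Pi.smul_apply]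
  ring

theorem alt (ψ : Matrix ι ι ℂ) (hψ : ψᵀ = -ψ) (u w : ι → ℂ) :
    w ⬝ᵥ (ψ *ᵥ u) = -(u ⬝ᵥ (ψ *ᵥ w)) := by
  rw [Matrix.dotProduct_mulVec, dotProduct_comm, ← Matrix.mulVec_transpose, hψ,
    Matrix.neg_mulVec, dotProduct_neg]

theorem alt_self (ψ : Matrix ι ι ℂ) (hψ : ψᵀ = -ψ) (u : ι → ℂ) : u ⬝ᵥ (ψ *ᵥ u) = 0 := by
  have h := alt ψ hψ u u
  have h2 : (2 : ℂ) * (u ⬝ᵥ (ψ *ᵥ u)) = 0 := by linear_combination h
  exact (mul_eq_zero.1 h2).resolve_left two_ne_zero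

/-- `rk u w + rk w u` is an infinitesimal isometry -/
theorem sp_mem (ψ : Matrix ι ι ℂ) (hψ : ψᵀ = -ψ) (u w : ι → ℂ) :
    (rk ψ u w + rk ψ w u)ᵀ * ψ + ψ * (rk ψ u w + rk ψ w u) = 0 := by
  have h1 : ∀ a b : ι → ℂ, (rk ψ a b)ᵀ * ψ = -(ψ * rk ψ b a) := by
    intro a b
    rw [rk, rk, Matrix.transpose_vecMulVec, Matrix.vecMulVec_mul, Matrix.mul_vecMulVec]
    have : b ᵥ* ψ = -(ψ *ᵥ b) := by
      rw [← Matrix.mulVec_transpose, hψ, Matrix.neg_mulVec]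
    rw [this, Matrix.neg_vecMulVec]
  rw [Matrix.transpose_add, Matrix.add_mul, Matrix.mul_add, h1, h1]
  abel

theorem exists_dual (ψ : Matrix ι ι ℂ) (hψ : ψ.det ≠ 0) {u : ι → ℂ} (hu : u ≠ 0) :
    ∃ w : ι → ℂ, u ⬝ᵥ (ψ *ᵥ w) = 1 := by
  obtain ⟨i, hi⟩ := Function.ne_iff.1 hu
  have h0 : u i ≠ 0 := hi
  refine ⟨ψ⁻¹ *ᵥ ((u i)⁻¹ • Pi.single i 1), ?_⟩
  rw [Matrix.mulVec_mulVec, Matrix.mul_nonsing_inv _ (isUnit_iff_ne_zero.2 hψ), Matrix.one_mulVec,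
    dotProduct_smul, dotProduct_single, mul_one, smul_eq_mul, inv_mul_cancel₀ h0]

theorem bracket (X Y : Matrix ι ι ℂ) (s t : ℂ) :
    (X + s • (1 : Matrix ι ι ℂ)) * (Y + t • 1) - (Y + t • 1) * (X + s • 1) = X * Y - Y * X := by
  simp only [Matrix.add_mul, Matrix.mul_add, Matrix.smul_mul, Matrix.mul_smul,
    Matrix.one_mul, Matrix.mul_one]
  rw [smul_add, smul_add, smul_smul, smul_smul, mul_comm s t]
  abel

/-- all `rk u u` are in the Lie algebra -/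
theorem rk_mem (T : Set (GL ι ℂ)) (ψ : Matrix ι ι ℚ) (hψ : (cx ψ)ᵀ = -cx ψ)
    (hd : (cx ψ).det ≠ 0)
    (h : ∀ Y : Matrix ι ι ℂ, Yᵀ * cx ψ + cx ψ * Y = 0 → Y ∈ spl T ψ) (u : ι → ℂ) :
    rk (cx ψ) u u ∈ lie T := by
  by_cases hu : u = 0
  · have : rk (cx ψ) u u = 0 := by
      rw [hu, rk, Matrix.zero_vecMulVec]
    rw [this]
    exact (lie T).zero_mem
  obtain ⟨w, hw⟩ := exists_dual (cx ψ) hd hu
  obtain ⟨_, s, hs⟩ := h _ (sp_mem (cx ψ) hψ u w)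
  obtain ⟨_, t, ht⟩ := h _ (sp_mem (cx ψ) hψ u u)
  have h1 := lie_br hs ht
  rw [bracket] at h1
  have e1 : (rk (cx ψ) u w + rk (cx ψ) w u) * (rk (cx ψ) u u + rk (cx ψ) u u) -
      (rk (cx ψ) u u + rk (cx ψ) u u) * (rk (cx ψ) u w + rk (cx ψ) w u) =
      (-4 : ℂ) • rk (cx ψ) u u := by
    simp only [Matrix.add_mul, Matrix.mul_add, rk_mul, alt_self (cx ψ) hψ u, hw,
      alt (cx ψ) hψ u w, zero_smul, add_zero, zero_add, one_smul, neg_smul]
    have : (4 : ℂ) • rk (cx ψ) u u = rk (cx ψ) u u + rk (cx ψ) u u + (rk (cx ψ) u u + rk (cx ψ) u u) := by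
      rw [← two_smul ℂ (rk (cx ψ) u u), ← two_smul ℂ ((2 : ℂ) • rk (cx ψ) u u), smul_smul]
      norm_num
    rw [this]
    abel
  rw [e1] at h1
  have h2 := (lie T).smul_mem (-4 : ℂ)⁻¹ h1
  rw [smul_smul, inv_mul_cancel₀ (by norm_num), one_smul] at h2
  exact h2

omit [DecidableEq ι] in
theorem rk_add_add (ψ : Matrix ι ι ℂ) (u w : ι → ℂ) :
    rk ψ u w + rk ψ w u = rk ψ (u + w) (u + w) - rk ψ u u - rk ψ w w := by
  simp only [rk, Matrix.add_vecMul, Matrix.add_vecMulVec, Matrix.vecMulVec_add]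
  abel

/-- every infinitesimal isometry is in the span of the `rk u u` -/
theorem sp_span (ψ : Matrix ι ι ℂ) (hψ : ψᵀ = -ψ) (hd : ψ.det ≠ 0) (L : Submodule ℂ (Matrix ι ι ℂ))
    (hL : ∀ u, rk ψ u u ∈ L) (X : Matrix ι ι ℂ) (hX : Xᵀ * ψ + ψ * X = 0) : X ∈ L := by
  have hu := isUnit_iff_ne_zero.2 hd
  set N := X * ψ⁻¹ with hN
  have hNX : N * ψ = X := by
    rw [hN, Matrix.mul_assoc, Matrix.nonsing_inv_mul _ hu, Matrix.mul_one]
  have hsym : Nᵀ = N := by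
    rw [hN, Matrix.transpose_mul, Matrix.transpose_nonsing_inv, hψ]
    have e1 : Xᵀ = -(ψ * X * ψ⁻¹) := by
      have e2 : Xᵀ * ψ = -(ψ * X) := eq_neg_of_add_eq_zero_left hX
      calc Xᵀ = Xᵀ * ψ * ψ⁻¹ := by
            rw [Matrix.mul_assoc, Matrix.mul_nonsing_inv _ hu, Matrix.mul_one]
        _ = _ := by rw [e2, Matrix.neg_mul]
    have e3 : (-ψ)⁻¹ = -ψ⁻¹ := by
      apply Matrix.inv_eq_left_inv
      rw [Matrix.neg_mul, Matrix.mul_neg, neg_neg, Matrix.nonsing_inv_mul _ hu]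
    rw [e3, e1, Matrix.neg_mul, Matrix.mul_neg, neg_neg, ← Matrix.mul_assoc, ← Matrix.mul_assoc,
      Matrix.nonsing_inv_mul _ hu, Matrix.one_mul]
  have h2 : (2 : ℂ) • X = ∑ i, ∑ j, N i j •
      (rk ψ (Pi.single i 1) (Pi.single j 1) + rk ψ (Pi.single j 1) (Pi.single i 1)) := by
    have e1 : ∀ M : Matrix ι ι ℂ, M * ψ = ∑ i, ∑ j, M i j •
        rk ψ (Pi.single i 1) (Pi.single j 1) := by
      intro M
      conv_lhs => rw [Matrix.matrix_eq_sum_single M]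
      rw [Finset.sum_mul]
      refine Finset.sum_congr rfl fun i _ => ?_
      rw [Finset.sum_mul]
      refine Finset.sum_congr rfl fun j _ => ?_
      refine Matrix.ext fun a b => ?_
      simp only [rk, Matrix.smul_apply, Matrix.vecMulVec_apply, smul_eq_mul,
        Matrix.single_one_vecMul, Matrix.row_apply]
      by_cases ha : i = a
      · subst ha
        rw [Matrix.single_mul_apply_same, Pi.single_eq_same, one_mul]
      · rw [Matrix.single_mul_apply_of_ne _ _ _ _ _ (Ne.symm ha), Pi.single_eq_of_ne (Ne.symm ha),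
          zero_mul, mul_zero]
    have e2 : ∑ i, ∑ j, N i j • rk ψ (Pi.single j 1) (Pi.single i 1) = X := by
      rw [Finset.sum_comm]
      have := e1 Nᵀ
      rw [hsym, hNX] at this
      rw [this]
      refine Finset.sum_congr rfl fun i _ => Finset.sum_congr rfl fun j _ => ?_
      rw [← hsym, Matrix.transpose_apply]
      rw [hsym]
    have e3 := e1 N
    rw [hNX] at e3
    simp only [smul_add, Finset.sum_add_distrib]
    rw [e2, ← e3, two_smul]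
  have h3 : (2 : ℂ) • X ∈ L := by
    rw [h2]
    refine L.sum_mem fun i _ => L.sum_mem fun j _ => L.smul_mem _ ?_
    rw [rk_add_add]
    exact L.sub_mem (L.sub_mem (hL _) (hL _)) (hL _)
  have h4 := L.smul_mem (2 : ℂ)⁻¹ h3
  rw [smul_smul, inv_mul_cancel₀ two_ne_zero, one_smul] at h4
  exact h4

/-- the group of all `g` with `g T = T` -/
def stab (T : Set (GL ι ℂ)) : Subgroup (GL ι ℂ) where
  carrier := {g | ∀ f, f ∈ T ↔ g * f ∈ T}
  mul_mem' := by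
    intro a b ha hb f
    rw [hb f, ha (b * f), mul_assoc]
  one_mem' := by
    intro f
    rw [one_mul]
  inv_mem' := by
    intro a ha f
    have := ha (a⁻¹ * f)
    rw [mul_inv_cancel_left] at this
    exact this.symm

theorem transv_mem {T : Set (GL ι ℂ)} (hG : Geo T) (ψ : Matrix ι ι ℂ) (hψ : ψᵀ = -ψ)
    (u : ι → ℂ) (hu : rk ψ u u ∈ lie T) (s : ℂ) :
    ∃ g ∈ stab T, g.1 = 1 + s • vecMulVec u (u ᵥ* ψ) := by
  have hsq : ∀ t : ℂ, (t • rk ψ u u) * (t • rk ψ u u) = 0 := by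
    intro t
    rw [Matrix.smul_mul, Matrix.mul_smul, rk_mul, alt_self ψ hψ, zero_smul, smul_zero, smul_zero]
  have hinv : ∀ t : ℂ, (1 + t • rk ψ u u) * (1 + (-t) • rk ψ u u) = 1 := by
    intro t
    have := hsq t
    rw [Matrix.add_mul, Matrix.one_mul, Matrix.mul_add, Matrix.mul_one, neg_smul, Matrix.mul_neg,
      this]
    abel
  let g : GL ι ℂ := ⟨1 + s • rk ψ u u, 1 + (-s) • rk ψ u u, hinv s, by
    have := hinv (-s)
    rwa [neg_neg] at this⟩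
  refine ⟨g, ?_, rfl⟩
  intro f
  constructor
  · intro hf
    exact hG.one_add_mul_mem (hsq s) ((lie T).smul_mem s hu) hf rfl
  · intro hf
    have := hG.one_add_mul_mem (g := g⁻¹) (hsq (-s)) ((lie T).smul_mem (-s) hu) hf rfl
    rwa [inv_mul_cancel_left] at this

/-- scalar multiples -/
theorem scal_mem {T : Set (GL ι ℂ)} (hG : Geo T) (h1 : (1 : Matrix ι ι ℂ) ∈ lie T) {c : GL ι ℂ}
    (hc : c ∈ T) (z : ℂ) (hz : z ≠ 0) : ∃ g : GL ι ℂ, g ∈ T ∧ g.1 = z • c.1 := by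
  let g : ℂ → GL ι ℂ := fun s => ⟨Complex.exp s • 1, Complex.exp (-s) • 1, by
    rw [Matrix.smul_mul, Matrix.one_mul, smul_smul, ← Complex.exp_add, add_neg_cancel,
      Complex.exp_zero, one_smul], by
    rw [Matrix.smul_mul, Matrix.one_mul, smul_smul, ← Complex.exp_add, neg_add_cancel,
      Complex.exp_zero, one_smul]⟩
  have hg0 : g 0 = 1 := by
    ext i j
    change (Complex.exp 0 • (1 : Matrix ι ι ℂ)) i j = (1 : Matrix ι ι ℂ) i j
    rw [Complex.exp_zero, one_smul]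
  have hg : ∀ s i j, HasDerivAt (fun s => (g s).1 i j) (((1 : Matrix ι ι ℂ) * (g s).1) i j) s := by
    intro s i j
    rw [Matrix.one_mul]
    change HasDerivAt (fun s => Complex.exp s * (1 : Matrix ι ι ℂ) i j)
      (Complex.exp s * (1 : Matrix ι ι ℂ) i j) s
    exact (Complex.hasDerivAt_exp s).mul_const _
  refine ⟨g (Complex.log z) * c, K3.specCurve ι T hG 1 h1 g hg0 hg c hc _, ?_⟩
  change (Complex.exp (Complex.log z) • (1 : Matrix ι ι ℂ)) * c.1 = z • c.1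
  rw [Complex.exp_log hz, Matrix.smul_mul, Matrix.one_mul]

end Pool.Agent.Lib.MPf11a48.GF.GrpM

namespace Pool.Agent.Lib.MPf11a48.GF

open Matrix
open Pool.Agent.Lib.MPf11a48.Tors
open Pool.Agent.Lib.MPf11a48.CM hiding OmegaM
open Pool.Agent.Lib.MPf11a48.GL2
open Pool.Agent.Lib.MPf11a48.K3 (cx)

theorem cx_det {ι : Type} [Fintype ι] [DecidableEq ι] (ψ : Matrix ι ι ℚ) :
    (cx ψ).det = ((ψ.det : ℚ) : ℂ) := by
  have := RingHom.map_det (algebraMap ℚ ℂ) ψ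
  rw [eq_ratCast] at this
  rw [this]
  rfl

theorem cx_skew {ι : Type} {ψ : Matrix ι ι ℚ} (h : ψᵀ = -ψ) : (cx ψ)ᵀ = -cx ψ := by
  refine Matrix.ext fun i j => ?_
  have h1 := congrFun (congrFun h i) j
  change ψ j i = -ψ i j at h1
  change ((ψ j i : ℚ) : ℂ) = -((ψ i j : ℚ) : ℂ)
  rw [h1, Rat.cast_neg]

theorem specGrp (hTrv : SpecTrv) : SpecGrp := by
  intro ι _ _ _ T c ψ hT hc hskew hdet hsp hX f z hf
  have hG := SubM.geo hT
  have hψd : (cx ψ).det ≠ 0 := by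
    rw [cx_det]
    exact_mod_cast hdet
  have hψ := cx_skew hskew
  have hrk := GrpM.rk_mem T ψ hψ hψd hsp
  have hall := GrpM.sp_span (cx ψ) hψ hψd (lie T) hrk
  have hone : (1 : Matrix ι ι ℂ) ∈ lie T := by
    obtain ⟨X, hXT, m, hm, hXm⟩ := hX
    have h1 : X - (m / 2) • (1 : Matrix ι ι ℂ) ∈ lie T := by
      apply hall
      rw [Matrix.transpose_sub, Matrix.transpose_smul, Matrix.transpose_one, Matrix.sub_mul,
        Matrix.mul_sub, Matrix.smul_mul, Matrix.mul_smul, Matrix.one_mul, Matrix.mul_one]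
      have : Xᵀ * cx ψ - (m / 2) • cx ψ + (cx ψ * X - (m / 2) • cx ψ) =
          (Xᵀ * cx ψ + cx ψ * X) - ((m / 2) • cx ψ + (m / 2) • cx ψ) := by abel
      rw [this, hXm, ← add_smul, add_halves, sub_self]
    have h2 := (lie T).sub_mem hXT h1
    rw [sub_sub_cancel] at h2
    have h3 := (lie T).smul_mem (m / 2)⁻¹ h2
    rw [smul_smul, inv_mul_cancel₀ (div_ne_zero hm two_ne_zero), one_smul] at h3
    exact h3
  -- a square root of `z`
  obtain ⟨y, hy⟩ := IsAlgClosed.exists_pow_nat_eq (z : ℂ) (n := 2) two_pos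
  have hy0 : y ≠ 0 := by
    rintro rfl
    rw [zero_pow two_ne_zero] at hy
    exact z.ne_zero hy.symm
  obtain ⟨g, hgT, hg⟩ := GrpM.scal_mem hG hone hc y hy0
  have hB : g.1ᵀ * cx ψ * g.1 = (z : ℂ) • (c.1ᵀ * cx ψ * c.1) := by
    rw [hg, Matrix.transpose_smul, Matrix.smul_mul, Matrix.smul_mul, Matrix.mul_smul, smul_smul,
      ← hy, sq]
  have hiso : (f * g⁻¹).1ᵀ * cx ψ * (f * g⁻¹).1 = cx ψ := by
    have h4 : g⁻¹.1ᵀ * g.1ᵀ = 1 := by
      rw [← Matrix.transpose_mul, glinv, Matrix.transpose_one]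
    calc (f * g⁻¹).1ᵀ * cx ψ * (f * g⁻¹).1 = g⁻¹.1ᵀ * (f.1ᵀ * cx ψ * f.1) * g⁻¹.1 := by
          rw [glmul, Matrix.transpose_mul]
          simp only [Matrix.mul_assoc]
      _ = g⁻¹.1ᵀ * (g.1ᵀ * cx ψ * g.1) * g⁻¹.1 := by rw [hf, hB]
      _ = (g⁻¹.1ᵀ * g.1ᵀ) * cx ψ * (g.1 * g⁻¹.1) := by simp only [Matrix.mul_assoc]
      _ = cx ψ := by rw [h4, glinv, Matrix.one_mul, Matrix.mul_one]
  have h5 := hTrv ι (cx ψ) (GrpM.stab T) hψ hψd
    (fun u s => GrpM.transv_mem hG (cx ψ) hψ u (hrk u) s) (f * g⁻¹) hiso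
  have h6 := (h5 g).1 hgT
  rwa [inv_mul_cancel_right] at h6

end Pool.Agent.Lib.MPf11a48.GF
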