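import Pool.Agent.Lib.MP_f11a48_ag.GF.Spec

/-!
# BND: the vectors `dd P k`: integrality, degrees, sizes
-/

set_option autoImplicit false

namespace Pool.Agent.Lib.MPf11a48.GF

open Polynomial Matrix

namespace BndM

/-! ### the norm -/

lemma nrm_range (p : ℚ[X]) (n : ℕ) (h : p.natDegree < n) :
    nrm p = ∑ i ∈ Finset.range n, |p.coeff i| :=
  Polynomial.sum_over_range' p (fun _ => abs_zero) n h

lemma nrm_nonneg (p : ℚ[X]) : 0 ≤ nrm p := by
  rw [nrm_range p _ (Nat.lt_succ_self _)]
  exact Finset.sum_nonneg (fun _ _ => abs_nonneg _)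

lemma coeff_le (p : ℚ[X]) (i : ℕ) : |p.coeff i| ≤ nrm p := by
  rw [nrm_range p (max (p.natDegree + 1) (i + 1)) (by omega)]
  exact Finset.single_le_sum (f := fun i => |p.coeff i|) (fun _ _ => abs_nonneg _)
    (Finset.mem_range.2 (by omega))

lemma nrm_add (p q : ℚ[X]) : nrm (p + q) ≤ nrm p + nrm q := by
  set n := max p.natDegree q.natDegree + 1
  have h1 : (p + q).natDegree ≤ max p.natDegree q.natDegree := natDegree_add_le p q
  rw [nrm_range p n (by omega), nrm_range q n (by omega), nrm_range (p + q) n (by omega),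
    ← Finset.sum_add_distrib]
  apply Finset.sum_le_sum
  intro i _
  rw [coeff_add]
  exact abs_add_le _ _

lemma nrm_zero : nrm 0 = 0 := by
  rw [nrm_range 0 1 (by simp)]
  simp

lemma nrm_neg (p : ℚ[X]) : nrm (-p) = nrm p := by
  rw [nrm_range p _ (Nat.lt_succ_self _), nrm_range (-p) (p.natDegree + 1) (by simp)]
  simp

lemma nrm_sub (p q : ℚ[X]) : nrm (p - q) ≤ nrm p + nrm q := by
  rw [sub_eq_add_neg, ← nrm_neg q]
  exact nrm_add _ _

lemma nrm_sum {ι : Type*} (s : Finset ι) (f : ι → ℚ[X]) : nrm (∑ i ∈ s, f i) ≤ ∑ i ∈ s, nrm (f i) := by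
  classical
  induction s using Finset.induction_on with
  | empty => simp [nrm_zero]
  | insert i s hi ih =>
    rw [Finset.sum_insert hi, Finset.sum_insert hi]
    exact (nrm_add _ _).trans (by linarith)

lemma nrm_C_mul (a : ℚ) (p : ℚ[X]) : nrm (C a * p) = |a| * nrm p := by
  rw [nrm_range p _ (Nat.lt_succ_self _), nrm_range (C a * p) (p.natDegree + 1)
    (Nat.lt_succ_of_le (natDegree_C_mul_le _ _)), Finset.mul_sum]
  apply Finset.sum_congr rfl
  intro i _
  rw [coeff_C_mul, abs_mul]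

lemma nrm_X_mul (p : ℚ[X]) : nrm (X * p) = nrm p := by
  have h1 : (X * p).natDegree ≤ p.natDegree + 1 := by
    refine natDegree_mul_le.trans ?_
    have := natDegree_X_le (R := ℚ)
    omega
  rw [nrm_range p _ (Nat.lt_succ_self _), nrm_range (X * p) (p.natDegree + 1 + 1) (by omega),
    Finset.sum_range_succ']
  simp [coeff_X_mul]

lemma nrm_X_pow_mul (n : ℕ) (p : ℚ[X]) : nrm (X ^ n * p) = nrm p := by
  induction n with
  | zero => simp
  | succ n ih => rw [pow_succ', mul_assoc, nrm_X_mul, ih]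

lemma nrm_mul (p q : ℚ[X]) : nrm (p * q) ≤ nrm p * nrm q := by
  have h1 : p * q = ∑ i ∈ Finset.range (p.natDegree + 1), C (p.coeff i) * (X ^ i * q) := by
    conv_lhs => rw [p.as_sum_range_C_mul_X_pow]
    rw [Finset.sum_mul]
    apply Finset.sum_congr rfl
    intro i _
    ring
  rw [h1, nrm_range p _ (Nat.lt_succ_self _), Finset.sum_mul]
  refine (nrm_sum _ _).trans (Finset.sum_le_sum (fun i _ => ?_))
  rw [nrm_C_mul, nrm_X_pow_mul]

lemma nrm_one : nrm 1 = 1 := by
  rw [nrm_range 1 1 (by simp)]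
  simp

lemma nrm_pow (p : ℚ[X]) (n : ℕ) : nrm (p ^ n) ≤ nrm p ^ n := by
  induction n with
  | zero => simp [nrm_one]
  | succ n ih =>
    rw [pow_succ, pow_succ]
    exact (nrm_mul _ _).trans (mul_le_mul_of_nonneg_right ih (nrm_nonneg _))

lemma nrm_derivative (p : ℚ[X]) : nrm (derivative p) ≤ p.natDegree * nrm p := by
  have h0 : (derivative p).natDegree ≤ p.natDegree := (natDegree_derivative_le p).trans (by omega)
  rw [nrm_range (derivative p) _ (Nat.lt_succ_of_le h0)]
  have h1 : nrm p = ∑ i ∈ Finset.range (p.natDegree + 1 + 1), |p.coeff i| :=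
    nrm_range p _ (by omega)
  rw [Finset.sum_range_succ'] at h1
  rw [h1, mul_add, Finset.mul_sum]
  have h2 : ∑ i ∈ Finset.range (p.natDegree + 1), |(derivative p).coeff i|
      ≤ ∑ i ∈ Finset.range (p.natDegree + 1), (p.natDegree : ℚ) * |p.coeff (i + 1)| := by
    apply Finset.sum_le_sum
    intro i _
    rw [coeff_derivative, abs_mul]
    by_cases h3 : i + 1 ≤ p.natDegree
    · have h4 : |(i : ℚ) + 1| ≤ p.natDegree := by
        rw [abs_of_nonneg (by positivity)]
        exact_mod_cast h3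
      rw [mul_comm]
      exact mul_le_mul_of_nonneg_right h4 (abs_nonneg _)
    · rw [coeff_eq_zero_of_natDegree_lt (by omega)]
      simp
  have h3 : 0 ≤ (p.natDegree : ℚ) * |p.coeff 0| := by positivity
  linarith

lemma nrm_hasse (a D : ℕ) (p : ℚ[X]) (hp : p.natDegree ≤ D) :
    nrm (hasseDeriv a p) ≤ 2 ^ D * nrm p := by
  have h0 : (hasseDeriv a p).natDegree ≤ p.natDegree :=
    (natDegree_hasseDeriv_le p a).trans (Nat.sub_le _ _)
  have h1 : nrm p = ∑ i ∈ Finset.range (a + (D + 1)), |p.coeff i| :=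
    nrm_range p _ (by omega)
  rw [Finset.sum_range_add] at h1
  rw [nrm_range (hasseDeriv a p) (D + 1) (by omega), h1, mul_add, Finset.mul_sum, Finset.mul_sum]
  have h2 : ∑ i ∈ Finset.range (D + 1), |(hasseDeriv a p).coeff i|
      ≤ ∑ i ∈ Finset.range (D + 1), 2 ^ D * |p.coeff (a + i)| := by
    apply Finset.sum_le_sum
    intro i _
    rw [hasseDeriv_coeff, abs_mul, add_comm i a]
    by_cases h3 : a + i ≤ D
    · have h4 : |(((a + i).choose a : ℕ) : ℚ)| ≤ 2 ^ D := by
        rw [abs_of_nonneg (by positivity)]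
        have h5 : (a + i).choose a ≤ 2 ^ (a + i) := Nat.choose_le_two_pow _ _
        have h6 : 2 ^ (a + i) ≤ 2 ^ D := Nat.pow_le_pow_right (by norm_num) h3
        exact_mod_cast h5.trans h6
      exact mul_le_mul_of_nonneg_right h4 (abs_nonneg _)
    · rw [coeff_eq_zero_of_natDegree_lt (p := p) (by omega)]
      simp
  have h3 : 0 ≤ ∑ i ∈ Finset.range a, (2 : ℚ) ^ D * |p.coeff i| :=
    Finset.sum_nonneg (fun _ _ => by positivity)
  linarith

/-! ### the vectors `dd P k` -/

variable {μ : Type} [Fintype μ]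

lemma del_add (T : ℚ[X]) (B : Matrix μ μ ℚ[X]) (P Q : μ → ℚ[X]) :
    del T B (P + Q) = del T B P + del T B Q := by
  funext j
  simp only [del, Pi.add_apply, derivative_add, add_mul, Finset.sum_add_distrib]
  ring

lemma del_zero (T : ℚ[X]) (B : Matrix μ μ ℚ[X]) : del T B 0 = 0 := by
  funext j
  simp [del]

lemma del_sum {ι : Type*} (T : ℚ[X]) (B : Matrix μ μ ℚ[X]) (s : Finset ι) (P : ι → μ → ℚ[X]) :
    del T B (∑ i ∈ s, P i) = ∑ i ∈ s, del T B (P i) := by
  classical
  induction s using Finset.induction_on with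
  | empty => simp [del_zero]
  | insert i s hi ih => rw [Finset.sum_insert hi, Finset.sum_insert hi, del_add, ih]

lemma del_mul (T : ℚ[X]) (B : Matrix μ μ ℚ[X]) (p : ℚ[X]) (P : μ → ℚ[X]) (j : μ) :
    del T B (fun j => p * P j) j = T * derivative p * P j + p * del T B P j := by
  simp only [del, derivative_mul, mul_add, Finset.mul_sum]
  have : ∀ i, p * P i * B i j = p * (P i * B i j) := fun i => by ring
  simp only [this]
  ring

lemma dd_succ (T : ℚ[X]) (B : Matrix μ μ ℚ[X]) (P : μ → ℚ[X]) (k : ℕ) (j : μ) :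
    dd T B P (k + 1) j = C ((k + 1 : ℚ)⁻¹) *
      (del T B (dd T B P k) j - (k : ℚ[X]) * derivative T * dd T B P k j) := rfl

lemma C_inv (k : ℕ) : (C ((k + 1 : ℚ)⁻¹) : ℚ[X]) * ((k : ℚ[X]) + 1) = 1 := by
  have h1 : ((k : ℚ[X]) + 1) = C ((k : ℚ) + 1) := by simp
  rw [h1, ← C_mul, inv_mul_cancel₀ (by positivity), C_1]

lemma dd_succ' (T : ℚ[X]) (B : Matrix μ μ ℚ[X]) (P : μ → ℚ[X]) (k : ℕ) (j : μ) :
    ((k : ℚ[X]) + 1) * dd T B P (k + 1) j =
      del T B (dd T B P k) j - (k : ℚ[X]) * derivative T * dd T B P k j := by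
  rw [dd_succ, ← mul_assoc, mul_comm ((k : ℚ[X]) + 1), C_inv, one_mul]

lemma dd_add (T : ℚ[X]) (B : Matrix μ μ ℚ[X]) (P Q : μ → ℚ[X]) (k : ℕ) :
    dd T B (P + Q) k = dd T B P k + dd T B Q k := by
  induction k with
  | zero => rfl
  | succ k ih =>
    funext j
    rw [Pi.add_apply, dd_succ, dd_succ, dd_succ, ih, del_add]
    simp only [Pi.add_apply]
    ring

lemma dd_zero (T : ℚ[X]) (B : Matrix μ μ ℚ[X]) (k : ℕ) : dd T B 0 k = 0 := by
  induction k with
  | zero => rfl
  | succ k ih =>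
    funext j
    rw [dd_succ, ih, del_zero]
    simp

lemma dd_sum {ι : Type*} (T : ℚ[X]) (B : Matrix μ μ ℚ[X]) (s : Finset ι) (P : ι → μ → ℚ[X])
    (k : ℕ) : dd T B (∑ i ∈ s, P i) k = ∑ i ∈ s, dd T B (P i) k := by
  classical
  induction s using Finset.induction_on with
  | empty => simp [dd_zero]
  | insert i s hi ih => rw [Finset.sum_insert hi, Finset.sum_insert hi, dd_add, ih]

lemma deriv_hasse (a : ℕ) (p : ℚ[X]) :
    derivative (hasseDeriv a p) = ((a : ℚ[X]) + 1) * hasseDeriv (a + 1) p := by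
  have h1 := hasseDeriv_comp (R := ℚ) 1 a
  have h2 := congrArg (fun f : ℚ[X] →ₗ[ℚ] ℚ[X] => f p) h1
  simp only [LinearMap.comp_apply, hasseDeriv_one, LinearMap.smul_apply, Nat.choose_one_right] at h2
  rw [h2, nsmul_eq_mul, add_comm 1 a]
  push_cast
  ring

/-- Leibniz' rule -/
lemma leib (T : ℚ[X]) (B : Matrix μ μ ℚ[X]) (p : ℚ[X]) (P : μ → ℚ[X]) (k : ℕ) :
    dd T B (fun j => p * P j) k = fun j => ∑ ab ∈ Finset.HasAntidiagonal.antidiagonal k,
      T ^ ab.1 * hasseDeriv ab.1 p * dd T B P ab.2 j := by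
  induction k with
  | zero =>
    funext j
    simp [dd]
  | succ k ih =>
    funext j
    have hk : ((k : ℚ[X]) + 1) ≠ 0 := by
      have h1 : ((k : ℚ[X]) + 1) = C ((k : ℚ) + 1) := by simp
      rw [h1, Ne, C_eq_zero]
      positivity
    apply mul_left_cancel₀ hk
    rw [dd_succ', ih]
    have h1 : (fun j => ∑ ab ∈ Finset.HasAntidiagonal.antidiagonal k,
        T ^ ab.1 * hasseDeriv ab.1 p * dd T B P ab.2 j)
        = ∑ ab ∈ Finset.HasAntidiagonal.antidiagonal k, fun j =>
          (T ^ ab.1 * hasseDeriv ab.1 p) * dd T B P ab.2 j := by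
      funext j
      rw [Finset.sum_apply]
    rw [h1, del_sum]
    simp only [Finset.sum_apply]
    have h2 : ∀ ab ∈ Finset.HasAntidiagonal.antidiagonal k, del T B (fun j =>
          (T ^ ab.1 * hasseDeriv ab.1 p) * dd T B P ab.2 j) j
          - (k : ℚ[X]) * derivative T * (T ^ ab.1 * hasseDeriv ab.1 p * dd T B P ab.2 j)
        = (((ab.1 + 1 : ℕ) : ℚ[X]) * (T ^ (ab.1 + 1) * hasseDeriv (ab.1 + 1) p * dd T B P ab.2 j))
          + ((ab.2 + 1 : ℕ) : ℚ[X]) * (T ^ ab.1 * hasseDeriv ab.1 p * dd T B P (ab.2 + 1) j) := by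
      rintro ⟨a, b⟩ hab
      rw [Finset.HasAntidiagonal.mem_antidiagonal] at hab
      simp only at hab ⊢
      rw [del_mul, derivative_mul, derivative_pow, deriv_hasse]
      have h3 := dd_succ' T B P b j
      have h4 : (k : ℚ[X]) = (a : ℚ[X]) + (b : ℚ[X]) := by
        rw [← hab]
        push_cast
        ring
      have h5 : T * ((a : ℚ[X]) * T ^ (a - 1)) = (a : ℚ[X]) * T ^ a := by
        rcases a with _ | a
        · simp
        · simp only [Nat.add_sub_cancel]
          ring
      rw [h4]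
      push_cast
      have h6 : C (a : ℚ) = (a : ℚ[X]) := by simp
      rw [h6]
      linear_combination (derivative T * hasseDeriv a p * dd T B P b j) * h5
        - (T ^ a * hasseDeriv a p) * h3
    rw [Finset.mul_sum, ← Finset.sum_sub_distrib, Finset.sum_congr rfl h2, Finset.sum_add_distrib]
    have h3 := Finset.Nat.sum_antidiagonal_succ (n := k) (f := fun ab : ℕ × ℕ => ((ab.1 : ℕ) : ℚ[X]) *
      (T ^ ab.1 * hasseDeriv ab.1 p * dd T B P ab.2 j))
    have h4 := Finset.Nat.sum_antidiagonal_succ' (n := k) (f := fun ab : ℕ × ℕ => ((ab.2 : ℕ) : ℚ[X]) *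
      (T ^ ab.1 * hasseDeriv ab.1 p * dd T B P ab.2 j))
    simp only [Nat.cast_zero, zero_mul, zero_add] at h3 h4
    rw [← h3, ← h4, ← Finset.sum_add_distrib, Finset.mul_sum]
    apply Finset.sum_congr rfl
    rintro ⟨a, b⟩ hab
    rw [Finset.HasAntidiagonal.mem_antidiagonal] at hab
    simp only at hab ⊢
    have h5 : ((k : ℚ[X]) + 1) = (a : ℚ[X]) + (b : ℚ[X]) := by
      have : ((k + 1 : ℕ) : ℚ[X]) = ((a + b : ℕ) : ℚ[X]) := by rw [hab]
      push_cast at this
      exact this
    rw [h5]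
    ring

/-- degrees of the vectors `dd P k` -/
lemma dd_deg (T : ℚ[X]) (B : Matrix μ μ ℚ[X]) (m D : ℕ) (hT : T.natDegree ≤ m)
    (hB : ∀ i j, (B i j).natDegree ≤ m) (P : μ → ℚ[X]) (hP : ∀ j, (P j).natDegree ≤ D) (k : ℕ) :
    ∀ j, (dd T B P k j).natDegree ≤ D + k * m := by
  induction k with
  | zero =>
    intro j
    simpa [dd] using hP j
  | succ k ih =>
    intro j
    rw [dd_succ]
    refine (natDegree_C_mul_le _ _).trans ?_
    have hT' : (derivative T).natDegree ≤ m := (natDegree_derivative_le T).trans (by omega)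
    have hd : ∀ q : ℚ[X], (derivative q).natDegree ≤ q.natDegree := fun q =>
      (natDegree_derivative_le q).trans (by omega)
    have e : D + (k + 1) * m = D + k * m + m := by ring
    rw [e]
    refine (natDegree_sub_le _ _).trans (max_le ?_ ?_)
    · unfold del
      refine (natDegree_add_le _ _).trans (max_le ?_ ?_)
      · refine natDegree_mul_le.trans ?_
        have := hd (dd T B P k j)
        have := ih j
        omega
      · apply natDegree_sum_le_of_forall_le
        intro i _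
        refine natDegree_mul_le.trans ?_
        have := ih i
        have := hB i j
        omega
    · refine natDegree_mul_le.trans ?_
      have h1 : ((k : ℚ[X]) * derivative T).natDegree ≤ m := by
        refine natDegree_mul_le.trans ?_
        rw [natDegree_natCast]
        omega
      have := ih j
      omega

lemma arith1 {t t' S A k m : ℚ} (ht : 0 ≤ t) (ht' : 0 ≤ t') (hS : 0 ≤ S) (hk : 0 ≤ k) (hm : 0 ≤ m)
    (hA : t * m + S + t' ≤ A) : t * (k * m) + S + k * t' ≤ (k + 1) * A := by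
  have h1 := mul_le_mul_of_nonneg_left hA (show 0 ≤ k + 1 by linarith)
  have h2 := mul_nonneg hk hS
  have h3 := mul_nonneg ht hm
  linarith

omit [Fintype μ] in
lemma single_nrm [DecidableEq μ] (c j : μ) : nrm ((Pi.single c 1 : μ → ℚ[X]) j) ≤ 1 := by
  by_cases h : j = c
  · subst h
    rw [Pi.single_eq_same, nrm_one]
  · rw [Pi.single_eq_of_ne h, nrm_zero]
    norm_num

/-- sizes of the vectors `dd e_c k` -/
lemma dd_size [DecidableEq μ] (T : ℚ[X]) (B : Matrix μ μ ℚ[X]) (m : ℕ) (hT : T.natDegree ≤ m)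
    (hB : ∀ i j, (B i j).natDegree ≤ m) (A : ℚ)
    (hA : nrm T * m + ∑ i, ∑ j, nrm (B i j) + nrm (derivative T) ≤ A) (c : μ) (k : ℕ) :
    ∀ j, nrm (dd T B (Pi.single c 1) k j) ≤ A ^ k := by
  have hB0 : 0 ≤ ∑ i, ∑ j, nrm (B i j) :=
    Finset.sum_nonneg (fun _ _ => Finset.sum_nonneg (fun _ _ => nrm_nonneg _))
  have hT0 := nrm_nonneg T
  have hT1 := nrm_nonneg (derivative T)
  have hTm : 0 ≤ nrm T * (m : ℚ) := mul_nonneg hT0 (Nat.cast_nonneg m)
  have hA0 : 0 ≤ A := by linarith
  induction k with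
  | zero =>
    intro j
    simpa [dd] using single_nrm c j
  | succ k ih =>
    intro j
    rw [dd_succ, nrm_C_mul, abs_of_nonneg (by positivity)]
    have hk : (0 : ℚ) < k + 1 := by positivity
    rw [inv_mul_le_iff₀ hk]
    have hdeg := dd_deg T B m 0 hT hB (Pi.single c 1) (fun j => by
      by_cases h : j = c
      · subst h
        rw [Pi.single_eq_same]
        simp
      · rw [Pi.single_eq_of_ne h]
        simp) k j
    have hAk : 0 ≤ A ^ k := pow_nonneg hA0 k
    have h1 : nrm (del T B (dd T B (Pi.single c 1) k) j)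
        ≤ nrm T * (k * m) * A ^ k + (∑ i, ∑ j, nrm (B i j)) * A ^ k := by
      unfold del
      refine (nrm_add _ _).trans (add_le_add ?_ ?_)
      · refine (nrm_mul _ _).trans ?_
        have h2 := nrm_derivative (dd T B (Pi.single c 1) k j)
        have h3 : ((dd T B (Pi.single c 1) k j).natDegree : ℚ) ≤ k * m := by
          have : (dd T B (Pi.single c 1) k j).natDegree ≤ k * m := by omega
          exact_mod_cast this
        have h4 : nrm (derivative (dd T B (Pi.single c 1) k j)) ≤ (k * m) * A ^ k :=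
          h2.trans (mul_le_mul h3 (ih j) (nrm_nonneg _) (by positivity))
        rw [mul_assoc (nrm T)]
        exact mul_le_mul_of_nonneg_left h4 (nrm_nonneg _)
      · refine (nrm_sum _ _).trans ?_
        rw [Finset.sum_mul]
        apply Finset.sum_le_sum
        intro i _
        refine (nrm_mul _ _).trans ?_
        have h2 : nrm (B i j) ≤ ∑ j, nrm (B i j) :=
          Finset.single_le_sum (f := fun j => nrm (B i j)) (fun _ _ => nrm_nonneg _)
            (Finset.mem_univ j)
        rw [mul_comm]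
        exact mul_le_mul h2 (ih i) (nrm_nonneg _) ((nrm_nonneg _).trans h2)
    have h2 : nrm ((k : ℚ[X]) * derivative T * dd T B (Pi.single c 1) k j)
        ≤ k * nrm (derivative T) * A ^ k := by
      refine (nrm_mul _ _).trans ?_
      have h3 : nrm ((k : ℚ[X]) * derivative T) = k * nrm (derivative T) := by
        have h4 : (k : ℚ[X]) = C (k : ℚ) := by simp
        rw [h4, nrm_C_mul, abs_of_nonneg (by positivity)]
      rw [h3]
      exact mul_le_mul_of_nonneg_left (ih j) (mul_nonneg (by positivity) (nrm_nonneg _))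
    refine (nrm_sub _ _).trans ((add_le_add h1 h2).trans ?_)
    have h5 : nrm T * (k * m) + ∑ i, ∑ j, nrm (B i j) + k * nrm (derivative T)
        ≤ (k + 1) * A :=
      arith1 hT0 hT1 hB0 (Nat.cast_nonneg k) (Nat.cast_nonneg m) hA
    calc nrm T * (k * m) * A ^ k + (∑ i, ∑ j, nrm (B i j)) * A ^ k
          + k * nrm (derivative T) * A ^ k
        = (nrm T * (k * m) + ∑ i, ∑ j, nrm (B i j) + k * nrm (derivative T)) * A ^ k := by ring
      _ ≤ ((k + 1) * A) * A ^ k := mul_le_mul_of_nonneg_right h5 hAk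
      _ = (k + 1) * A ^ (k + 1) := by ring

lemma map_hasse (p : ℤ[X]) (a : ℕ) : zq (hasseDeriv a p) = hasseDeriv a (zq p) := by
  ext n
  rw [coeff_map, hasseDeriv_coeff, hasseDeriv_coeff, coeff_map]
  simp

/-- the general formula -/
lemma dd_formula [DecidableEq μ] (T : ℚ[X]) (B : Matrix μ μ ℚ[X]) (P : μ → ℚ[X]) (k : ℕ) (j : μ) :
    dd T B P k j = ∑ c, ∑ ab ∈ Finset.HasAntidiagonal.antidiagonal k,
      T ^ ab.1 * hasseDeriv ab.1 (P c) * dd T B (Pi.single c 1) ab.2 j := by
  have h1 : P = ∑ c, fun j => P c * (Pi.single c 1 : μ → ℚ[X]) j := by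
    funext j
    rw [Finset.sum_apply, Finset.sum_eq_single j]
    · simp
    · intro c _ hc
      rw [Pi.single_eq_of_ne hc.symm, mul_zero]
    · intro h
      exact absurd (Finset.mem_univ _) h
  conv_lhs => rw [h1]
  rw [dd_sum, Finset.sum_apply]
  apply Finset.sum_congr rfl
  intro c _
  rw [leib]

end BndM

open BndM in
theorem specBnd : SpecBnd := by
  intro μ _ _ T B hG
  obtain ⟨C0, hC0⟩ := hG
  set m : ℕ := (zq T).natDegree + ∑ i, ∑ j, (zq (B i j)).natDegree with hm
  have hTm : (zq T).natDegree ≤ m := Nat.le_add_right _ _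
  have hBm : ∀ i j, ((B.map zq) i j).natDegree ≤ m := by
    intro i j
    rw [Matrix.map_apply]
    have h1 : (zq (B i j)).natDegree ≤ ∑ j, (zq (B i j)).natDegree :=
      Finset.single_le_sum (f := fun j => (zq (B i j)).natDegree) (fun _ _ => Nat.zero_le _)
        (Finset.mem_univ j)
    have h2 : ∑ j, (zq (B i j)).natDegree ≤ ∑ i, ∑ j, (zq (B i j)).natDegree :=
      Finset.single_le_sum (f := fun i => ∑ j, (zq (B i j)).natDegree) (fun _ _ => Nat.zero_le _)
        (Finset.mem_univ i)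
    omega
  obtain ⟨A, hA⟩ := exists_nat_ge (nrm (zq T) * m + ∑ i, ∑ j, nrm ((B.map zq) i j)
    + nrm (derivative (zq T)) + nrm (zq T) + 1)
  have hT0 := nrm_nonneg (zq T)
  have hT1 := nrm_nonneg (derivative (zq T))
  have hB0 : 0 ≤ ∑ i, ∑ j, nrm ((B.map zq) i j) :=
    Finset.sum_nonneg (fun _ _ => Finset.sum_nonneg (fun _ _ => nrm_nonneg _))
  have hTm0 : 0 ≤ nrm (zq T) * (m : ℚ) := mul_nonneg hT0 (Nat.cast_nonneg m)
  have hA1 : (1 : ℚ) ≤ A := by linarith
  have hAT : nrm (zq T) ≤ A := by linarith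
  have hsize := fun c k => dd_size (zq T) (B.map zq) m hTm hBm A (by linarith) c k
  set M : ℕ := Fintype.card μ with hM
  set K : ℕ := 4 * (C0 + 1) * (M + 1) * A * (m + 1) with hK
  refine ⟨K * 4, fun κ => ?_⟩
  obtain ⟨q, hq0, hq1, hq2⟩ := hC0 κ
  have hA1' : 1 ≤ A := by exact_mod_cast hA1
  have hK4 : C0 ≤ K * 4 := by
    rw [hK]
    nlinarith [Nat.mul_le_mul (Nat.mul_le_mul (Nat.le_add_left 1 M) hA1') (Nat.le_add_left 1 m)]
  refine ⟨q, hq0, hq1.trans (Nat.pow_le_pow_left hK4 _), ?_⟩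
  intro P D H hPD hPH k hk j
  choose z hz using (fun (b : ℕ) (hb : b ≤ κ) (c j : μ) => hq2 b hb c j)
  set Z : ℤ[X] := ∑ c, ∑ ab ∈ (Finset.HasAntidiagonal.antidiagonal k).attach,
    T ^ ab.1.1 * hasseDeriv ab.1.1 (P c) * z ab.1.2 (by
      have := Finset.HasAntidiagonal.mem_antidiagonal.1 ab.2
      omega) c j with hZ
  have hPD' : ∀ c, (zq (P c)).natDegree ≤ D := fun c => natDegree_map_le.trans (hPD c)
  have hqz : (q : ℚ[X]) * dd (zq T) (B.map zq) (fun c => zq (P c)) k j = zq Z := by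
    rw [dd_formula, hZ, Finset.mul_sum]
    change _ = Polynomial.map _ (∑ c, _)
    rw [Polynomial.map_sum]
    apply Finset.sum_congr rfl
    intro c _
    rw [Polynomial.map_sum, Finset.mul_sum, ← Finset.sum_attach]
    apply Finset.sum_congr rfl
    intro ab _
    rw [Polynomial.map_mul, Polynomial.map_mul, Polynomial.map_pow]
    have h1 := hz ab.1.2 (by
      have := Finset.HasAntidiagonal.mem_antidiagonal.1 ab.2
      omega) c j
    have h2 := map_hasse (P c) ab.1.1
    unfold zq at h1 h2 ⊢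
    rw [← h1, h2]
    ring
  -- the size
  have hnP : ∀ c, nrm (zq (P c)) ≤ (D + 1) * H := by
    intro c
    rw [nrm_range _ (D + 1) (Nat.lt_succ_of_le (hPD' c))]
    calc ∑ i ∈ Finset.range (D + 1), |(zq (P c)).coeff i| ≤ ∑ i ∈ Finset.range (D + 1), (H : ℚ) := by
          apply Finset.sum_le_sum
          intro i _
          rw [coeff_map]
          have := hPH c i
          have h1 : |(((P c).coeff i : ℤ) : ℚ)| ≤ ((H : ℤ) : ℚ) := by exact_mod_cast this
          simpa using h1
      _ = (D + 1) * H := by simp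
  have hH0 : (0 : ℚ) ≤ H := by positivity
  have hsz : nrm (zq Z) ≤ q * (M * ((κ + 1) * (A ^ κ * (2 ^ D * ((D + 1) * H))))) := by
    rw [← hqz, dd_formula]
    have h1 : (q : ℚ[X]) = C (q : ℚ) := by simp
    rw [h1, nrm_C_mul, abs_of_nonneg (by positivity)]
    apply mul_le_mul_of_nonneg_left _ (by positivity)
    refine (nrm_sum _ _).trans ?_
    calc ∑ c, nrm (∑ ab ∈ Finset.HasAntidiagonal.antidiagonal k,
          zq T ^ ab.1 * hasseDeriv ab.1 (zq (P c)) *
            dd (zq T) (B.map zq) (Pi.single c 1) ab.2 j)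
        ≤ ∑ c : μ, ((κ + 1) * (A ^ κ * (2 ^ D * ((D + 1) * H))) : ℚ) := by
          apply Finset.sum_le_sum
          intro c _
          refine (nrm_sum _ _).trans ?_
          calc ∑ ab ∈ Finset.HasAntidiagonal.antidiagonal k, nrm (zq T ^ ab.1 *
              hasseDeriv ab.1 (zq (P c)) * dd (zq T) (B.map zq) (Pi.single c 1) ab.2 j)
              ≤ ∑ ab ∈ Finset.HasAntidiagonal.antidiagonal k,
                (A ^ κ * (2 ^ D * ((D + 1) * H)) : ℚ) := by
                apply Finset.sum_le_sum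
                rintro ⟨a, b⟩ hab
                rw [Finset.HasAntidiagonal.mem_antidiagonal] at hab
                simp only at hab ⊢
                have h2 : nrm (zq T ^ a) ≤ (A : ℚ) ^ a :=
                  (nrm_pow _ _).trans (pow_le_pow_left₀ hT0 hAT a)
                have h3 : nrm (hasseDeriv a (zq (P c))) ≤ 2 ^ D * ((D + 1) * H) :=
                  (nrm_hasse a D _ (hPD' c)).trans
                    (mul_le_mul_of_nonneg_left (hnP c) (by positivity))
                have h4 := hsize c b j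
                calc nrm (zq T ^ a * hasseDeriv a (zq (P c)) *
                    dd (zq T) (B.map zq) (Pi.single c 1) b j)
                    ≤ (A : ℚ) ^ a * (2 ^ D * ((D + 1) * H)) * (A : ℚ) ^ b := by
                      refine (nrm_mul _ _).trans (mul_le_mul ?_ h4 (nrm_nonneg _) (by positivity))
                      exact (nrm_mul _ _).trans (mul_le_mul h2 h3 (nrm_nonneg _) (by positivity))
                  _ = (A : ℚ) ^ (a + b) * (2 ^ D * ((D + 1) * H)) := by
                      rw [pow_add]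
                      ring
                  _ ≤ (A : ℚ) ^ κ * (2 ^ D * ((D + 1) * H)) := by
                      apply mul_le_mul_of_nonneg_right _ (by positivity)
                      exact pow_le_pow_right₀ hA1 (by omega)
            _ = (k + 1) * (A ^ κ * (2 ^ D * ((D + 1) * H)) : ℚ) := by
                rw [Finset.sum_const, Finset.Nat.card_antidiagonal, nsmul_eq_mul]
                push_cast
                ring
            _ ≤ (κ + 1) * (A ^ κ * (2 ^ D * ((D + 1) * H)) : ℚ) := by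
                apply mul_le_mul_of_nonneg_right _ (by positivity)
                have : (k : ℚ) ≤ κ := by exact_mod_cast hk
                linarith
      _ = M * ((κ + 1) * (A ^ κ * (2 ^ D * ((D + 1) * H)))) := by
          rw [Finset.sum_const, nsmul_eq_mul, Finset.card_univ]
  have hfin : (q : ℚ) * (M * ((κ + 1) * (A ^ κ * (2 ^ D * ((D + 1) * H)))))
      ≤ H * ((K * 4 : ℕ) : ℚ) ^ (D + κ + 1) := by
    have hn : q * (M * ((κ + 1) * (A ^ κ * (2 ^ D * ((D + 1) * H)))))
        ≤ H * (K * 4) ^ (D + κ + 1) := by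
      have e1 : κ + 1 ≤ 2 ^ κ := Nat.lt_two_pow_self
      have e2 : D + 1 ≤ 2 ^ D := Nat.lt_two_pow_self
      have hq1' : q ≤ (C0 + 1) ^ (D + κ + 1) :=
        hq1.trans ((Nat.pow_le_pow_left (Nat.le_succ _) _).trans
          (Nat.pow_le_pow_right (Nat.succ_pos _) (by omega)))
      have hMM : M ≤ (M + 1) ^ (D + κ + 1) :=
        (Nat.le_succ M).trans (Nat.le_self_pow (by omega) _)
      have h2 : κ + 1 ≤ 2 ^ (D + κ + 1) := e1.trans (Nat.pow_le_pow_right (by norm_num) (by omega))
      have h3 : A ^ κ ≤ A ^ (D + κ + 1) := Nat.pow_le_pow_right hA1' (by omega)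
      have h4 : 2 ^ D ≤ 2 ^ (D + κ + 1) := Nat.pow_le_pow_right (by norm_num) (by omega)
      have h5 : D + 1 ≤ 2 ^ (D + κ + 1) := e2.trans h4
      calc q * (M * ((κ + 1) * (A ^ κ * (2 ^ D * ((D + 1) * H)))))
          ≤ (C0 + 1) ^ (D + κ + 1) * ((M + 1) ^ (D + κ + 1) * (2 ^ (D + κ + 1) *
            (A ^ (D + κ + 1) * (2 ^ (D + κ + 1) * (2 ^ (D + κ + 1) * H))))) := by gcongr
        _ = H * ((C0 + 1) * (M + 1) * 2 * A * 2 * 2) ^ (D + κ + 1) := by
            simp only [mul_pow]
            ring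
        _ ≤ H * (K * 4) ^ (D + κ + 1) := by
            apply Nat.mul_le_mul_left
            apply Nat.pow_le_pow_left
            rw [hK]
            have h6 : (C0 + 1) * (M + 1) * 2 * A * 2 * 2 = 8 * ((C0 + 1) * (M + 1) * A) := by ring
            have h7 : 4 * (C0 + 1) * (M + 1) * A * (m + 1) * 4
                = 16 * ((C0 + 1) * (M + 1) * A) * (m + 1) := by ring
            rw [h6, h7]
            nlinarith [Nat.zero_le ((C0 + 1) * (M + 1) * A),
              Nat.zero_le ((C0 + 1) * (M + 1) * A * m)]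
    exact_mod_cast hn
  refine ⟨Z, hqz, ?_, ?_⟩
  · have h1 : Z.natDegree = (zq Z).natDegree :=
      (natDegree_map_eq_of_injective (RingHom.injective_int (Int.castRingHom ℚ)) Z).symm
    rw [h1, ← hqz]
    have h2 : (q : ℚ[X]) = C (q : ℚ) := by simp
    rw [h2]
    refine (natDegree_C_mul_le _ _).trans ?_
    refine (dd_deg (zq T) (B.map zq) m D hTm hBm _ hPD' k j).trans ?_
    have h3 : k * m ≤ κ * m := Nat.mul_le_mul_right _ hk
    have h4 : m ≤ K * 4 := by
      rw [hK]
      have h5 : 1 ≤ (C0 + 1) * (M + 1) * A := Nat.mul_pos (Nat.mul_pos (by omega) (by omega)) hA1'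
      have h6 : 4 * (C0 + 1) * (M + 1) * A * (m + 1) * 4
          = 16 * ((C0 + 1) * (M + 1) * A) * (m + 1) := by ring
      rw [h6]
      nlinarith
    have h5 : κ * m ≤ K * 4 * κ := by
      rw [mul_comm]
      exact Nat.mul_le_mul_right _ h4
    omega
  · intro i
    have h1 := (coeff_le (zq Z) i).trans (hsz.trans hfin)
    rw [coeff_map] at h1
    have h2 : |((Z.coeff i : ℤ) : ℚ)| ≤ H * ((K * 4 : ℕ) : ℚ) ^ (D + κ + 1) := by
      simpa using h1
    exact_mod_cast h2

end Pool.Agent.Lib.MPf11a48.GF
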