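import Pool.Agent.Lib.MP_f11a48_ag.GF.SpecL
import Pool.Agent.Lib.MP_f11a48_ag.K3.LRat

/-!
# Module SUB: the isometries in the Lie algebra of a torsor of similitudes
-/

set_option autoImplicit false

namespace Pool.Agent.Lib.MPf11a48.GF.SubM

open Matrix MvPolynomial
open Pool.Agent.Lib.MPf11a48.Tors
open Pool.Agent.Lib.MPf11a48.CM hiding OmegaM
open Pool.Agent.Lib.MPf11a48.GL2
open Pool.Agent.Lib.MPf11a48.K3 (cx)

variable {ι : Type} [Fintype ι] [DecidableEq ι]

theorem geo {T : Set (GL ι ℂ)} (hT : IsTorsor ⊥ T) : Geo T :=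
  geo_of_torsor ⟨closedOver_mono bot_le hT.closed, hT.nonempty, hT.heap⟩

theorem torQ {T : Set (GL ι ℂ)} (hT : IsTorsor ⊥ T) : IsTorsor Qbar T :=
  ⟨closedOver_mono bot_le hT.closed, hT.nonempty, hT.heap⟩

/-- the polynomial `(fᵀ ψ f) i j` -/
noncomputable def qp (ψ : Matrix ι ι ℂ) (i j : ι) : MvPolynomial (ι × ι) ℂ :=
  ∑ k, ∑ l, C (ψ k l) * (X (k, i) * X (l, j))

omit [DecidableEq ι] in
theorem eval_qp (ψ f : Matrix ι ι ℂ) (i j : ι) :
    eval (en f) (qp ψ i j) = (fᵀ * ψ * f) i j := by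
  simp only [qp, map_sum, map_mul, eval_C, eval_X, en, Matrix.mul_apply, Matrix.transpose_apply,
    Finset.sum_mul]
  rw [Finset.sum_comm]
  exact Finset.sum_congr rfl fun l _ => Finset.sum_congr rfl fun k _ => by ring

theorem tang_qp (ψ f z : Matrix ι ι ℂ) (i j : ι) :
    tang (qp ψ i j) f z = (zᵀ * ψ * f + fᵀ * ψ * z) i j := by
  simp only [qp, tang_sum, tang_mul, tang_C, tang_X, eval_C, eval_X, zero_mul, zero_add, map_mul,
    Matrix.add_apply, Matrix.mul_apply, Matrix.transpose_apply, Finset.sum_mul]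
  rw [Finset.sum_comm, ← Finset.sum_add_distrib]
  refine Finset.sum_congr rfl fun l _ => ?_
  rw [← Finset.sum_add_distrib]
  refine Finset.sum_congr rfl fun k _ => ?_
  simp only [en]
  ring

/-- the Lie algebra is stable under conjugation by the group -/
theorem ad_mem {T : Set (GL ι ℂ)} (h : Geo T) {g : GL ι ℂ} (hg : g ∈ grp T) {X : Matrix ι ι ℂ}
    (hX : X ∈ lie T) : g.1 * X * g⁻¹.1 ∈ lie T := by
  obtain ⟨a, ha, b, hb, rfl⟩ := hg
  have h1 : b.1 * (b⁻¹.1 * X * b.1) * b⁻¹.1 ∈ lie T := by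
    have : b.1 * (b⁻¹.1 * X * b.1) * b⁻¹.1 = X := by
      calc b.1 * (b⁻¹.1 * X * b.1) * b⁻¹.1 = (b.1 * b⁻¹.1) * X * (b.1 * b⁻¹.1) := by
            simp only [Matrix.mul_assoc]
        _ = X := by rw [glinv, Matrix.one_mul, Matrix.mul_one]
    rw [this]
    exact hX
  rw [h.conj_mem_iff hb ha, ← h.conj_mem_iff ha ha] at h1
  have : (a * b⁻¹).1 * X * (a * b⁻¹)⁻¹.1 = a.1 * (b⁻¹.1 * X * b.1) * a⁻¹.1 := by
    rw [_root_.mul_inv_rev, inv_inv, glmul, glmul]
    simp only [Matrix.mul_assoc]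
  rw [this]
  exact h1

/-- elements of the Lie algebra of a torsor of similitudes are infinitesimal similitudes -/
theorem simil [Nonempty ι] {T : Set (GL ι ℂ)} {c : GL ι ℂ} (hc : c ∈ T) (ψ : Matrix ι ι ℂ)
    (hψ : ψ.det ≠ 0)
    (hT : ∀ f ∈ T, ∃ z : ℂ, f.1ᵀ * ψ * f.1 = z • (c.1ᵀ * ψ * c.1)) {X : Matrix ι ι ℂ}
    (hX : X ∈ lie T) : ∃ m : ℂ, Xᵀ * ψ + ψ * X = m • ψ := by
  set B : Matrix ι ι ℂ := c.1ᵀ * ψ * c.1 with hB
  have hcd : c.1.det ≠ 0 := by
    intro h0
    have h3 := congrArg Matrix.det (glinv c)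
    rw [det_mul, h0, zero_mul, det_one] at h3
    exact zero_ne_one h3
  have hBd : B.det ≠ 0 := by
    rw [hB, det_mul, det_mul, det_transpose]
    exact mul_ne_zero (mul_ne_zero hcd hψ) hcd
  obtain ⟨k, l, hkl⟩ : ∃ k l, B k l ≠ 0 := by
    by_contra hcon
    push Not at hcon
    apply hBd
    have : B = 0 := Matrix.ext fun i j => hcon i j
    rw [this, det_zero]
  set N : Matrix ι ι ℂ := (X * c.1)ᵀ * ψ * c.1 + c.1ᵀ * ψ * (X * c.1) with hN
  have h1 : ∀ i j, N i j * B k l = N k l * B i j := by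
    intro i j
    have hv : qp ψ i j * C (B k l) - qp ψ k l * C (B i j) ∈ van T := by
      intro f hf
      obtain ⟨z, hz⟩ := hT f hf
      rw [map_sub, map_mul, map_mul, eval_C, eval_C, eval_qp, eval_qp, hz]
      simp only [Matrix.smul_apply, smul_eq_mul]
      ring
    have h2 := hX c hc _ hv
    have h3 : tang (qp ψ i j * C (B k l) - qp ψ k l * C (B i j)) c.1 (X * c.1) =
        N i j * B k l - N k l * B i j := by
      have : qp ψ i j * C (B k l) - qp ψ k l * C (B i j) =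
          qp ψ i j * C (B k l) + qp ψ k l * C (-B i j) := by
        rw [C_neg]; ring
      rw [this, tang_add, tang_mul, tang_mul, tang_C, tang_C, tang_qp, tang_qp, eval_C, eval_C]
      ring
    rw [h3] at h2
    exact sub_eq_zero.1 h2
  refine ⟨N k l / B k l, ?_⟩
  have h2 : N = (N k l / B k l) • B := by
    refine Matrix.ext fun i j => ?_
    rw [Matrix.smul_apply, smul_eq_mul]
    have := h1 i j
    field_simp
    linear_combination this
  have h3 : N = c.1ᵀ * (Xᵀ * ψ + ψ * X) * c.1 := by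
    rw [hN, Matrix.transpose_mul]
    simp only [Matrix.mul_add, Matrix.add_mul, Matrix.mul_assoc]
  have h2' : c.1ᵀ * (Xᵀ * ψ + ψ * X) * c.1 = (N k l / B k l) • (c.1ᵀ * ψ * c.1) := by
    rw [← h3]
    exact h2
  have h4 : c⁻¹.1ᵀ * c.1ᵀ = 1 := by
    rw [← Matrix.transpose_mul, glinv, Matrix.transpose_one]
  have h5 : ∀ M : Matrix ι ι ℂ, c⁻¹.1ᵀ * (c.1ᵀ * M * c.1) * c⁻¹.1 = M := by
    intro M
    calc c⁻¹.1ᵀ * (c.1ᵀ * M * c.1) * c⁻¹.1 = (c⁻¹.1ᵀ * c.1ᵀ) * M * (c.1 * c⁻¹.1) := by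
          simp only [Matrix.mul_assoc]
      _ = M := by rw [h4, glinv, Matrix.one_mul, Matrix.mul_one]
  have h6 := congrArg (fun M => c⁻¹.1ᵀ * M * c⁻¹.1) h2'
  simp only [Matrix.mul_smul, Matrix.smul_mul] at h6
  rw [h5, h5] at h6
  exact h6

omit [Fintype ι] [DecidableEq ι] in
theorem cxa (A : Matrix ι ι ℚ) (i j : ι) : cx A i j = ((A i j : ℚ) : ℂ) := rfl

omit [DecidableEq ι] in
/-- application of a form to a matrix identity -/
theorem lap (l : ℂ →ₗ[ℚ] ℚ) (Y : Matrix ι ι ℂ) (ψ : Matrix ι ι ℚ) (i j : ι) :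
    l ((Yᵀ * cx ψ + cx ψ * Y) i j) =
      ((Matrix.of fun i j => l (Y i j))ᵀ * ψ + ψ * Matrix.of fun i j => l (Y i j)) i j := by
  simp only [Matrix.add_apply, Matrix.mul_apply, Matrix.transpose_apply, map_add, map_sum,
    Matrix.of_apply]
  congr 1
  · refine Finset.sum_congr rfl fun k _ => ?_
    have : Y k i * cx ψ k j = ψ k j • Y k i := by
      rw [Rat.smul_def, mul_comm]; rfl
    rw [this, map_smul, smul_eq_mul, mul_comm]
  · refine Finset.sum_congr rfl fun k _ => ?_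
    have : cx ψ i k * Y k j = ψ i k • Y k j := by
      rw [Rat.smul_def]; rfl
    rw [this, map_smul, smul_eq_mul]

end Pool.Agent.Lib.MPf11a48.GF.SubM

namespace Pool.Agent.Lib.MPf11a48.GF

open Matrix MvPolynomial SubM
open Pool.Agent.Lib.MPf11a48.Tors
open Pool.Agent.Lib.MPf11a48.CM hiding OmegaM
open Pool.Agent.Lib.MPf11a48.GL2
open Pool.Agent.Lib.MPf11a48.K3 (cx)

theorem specSub : SpecSub := by
  intro ι _ _ _ T c ψ hT hc hcl hskew hdet hsim
  have hG := SubM.geo hT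
  have hψd : (cx ψ).det ≠ 0 := by
    have : (cx ψ).det = ((ψ.det : ℚ) : ℂ) := by
      have := RingHom.map_det (algebraMap ℚ ℂ) ψ
      rw [eq_ratCast] at this
      rw [this]
      rfl
    rw [this]
    exact_mod_cast hdet
  let h : Submodule ℂ (Matrix ι ι ℂ) :=
    { carrier := spl T ψ
      add_mem' := by
        rintro X Y ⟨hX, s, hs⟩ ⟨hY, t, ht⟩
        refine ⟨?_, s + t, ?_⟩
        · have : (X + Y)ᵀ * cx ψ + cx ψ * (X + Y) =
              (Xᵀ * cx ψ + cx ψ * X) + (Yᵀ * cx ψ + cx ψ * Y) := by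
            rw [Matrix.transpose_add, Matrix.add_mul, Matrix.mul_add]; abel
          rw [this, hX, hY, add_zero]
        · have : X + Y + (s + t) • (1 : Matrix ι ι ℂ) = (X + s • 1) + (Y + t • 1) := by
            rw [add_smul]; abel
          rw [this]
          exact (lie T).add_mem hs ht
      zero_mem' := by
        refine ⟨by simp, 0, ?_⟩
        rw [zero_smul, add_zero]
        exact (lie T).zero_mem
      smul_mem' := by
        rintro a X ⟨hX, s, hs⟩
        refine ⟨?_, a * s, ?_⟩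
        · have : (a • X)ᵀ * cx ψ + cx ψ * (a • X) = a • (Xᵀ * cx ψ + cx ψ * X) := by
            rw [Matrix.transpose_smul, Matrix.smul_mul, Matrix.mul_smul, smul_add]
          rw [this, hX, smul_zero]
        · have : a • X + (a * s) • (1 : Matrix ι ι ℂ) = a • (X + s • 1) := by
            rw [smul_add, smul_smul]
          rw [this]
          exact (lie T).smul_mem _ hs }
  refine ⟨h, rfl, ?_, ?_, ?_, ?_⟩
  · rintro X ⟨hX, s, hs⟩ Y ⟨hY, t, ht⟩
    refine ⟨?_, 0, ?_⟩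
    · have e1 : Xᵀ * cx ψ = -(cx ψ * X) := eq_neg_of_add_eq_zero_left hX
      have e2 : Yᵀ * cx ψ = -(cx ψ * Y) := eq_neg_of_add_eq_zero_left hY
      rw [Matrix.transpose_sub, Matrix.transpose_mul, Matrix.transpose_mul, Matrix.sub_mul,
        Matrix.mul_assoc, Matrix.mul_assoc, e1, e2, Matrix.mul_neg, Matrix.mul_neg,
        ← Matrix.mul_assoc, ← Matrix.mul_assoc, e1, e2, Matrix.mul_sub, Matrix.neg_mul,
        Matrix.neg_mul, Matrix.mul_assoc, Matrix.mul_assoc]
      abel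
    · have h1 := lie_br hs ht
      have e : (X + s • (1 : Matrix ι ι ℂ)) * (Y + t • 1) - (Y + t • 1) * (X + s • 1) =
          X * Y - Y * X := by
        simp only [Matrix.add_mul, Matrix.mul_add, Matrix.smul_mul, Matrix.mul_smul,
          Matrix.one_mul, Matrix.mul_one]
        rw [smul_add, smul_add, smul_smul, smul_smul, mul_comm s t]
        abel
      rw [e] at h1
      rw [zero_smul, add_zero]
      exact h1
  · rintro l Y ⟨hY, s, hs⟩
    refine ⟨?_, (l s : ℚ), ?_⟩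
    · refine Matrix.ext fun i j => ?_
      have h1 := lap l Y ψ i j
      rw [hY, Matrix.zero_apply, map_zero] at h1
      have h2 : ((cx (fun i j => l (Y i j)))ᵀ * cx ψ + cx ψ * cx (fun i j => l (Y i j))) =
          cx ((Matrix.of fun i j => l (Y i j))ᵀ * ψ + ψ * Matrix.of fun i j => l (Y i j)) := by
        refine Matrix.ext fun i j => ?_
        change (∑ k, ((l (Y k i) : ℚ) : ℂ) * ((ψ k j : ℚ) : ℂ)) +
          (∑ k, ((ψ i k : ℚ) : ℂ) * ((l (Y k j) : ℚ) : ℂ)) =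
          ((((∑ k, l (Y k i) * ψ k j) + ∑ k, ψ i k * l (Y k j) : ℚ)) : ℂ)
        push_cast
        rfl
      rw [h2]
      change ((algebraMap ℚ ℂ) _) = 0
      rw [← h1, map_zero]
    · have h1 := K3.specLRat ι T (SubM.torQ hT) hcl _ hs l
      have e : cx (fun i j => l ((Y + s • (1 : Matrix ι ι ℂ)) i j)) =
          cx (fun i j => l (Y i j)) + ((l s : ℚ) : ℂ) • (1 : Matrix ι ι ℂ) := by
        refine Matrix.ext fun i j => ?_
        change ((l (Y i j + s * (1 : Matrix ι ι ℂ) i j) : ℚ) : ℂ) =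
          ((l (Y i j) : ℚ) : ℂ) + ((l s : ℚ) : ℂ) * (1 : Matrix ι ι ℂ) i j
        rw [map_add, Matrix.one_apply, Rat.cast_add]
        split_ifs
        · rw [mul_one, mul_one]
        · rw [mul_zero, mul_zero, map_zero, Rat.cast_zero]
      rw [e] at h1
      exact h1
  · rintro g hg Y ⟨hY, s, hs⟩
    refine ⟨?_, s, ?_⟩
    · obtain ⟨a, ha, b, hb, rfl⟩ := hg
      obtain ⟨za, hza⟩ := hsim a ha
      obtain ⟨zb, hzb⟩ := hsim b hb
      have hzb0 : zb ≠ 0 := by
        rintro rfl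
        rw [zero_smul] at hzb
        have h1 : (b.1ᵀ * cx ψ * b.1).det = 0 := by
          rw [hzb, det_zero]
        rw [det_mul, det_mul, det_transpose] at h1
        have hbd : b.1.det ≠ 0 := by
          intro h0
          have h3 := congrArg Matrix.det (glinv b)
          rw [det_mul, h0, zero_mul, det_one] at h3
          exact zero_ne_one h3
        exact mul_ne_zero (mul_ne_zero hbd hψd) hbd h1
      set g : GL ι ℂ := a * b⁻¹ with hg
      have h4 : b⁻¹.1ᵀ * b.1ᵀ = 1 := by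
        rw [← Matrix.transpose_mul, glinv, Matrix.transpose_one]
      have hg1 : zb • (g.1ᵀ * cx ψ * g.1) = za • cx ψ := by
        calc zb • (g.1ᵀ * cx ψ * g.1) = zb • (b⁻¹.1ᵀ * (a.1ᵀ * cx ψ * a.1) * b⁻¹.1) := by
              rw [hg, glmul, Matrix.transpose_mul]
              simp only [Matrix.mul_assoc]
          _ = za • (b⁻¹.1ᵀ * (b.1ᵀ * cx ψ * b.1) * b⁻¹.1) := by
              rw [hza, hzb]
              simp only [Matrix.mul_smul, Matrix.smul_mul]
              rw [smul_comm]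
          _ = za • ((b⁻¹.1ᵀ * b.1ᵀ) * cx ψ * (b.1 * b⁻¹.1)) := by
              simp only [Matrix.mul_assoc]
          _ = za • cx ψ := by rw [h4, glinv, Matrix.one_mul, Matrix.mul_one]
      have hg2 : g.1ᵀ * cx ψ * g.1 = (za / zb) • cx ψ := by
        rw [div_eq_inv_mul, ← smul_smul, ← hg1, smul_smul, inv_mul_cancel₀ hzb0, one_smul]
      have h5 : g⁻¹.1ᵀ * g.1ᵀ = 1 := by
        rw [← Matrix.transpose_mul, glinv, Matrix.transpose_one]
      have e1 : cx ψ * g.1 = (za / zb) • (g⁻¹.1ᵀ * cx ψ) := by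
        calc cx ψ * g.1 = (g⁻¹.1ᵀ * g.1ᵀ) * (cx ψ * g.1) := by rw [h5, Matrix.one_mul]
          _ = g⁻¹.1ᵀ * (g.1ᵀ * cx ψ * g.1) := by simp only [Matrix.mul_assoc]
          _ = _ := by rw [hg2, Matrix.mul_smul]
      have e2 : g.1ᵀ * cx ψ = (za / zb) • (cx ψ * g⁻¹.1) := by
        calc g.1ᵀ * cx ψ = (g.1ᵀ * cx ψ) * (g.1 * g⁻¹.1) := by rw [glinv, Matrix.mul_one]
          _ = (g.1ᵀ * cx ψ * g.1) * g⁻¹.1 := by simp only [Matrix.mul_assoc]
          _ = _ := by rw [hg2, Matrix.smul_mul]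
      calc (g.1 * Y * g⁻¹.1)ᵀ * cx ψ + cx ψ * (g.1 * Y * g⁻¹.1)
          = g⁻¹.1ᵀ * Yᵀ * (g.1ᵀ * cx ψ) + (cx ψ * g.1) * Y * g⁻¹.1 := by
            rw [Matrix.transpose_mul, Matrix.transpose_mul]
            simp only [Matrix.mul_assoc]
        _ = (za / zb) • (g⁻¹.1ᵀ * (Yᵀ * cx ψ + cx ψ * Y) * g⁻¹.1) := by
            rw [e1, e2]
            simp only [Matrix.mul_smul, Matrix.smul_mul, Matrix.mul_add, Matrix.add_mul,
              smul_add, Matrix.mul_assoc]
        _ = 0 := by rw [hY, Matrix.mul_zero, Matrix.zero_mul, smul_zero]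
    · have h1 := SubM.ad_mem hG hg hs
      have e : g.1 * (Y + s • (1 : Matrix ι ι ℂ)) * g⁻¹.1 =
          g.1 * Y * g⁻¹.1 + s • (1 : Matrix ι ι ℂ) := by
        rw [Matrix.mul_add, Matrix.add_mul, Matrix.mul_smul, Matrix.smul_mul, Matrix.mul_one,
          glinv]
      rw [e] at h1
      exact h1
  · intro X hX
    exact SubM.simil hc (cx ψ) hψd hsim hX

end Pool.Agent.Lib.MPf11a48.GF
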