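import Pool.Agent.Lib.MP_f11a48_ag.GF.SpecL

/-!
# G-functions as periods, TRV: the symplectic group is generated by transvections
-/

set_option autoImplicit false

namespace Pool.Agent.Lib.MPf11a48.GF

open Matrix

namespace TrvM

variable {ι : Type} [Fintype ι] [DecidableEq ι]

/-- the form -/
def om (ψ : Matrix ι ι ℂ) (v w : ι → ℂ) : ℂ := v ⬝ᵥ (ψ *ᵥ w)

omit [DecidableEq ι] in
theorem om_add_left (ψ : Matrix ι ι ℂ) (v v' w : ι → ℂ) :
    om ψ (v + v') w = om ψ v w + om ψ v' w := by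
  unfold om; rw [add_dotProduct]

omit [DecidableEq ι] in
theorem om_sub_left (ψ : Matrix ι ι ℂ) (v v' w : ι → ℂ) :
    om ψ (v - v') w = om ψ v w - om ψ v' w := by
  unfold om; rw [sub_dotProduct]

omit [DecidableEq ι] in
theorem om_smul_left (ψ : Matrix ι ι ℂ) (s : ℂ) (v w : ι → ℂ) :
    om ψ (s • v) w = s * om ψ v w := by
  unfold om; rw [smul_dotProduct, smul_eq_mul]

omit [DecidableEq ι] in
theorem om_add_right (ψ : Matrix ι ι ℂ) (v w w' : ι → ℂ) :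
    om ψ v (w + w') = om ψ v w + om ψ v w' := by
  unfold om; rw [Matrix.mulVec_add, dotProduct_add]

omit [DecidableEq ι] in
theorem om_smul_right (ψ : Matrix ι ι ℂ) (s : ℂ) (v w : ι → ℂ) :
    om ψ v (s • w) = s * om ψ v w := by
  unfold om; rw [Matrix.mulVec_smul, dotProduct_smul, smul_eq_mul]

omit [DecidableEq ι] in
theorem om_symm {ψ : Matrix ι ι ℂ} (hψ : ψᵀ = -ψ) (v w : ι → ℂ) : om ψ w v = -om ψ v w := by
  unfold om
  rw [Matrix.dotProduct_mulVec, ← Matrix.mulVec_transpose, hψ, Matrix.neg_mulVec, neg_dotProduct,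
    dotProduct_comm]

omit [DecidableEq ι] in
theorem om_self {ψ : Matrix ι ι ℂ} (hψ : ψᵀ = -ψ) (v : ι → ℂ) : om ψ v v = 0 := by
  have h := om_symm hψ v v
  have h2 : (2 : ℂ) * om ψ v v = 0 := by linear_combination h
  simpa using h2

theorem exists_om {ψ : Matrix ι ι ℂ} (hd : ψ.det ≠ 0) {u : ι → ℂ} (hu : u ≠ 0) :
    ∃ w, om ψ u w ≠ 0 := by
  by_contra hcon
  push Not at hcon
  apply hu
  have h1 : u ᵥ* ψ = 0 := by
    funext j
    have := hcon (Pi.single j 1)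
    unfold om at this
    rw [Matrix.dotProduct_mulVec, dotProduct_single, mul_one] at this
    exact this
  exact Matrix.eq_zero_of_vecMul_eq_zero hd h1

/-- isometries -/
def Iso (ψ : Matrix ι ι ℂ) (f : GL ι ℂ) : Prop := ∀ v w, om ψ (f.1 *ᵥ v) (f.1 *ᵥ w) = om ψ v w

theorem iso_of {ψ : Matrix ι ι ℂ} {f : GL ι ℂ} (hf : f.1ᵀ * ψ * f.1 = ψ) : Iso ψ f := by
  intro v w
  unfold om
  rw [Matrix.mulVec_mulVec, Matrix.dotProduct_mulVec, ← Matrix.vecMul_transpose,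
    Matrix.vecMul_vecMul, ← Matrix.mul_assoc, hf, ← Matrix.dotProduct_mulVec]

/-- fixed vectors -/
def Fix (f : GL ι ℂ) : Submodule ℂ (ι → ℂ) where
  carrier := {v | f.1 *ᵥ v = v}
  add_mem' := fun {v w} hv hw => by
    change f.1 *ᵥ (v + w) = v + w
    rw [Matrix.mulVec_add, hv, hw]
  zero_mem' := Matrix.mulVec_zero _
  smul_mem' := fun t v hv => by
    change f.1 *ᵥ (t • v) = t • v
    rw [Matrix.mulVec_smul, hv]

theorem mem_Fix {f : GL ι ℂ} {v : ι → ℂ} : v ∈ Fix f ↔ f.1 *ᵥ v = v := Iff.rfl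

section main

variable {ψ : Matrix ι ι ℂ} {G : Subgroup (GL ι ℂ)} (hψ : ψᵀ = -ψ) (hd : ψ.det ≠ 0)
  (hG : ∀ (u : ι → ℂ) (s : ℂ), ∃ g ∈ G, g.1 = 1 + s • vecMulVec u (u ᵥ* ψ))

include hG in
theorem exists_t (u : ι → ℂ) (s : ℂ) : ∃ g ∈ G, ∀ w, g.1 *ᵥ w = w + (s * om ψ u w) • u := by
  obtain ⟨g, hg, hg'⟩ := hG u s
  refine ⟨g, hg, fun w => ?_⟩
  rw [hg', Matrix.add_mulVec, Matrix.one_mulVec, Matrix.smul_mulVec, Matrix.vecMulVec_mulVec]
  have h1 : (u ᵥ* ψ) ⬝ᵥ w = om ψ u w := by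
    unfold om; rw [Matrix.dotProduct_mulVec]
  rw [h1, mul_smul]
  congr 1
  funext i
  simp [mul_comm]

omit [DecidableEq ι] in
include hψ in
theorem t_iso' (u : ι → ℂ) (s : ℂ) (v w : ι → ℂ) :
    om ψ (v + (s * om ψ u v) • u) (w + (s * om ψ u w) • u) = om ψ v w := by
  rw [om_add_left, om_add_right, om_add_right, om_smul_left, om_smul_left, om_smul_right,
    om_smul_right, om_self hψ u, om_symm hψ u v]
  ring

include hψ hG in
theorem step1 (f : GL ι ℂ) (hf : Iso ψ f) (v : ι → ℂ) (hv : om ψ v (f.1 *ᵥ v) ≠ 0) :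
    ∃ g ∈ G, Iso ψ (g * f) ∧ Fix f ≤ Fix (g * f) ∧ v ∈ Fix (g * f) := by
  obtain ⟨g, hg, hg'⟩ := exists_t hG (f.1 *ᵥ v - v) (1 / om ψ v (f.1 *ᵥ v))
  have hmul : ∀ x, (g * f).1 *ᵥ x = g.1 *ᵥ (f.1 *ᵥ x) := fun x => by
    rw [Matrix.mulVec_mulVec]; rfl
  refine ⟨g, hg, ?_, ?_, ?_⟩
  · intro x y
    rw [hmul, hmul, hg', hg', t_iso' hψ, hf]
  · intro x hx
    rw [mem_Fix] at hx ⊢
    rw [hmul, hx, hg']
    have h1 : om ψ (f.1 *ᵥ v - v) x = 0 := by
      rw [om_sub_left]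
      nth_rw 1 [← hx]
      rw [hf, sub_self]
    rw [h1, mul_zero, zero_smul, add_zero]
  · rw [mem_Fix, hmul, hg']
    have h1 : om ψ (f.1 *ᵥ v - v) (f.1 *ᵥ v) = -om ψ v (f.1 *ᵥ v) := by
      rw [om_sub_left, om_self hψ, zero_sub]
    rw [h1]
    have h2 : 1 / om ψ v (f.1 *ᵥ v) * -om ψ v (f.1 *ᵥ v) = -1 := by
      field_simp
    rw [h2, neg_one_smul]
    abel

include hψ hd hG in
theorem step2 (f : GL ι ℂ) (hf : Iso ψ f) (hne : Fix f ≠ ⊤) :
    ∃ g ∈ G, Iso ψ (g * f) ∧ Fix f < Fix (g * f) := by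
  by_cases hc : ∃ v, om ψ v (f.1 *ᵥ v) ≠ 0
  · obtain ⟨v, hv⟩ := hc
    obtain ⟨g, hg, h1, h2, h3⟩ := step1 hψ hG f hf v hv
    refine ⟨g, hg, h1, lt_of_le_of_ne h2 fun he => ?_⟩
    rw [← he, mem_Fix] at h3
    rw [h3, om_self hψ] at hv
    exact hv rfl
  · push Not at hc
    obtain ⟨v0, hv0⟩ : ∃ v0, v0 ∉ Fix f := by
      by_contra hcon
      push Not at hcon
      exact hne (eq_top_iff.mpr fun x _ => hcon x)
    have hu : f.1 *ᵥ v0 - v0 ≠ 0 := fun h => hv0 (sub_eq_zero.mp h)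
    obtain ⟨w1, hw1⟩ := exists_om hd hu
    have hinv : f.1 *ᵥ (f⁻¹.1 *ᵥ w1) = w1 := by
      rw [Matrix.mulVec_mulVec]
      have : f.1 * f⁻¹.1 = 1 := by
        exact congrArg Units.val (mul_inv_cancel f)
      rw [this, Matrix.one_mulVec]
    obtain ⟨w, hw, hw'⟩ : ∃ w, om ψ (f.1 *ᵥ v0 - v0) w ≠ 0 ∧
        om ψ (f.1 *ᵥ v0 - v0) (f.1 *ᵥ w) ≠ 0 := by
      by_cases h1 : om ψ (f.1 *ᵥ v0 - v0) (f.1 *ᵥ w1) = 0
      · by_cases h2 : om ψ (f.1 *ᵥ v0 - v0) (f⁻¹.1 *ᵥ w1) = 0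
        · refine ⟨w1 + f⁻¹.1 *ᵥ w1, ?_, ?_⟩
          · rw [om_add_right, h2, add_zero]; exact hw1
          · rw [Matrix.mulVec_add, om_add_right, h1, zero_add, hinv]; exact hw1
        · exact ⟨_, h2, by rw [hinv]; exact hw1⟩
      · exact ⟨w1, hw1, h1⟩
    obtain ⟨t, ht, ht'⟩ := exists_t hG (f.1 *ᵥ v0 - v0) 1
    have hmul : ∀ x, (t * f).1 *ᵥ x = t.1 *ᵥ (f.1 *ᵥ x) := fun x => by
      rw [Matrix.mulVec_mulVec]; rfl
    have hf' : Iso ψ (t * f) := by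
      intro x y
      rw [hmul, hmul, ht', ht', t_iso' hψ, hf]
    have hle : Fix f ≤ Fix (t * f) := by
      intro x hx
      rw [mem_Fix] at hx ⊢
      rw [hmul, hx, ht']
      have h1 : om ψ (f.1 *ᵥ v0 - v0) x = 0 := by
        rw [om_sub_left]
        nth_rw 1 [← hx]
        rw [hf, sub_self]
      rw [h1, mul_zero, zero_smul, add_zero]
    have hwn : om ψ w ((t * f).1 *ᵥ w) ≠ 0 := by
      rw [hmul, ht', om_add_right, om_smul_right, hc, zero_add, om_symm hψ (f.1 *ᵥ v0 - v0) w,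
        one_mul]
      exact mul_ne_zero hw' (neg_ne_zero.mpr hw)
    obtain ⟨g, hg, h1, h2, h3⟩ := step1 hψ hG (t * f) hf' w hwn
    refine ⟨g * t, G.mul_mem hg ht, by rw [mul_assoc]; exact h1, ?_⟩
    rw [mul_assoc]
    refine lt_of_le_of_lt hle (lt_of_le_of_ne h2 fun he => ?_)
    rw [← he, mem_Fix] at h3
    rw [h3, om_self hψ] at hwn
    exact hwn rfl

include hψ hd hG in
theorem main (n : ℕ) : ∀ f : GL ι ℂ, Iso ψ f →
    Fintype.card ι ≤ Module.finrank ℂ (Fix f) + n → f ∈ G := by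
  induction n with
  | zero =>
    intro f hf hn
    have h1 : Fix f = ⊤ := by
      refine Submodule.eq_top_of_finrank_eq (le_antisymm (Submodule.finrank_le _) ?_)
      rw [Module.finrank_fintype_fun_eq_card]
      simpa using hn
    have h2 : f = 1 := by
      refine Units.ext (Matrix.ext_of_mulVec_single fun j => ?_)
      have h3 : (Pi.single j 1 : ι → ℂ) ∈ Fix f := by rw [h1]; trivial
      rw [mem_Fix] at h3
      rw [h3]
      exact (Matrix.one_mulVec _).symm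
    rw [h2]
    exact G.one_mem
  | succ n ih =>
    intro f hf hn
    by_cases hne : Fix f = ⊤
    · refine ih f hf ?_
      rw [hne, finrank_top, Module.finrank_fintype_fun_eq_card]
      omega
    · obtain ⟨g, hg, h1, h2⟩ := step2 hψ hd hG f hf hne
      have h3 := Submodule.finrank_lt_finrank_of_lt h2
      have h4 := ih (g * f) h1 (by omega)
      have h5 := G.mul_mem (G.inv_mem hg) h4
      rwa [inv_mul_cancel_left] at h5

end main

end TrvM

theorem specTrv : SpecTrv := fun ι _ _ _ _ hψ hd hG f hf =>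
  TrvM.main hψ hd hG (Fintype.card ι) f (TrvM.iso_of hf) (Nat.le_add_left _ _)

end Pool.Agent.Lib.MPf11a48.GF
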