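import Pool.Agent.Lib.MP_f11a48_ag.GF.Spec

/-!
# SOLV: the vectors `dd P k` and solutions
-/

set_option autoImplicit false

namespace Pool.Agent.Lib.MPf11a48.GF

open Polynomial Matrix
open scoped PowerSeries

namespace SolvM

lemma hs_zero (f : ℚ⟦X⟧) : hs 0 f = f := by
  ext n
  simp [hs]

lemma deriv_hs (k : ℕ) (f : ℚ⟦X⟧) :
    PowerSeries.derivative ℚ (hs k f) = ((k + 1 : ℕ) : ℚ⟦X⟧) * hs (k + 1) f := by
  ext n
  rw [PowerSeries.coeff_derivative]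
  have h1 : ((k + 1 : ℕ) : ℚ⟦X⟧) = PowerSeries.C ((k + 1 : ℕ) : ℚ) := by simp
  rw [h1, PowerSeries.coeff_C_mul]
  simp only [hs, PowerSeries.coeff_mk]
  have h2 := Nat.choose_succ_right_eq (n + 1 + k) k
  have h3 : n + 1 + k - k = n + 1 := by omega
  rw [h3] at h2
  have h4 : n + (k + 1) = n + 1 + k := by ring
  rw [h4]
  have h5 : (((n + 1 + k).choose (k + 1) : ℕ) : ℚ) * ((k + 1 : ℕ) : ℚ)
      = ((n + 1 + k).choose k : ℚ) * ((n + 1 : ℕ) : ℚ) := by exact_mod_cast h2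
  push_cast at h5 ⊢
  linear_combination -(PowerSeries.coeff (n + 1 + k) f) * h5

variable {μ : Type} [Fintype μ]

lemma del_sum {T : ℚ[X]} {B : Matrix μ μ ℚ[X]} {y : μ → ℚ⟦X⟧} (h : IsSol T B y) (P : μ → ℚ[X]) :
    ∑ j, (del T B P j : ℚ⟦X⟧) * y j
      = (T : ℚ⟦X⟧) * PowerSeries.derivative ℚ (∑ j, (P j : ℚ⟦X⟧) * y j) := by
  have h1 : ∀ j, (del T B P j : ℚ⟦X⟧) * y j = (T : ℚ⟦X⟧) * (((derivative (P j) : ℚ[X]) : ℚ⟦X⟧) * y j)
      + ∑ i, (P i : ℚ⟦X⟧) * ((B i j : ℚ⟦X⟧) * y j) := by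
    intro j
    unfold del
    rw [Polynomial.coe_add, Polynomial.coe_mul]
    have : ((∑ i, P i * B i j : ℚ[X]) : ℚ⟦X⟧) = ∑ i, (P i : ℚ⟦X⟧) * (B i j : ℚ⟦X⟧) := by
      have h2 : ∀ p : ℚ[X], (p : ℚ⟦X⟧) = Polynomial.coeToPowerSeries.ringHom (R := ℚ) p :=
        fun p => rfl
      simp only [h2, map_sum, map_mul]
    rw [this, add_mul, Finset.sum_mul, mul_assoc]
    congr 1
    apply Finset.sum_congr rfl
    intro i _
    ring
  simp only [h1]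
  rw [Finset.sum_add_distrib, Finset.sum_comm, map_sum, Finset.mul_sum, ← Finset.sum_add_distrib]
  apply Finset.sum_congr rfl
  intro j _
  rw [Derivation.leibniz, smul_eq_mul, smul_eq_mul, PowerSeries.derivative_coe]
  have h2 := h j
  rw [← Finset.mul_sum, ← h2]
  ring

theorem main {T : ℚ[X]} {B : Matrix μ μ ℚ[X]} {y : μ → ℚ⟦X⟧} (h : IsSol T B y) (P : μ → ℚ[X])
    (k : ℕ) : ∑ j, (dd T B P k j : ℚ⟦X⟧) * y j =
      (T : ℚ⟦X⟧) ^ k * hs k (∑ j, (P j : ℚ⟦X⟧) * y j) := by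
  induction k with
  | zero => simp [dd, hs_zero]
  | succ k ih =>
    set R := ∑ j, (P j : ℚ⟦X⟧) * y j with hR
    have h1 : ∀ j, (dd T B P (k + 1) j : ℚ⟦X⟧) * y j = PowerSeries.C ((k + 1 : ℚ)⁻¹) *
        ((del T B (dd T B P k) j : ℚ⟦X⟧) * y j - (k : ℚ⟦X⟧) * ((derivative T : ℚ[X]) : ℚ⟦X⟧)
          * ((dd T B P k j : ℚ⟦X⟧) * y j)) := by
      intro j
      have : dd T B P (k + 1) j = C ((k + 1 : ℚ)⁻¹) *
        (del T B (dd T B P k) j - (k : ℚ[X]) * derivative T * dd T B P k j) := rfl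
      have h2 : ((k : ℚ[X]) : ℚ⟦X⟧) = (k : ℚ⟦X⟧) :=
        map_natCast (Polynomial.coeToPowerSeries.ringHom (R := ℚ)) k
      rw [this, Polynomial.coe_mul, Polynomial.coe_C, Polynomial.coe_sub, Polynomial.coe_mul,
        Polynomial.coe_mul, h2]
      ring
    simp only [h1]
    rw [← Finset.mul_sum, Finset.sum_sub_distrib, ← Finset.mul_sum, del_sum h, ih]
    rw [Derivation.leibniz, smul_eq_mul, smul_eq_mul, deriv_hs, Derivation.leibniz_pow]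
    simp only [smul_eq_mul, nsmul_eq_mul]
    rw [PowerSeries.derivative_coe]
    have h2 : PowerSeries.C ((k + 1 : ℚ)⁻¹) * ((k + 1 : ℕ) : ℚ⟦X⟧) = 1 := by
      have h3 : ((k + 1 : ℕ) : ℚ⟦X⟧) = PowerSeries.C ((k + 1 : ℕ) : ℚ) := by simp
      rw [h3, ← map_mul]
      have : ((k + 1 : ℚ)⁻¹) * ((k + 1 : ℕ) : ℚ) = 1 := by
        push_cast
        exact inv_mul_cancel₀ (by positivity)
      rw [this, map_one]
    have h4 : (T : ℚ⟦X⟧) * ((k : ℚ⟦X⟧) * ((T : ℚ⟦X⟧) ^ (k - 1))) = (k : ℚ⟦X⟧) * (T : ℚ⟦X⟧) ^ k := by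
      rcases k with _ | k
      · simp
      · simp only [Nat.add_sub_cancel]
        ring
    linear_combination ((T : ℚ⟦X⟧) ^ (k + 1) * hs (k + 1) R) * h2
      + (PowerSeries.C ((k + 1 : ℚ)⁻¹) * hs k R * ((derivative T : ℚ[X]) : ℚ⟦X⟧)) * h4

end SolvM

theorem specSolv : SpecSolv := by
  intro μ _ T B y h P k
  exact SolvM.main h P k

end Pool.Agent.Lib.MPf11a48.GF
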