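import Pool.Agent.Lib.MP_f11a48_ag.GF.Der

/-!
# BDD: eigenvectors of the system on tensors have bounded degrees
-/

set_option autoImplicit false

namespace Pool.Agent.Lib.MPf11a48.GF

open Polynomial Matrix
open scoped PowerSeries

namespace BddM

open DerM (D D_mul D_alg D_const)

/-- polynomials as rational functions -/
noncomputable abbrev al : ℚ[X] →+* RatFunc ℚ := algebraMap ℚ[X] (RatFunc ℚ)

lemma al_inj {p q : ℚ[X]} (h : al p = al q) : p = q := RatFunc.algebraMap_injective ℚ h

lemma al_ne {p : ℚ[X]} (h : p ≠ 0) : al p ≠ 0 := fun h' => h (al_inj (by rw [h', map_zero]))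

/-- solutions of `T g' = a g` are unique up to constants -/
lemma ratio {T : ℚ[X]} (hT : T ≠ 0) {a g h : RatFunc ℚ} (hg : al T * D g = a * g)
    (hh : al T * D h = a * h) (hh0 : h ≠ 0) : ∃ c : ℚ, g = al (C c) * h := by
  have h1 : g = g / h * h := (div_mul_cancel₀ g hh0).symm
  have h2 : D g = g / h * D h + h * D (g / h) := by
    conv_lhs => rw [h1]
    rw [D_mul]
  have h3 : h * (al T * D (g / h)) = 0 := by
    have h4 : al T * D g = g / h * (al T * D h) + h * (al T * D (g / h)) := by
      rw [h2]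
      ring
    rw [hg, hh] at h4
    have h5 : g / h * (a * h) = a * g := by
      field_simp
    rw [h5] at h4
    linear_combination -h4
  have h4 : D (g / h) = 0 := by
    rcases mul_eq_zero.1 h3 with h5 | h5
    · exact absurd h5 hh0
    · exact (mul_eq_zero.1 h5).resolve_left (al_ne hT)
  obtain ⟨c, hc⟩ := D_const h4
  exact ⟨c, by rw [← hc]; exact h1⟩

variable {N : Type} [Fintype N]

/-- the operator on vectors of rational functions -/
noncomputable def dl (T : ℚ[X]) (M : Matrix N N ℚ[X]) (x : N → RatFunc ℚ) : N → RatFunc ℚ :=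
  fun I => al T * D (x I) + ∑ J, x J * al (M J I)

lemma dl_smul (T : ℚ[X]) (M : Matrix N N ℚ[X]) (f : RatFunc ℚ) (x : N → RatFunc ℚ) :
    dl T M (f • x) = (al T * D f) • x + f • dl T M x := by
  funext I
  simp only [dl, Pi.smul_apply, Pi.add_apply, smul_eq_mul]
  have : ∀ J, f * x J * al (M J I) = f * (x J * al (M J I)) := fun J => by ring
  simp only [this]
  rw [D_mul, ← Finset.mul_sum]
  ring

lemma dl_add (T : ℚ[X]) (M : Matrix N N ℚ[X]) (x y : N → RatFunc ℚ) :
    dl T M (x + y) = dl T M x + dl T M y := by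
  funext I
  simp only [dl, Pi.add_apply, map_add, add_mul, Finset.sum_add_distrib]
  ring

lemma dl_zero (T : ℚ[X]) (M : Matrix N N ℚ[X]) : dl T M 0 = 0 := by
  funext I
  simp [dl]

lemma dl_sum {ι : Type*} (T : ℚ[X]) (M : Matrix N N ℚ[X]) (s : Finset ι)
    (x : ι → N → RatFunc ℚ) : dl T M (∑ i ∈ s, x i) = ∑ i ∈ s, dl T M (x i) := by
  classical
  induction s using Finset.induction_on with
  | empty => simp [dl_zero]
  | insert i s hi ih => rw [Finset.sum_insert hi, Finset.sum_insert hi, dl_add, ih]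

lemma dl_poly (T : ℚ[X]) (M : Matrix N N ℚ[X]) (w : N → ℚ[X]) :
    dl T M (fun I => al (w I)) = fun I => al (del T M w I) := by
  funext I
  simp only [dl, del, map_add, map_mul, map_sum, D_alg]

theorem fin_dim {T : ℚ[X]} (hT : T ≠ 0) (M : Matrix N N ℚ[X]) :
    ∃ (κ : Type) (_ : Fintype κ) (v : κ → N → ℚ[X]), ∀ (w : N → ℚ[X]) (a : ℚ[X]),
      (∀ I, del T M w I = a * w I) → (∀ p : ℚ[X], (∀ I, p ∣ w I) → IsUnit p) →
      ∃ (c : κ → ℚ) (g : ℚ[X]), g ≠ 0 ∧ ∀ I, ∑ k, C (c k) * v k I = g * w I := by
  classical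
  set E : Set (N → RatFunc ℚ) := {x | ∃ a : RatFunc ℚ, dl T M x = a • x} with hE
  obtain ⟨b, hbE, hspan, hli⟩ := exists_linearIndependent (RatFunc ℚ) E
  have hfin : Finite b := hli.finite
  have : Fintype b := Fintype.ofFinite b
  choose a ha using (fun i : b => hbE i.2)
  have hex : ∀ i j : b, ∃ h : RatFunc ℚ, ∀ g : RatFunc ℚ, al T * D g = (a j - a i) * g →
      ∃ c : ℚ, g = al (C c) * h := by
    intro i j
    by_cases h1 : ∃ h : RatFunc ℚ, al T * D h = (a j - a i) * h ∧ h ≠ 0
    · obtain ⟨h, h2, h3⟩ := h1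
      exact ⟨h, fun g hg => ratio hT hg h2 h3⟩
    · refine ⟨0, fun g hg => ⟨0, ?_⟩⟩
      by_contra h2
      apply h1
      refine ⟨g, hg, fun h3 => h2 ?_⟩
      rw [h3]
      simp
  choose h hh using hex
  obtain ⟨p0, hp0⟩ := IsLocalization.exist_integer_multiples_of_finite (nonZeroDivisors ℚ[X])
    (fun q : (b × b) × N => h q.1.1 q.1.2 * (q.1.1 : N → RatFunc ℚ) q.2)
  choose v' hv' using hp0
  have hp0ne : (p0 : ℚ[X]) ≠ 0 := nonZeroDivisors.coe_ne_zero p0
  refine ⟨b × b, inferInstance, fun k I => v' (k, I), fun w e hw hcop => ?_⟩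
  set W : N → RatFunc ℚ := fun I => al (w I) with hW
  have hWe : dl T M W = al e • W := by
    rw [hW, dl_poly]
    funext I
    rw [hw I, map_mul]
    rfl
  have hW0 : W ≠ 0 := by
    intro h1
    have h2 : ∀ I, w I = 0 := fun I => al_inj (by
      have := congrFun h1 I
      simpa [hW] using this)
    have h3 := hcop 0 (fun I => by rw [h2 I])
    exact not_isUnit_zero h3
  have hWspan : W ∈ Submodule.span (RatFunc ℚ) b := by
    rw [hspan]
    exact Submodule.subset_span ⟨al e, hWe⟩
  have hWr : W ∈ Submodule.span (RatFunc ℚ) (Set.range (fun i : b => (i : N → RatFunc ℚ))) := by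
    rwa [Subtype.range_coe]
  obtain ⟨f, hf⟩ := (Submodule.mem_span_range_iff_exists_fun (RatFunc ℚ)).1 hWr
  have hi0 : ∃ i0, f i0 ≠ 0 := by
    by_contra h1
    push Not at h1
    apply hW0
    rw [← hf]
    simp [h1]
  obtain ⟨i0, hi0⟩ := hi0
  -- the equations for the coefficients
  have heq : ∀ i, al T * D (f i) + f i * a i - al e * f i = 0 := by
    apply Fintype.linearIndependent_iff.1 hli
    have h1 : dl T M W = ∑ i, (al T * D (f i) + f i * a i) • (i : N → RatFunc ℚ) := by
      rw [← hf, dl_sum]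
      apply Finset.sum_congr rfl
      intro i _
      rw [dl_smul, ha i, smul_smul, ← add_smul]
    have h2 : al e • W = ∑ i, (al e * f i) • (i : N → RatFunc ℚ) := by
      rw [← hf, Finset.smul_sum]
      apply Finset.sum_congr rfl
      intro i _
      rw [smul_smul]
    have h3 : ∑ i, (al T * D (f i) + f i * a i) • (i : N → RatFunc ℚ)
        - ∑ i, (al e * f i) • (i : N → RatFunc ℚ) = 0 := by
      rw [← h1, ← h2, hWe, sub_self]
    rw [← Finset.sum_sub_distrib] at h3
    rw [← h3]
    apply Finset.sum_congr rfl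
    intro i _
    rw [sub_smul]
  have hc : ∀ i, ∃ c : ℚ, f i / f i0 = al (C c) * h i i0 := by
    intro i
    apply hh
    have h1 : f i = f i / f i0 * f i0 := (div_mul_cancel₀ _ hi0).symm
    have h2 : D (f i) = f i / f i0 * D (f i0) + f i0 * D (f i / f i0) := by
      conv_lhs => rw [h1]
      rw [D_mul]
    have h3 := heq i
    have h4 := heq i0
    rw [h2] at h3
    have h5 : f i0 * (al T * D (f i / f i0)) = f i0 * ((a i0 - a i) * (f i / f i0)) := by
      have h6 : f i = f i0 * (f i / f i0) := by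
        field_simp
      have h7 : al T * (f i / f i0 * D (f i0) + f i0 * D (f i / f i0)) + f i0 * (f i / f i0) * a i
          - al e * (f i0 * (f i / f i0)) = 0 := by
        rw [← h6]
        exact h3
      linear_combination h7 - (f i / f i0) * h4
    exact mul_left_cancel₀ hi0 h5
  choose c hc using hc
  set cc : b × b → ℚ := fun k => if k.2 = i0 then c k.1 else 0 with hcc
  -- the polynomial vector
  have hY : ∀ I, f i0 * al (∑ k : b × b, C (cc k) * v' (k, I)) = al (p0 : ℚ[X]) * al (w I) := by
    intro I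
    have h1 : ∑ k : b × b, C (cc k) * v' (k, I) = ∑ i : b, C (c i) * v' ((i, i0), I) := by
      rw [Fintype.sum_prod_type]
      apply Finset.sum_congr rfl
      intro i _
      rw [Finset.sum_eq_single i0]
      · simp [hcc]
      · intro j _ hj
        simp [hcc, hj]
      · intro h1
        exact absurd (Finset.mem_univ _) h1
    rw [h1, map_sum, Finset.mul_sum]
    have h2 : al (w I) = ∑ i, f i * (i : N → RatFunc ℚ) I := by
      have h3 := congrFun hf I
      simp only [Finset.sum_apply, Pi.smul_apply, smul_eq_mul] at h3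
      rw [h3]
    rw [h2, Finset.mul_sum]
    apply Finset.sum_congr rfl
    intro i _
    have h3 : al (v' ((i, i0), I)) = al (p0 : ℚ[X]) * (h i i0 * (i : N → RatFunc ℚ) I) := by
      have h4 := hv' ((i, i0), I)
      rw [Algebra.smul_def] at h4
      exact h4
    have h4 : f i = al (C (c i)) * h i i0 * f i0 := by
      rw [← hc i]
      field_simp
    rw [map_mul, h3]
    conv_rhs => rw [h4]
    ring
  set q : RatFunc ℚ := al (p0 : ℚ[X]) / f i0 with hq
  have hq0 : q ≠ 0 := div_ne_zero (al_ne hp0ne) hi0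
  have hY2 : ∀ I, q.denom * (∑ k : b × b, C (cc k) * v' (k, I)) = q.num * w I := by
    intro I
    apply al_inj
    rw [map_mul, map_mul]
    have hd : al q.denom ≠ 0 := al_ne q.denom_ne_zero
    have h1 : al q.num = q * al q.denom := by
      have := q.num_div_denom
      rw [div_eq_iff hd] at this
      exact this
    have h2 : q * f i0 = al (p0 : ℚ[X]) := div_mul_cancel₀ _ hi0
    rw [h1]
    apply mul_left_cancel₀ hi0
    linear_combination al q.denom * hY I - al q.denom * al (w I) * h2
  have hunit : IsUnit q.denom := by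
    apply hcop
    intro I
    have h1 : q.denom ∣ q.num * w I := ⟨_, (hY2 I).symm⟩
    exact (q.isCoprime_num_denom.symm).dvd_of_dvd_mul_left h1
  obtain ⟨u, hu⟩ := hunit.exists_left_inv
  refine ⟨cc, u * q.num, ?_, ?_⟩
  · apply mul_ne_zero
    · intro h1
      rw [h1, zero_mul] at hu
      exact zero_ne_one hu
    · exact RatFunc.num_ne_zero hq0
  · intro I
    have h1 := hY2 I
    calc ∑ k, C (cc k) * v' (k, I) = (u * q.denom) * ∑ k, C (cc k) * v' (k, I) := by
          rw [hu, one_mul]
      _ = u * (q.denom * ∑ k, C (cc k) * v' (k, I)) := by ring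
      _ = u * q.num * w I := by rw [h1]; ring

/-- in a finite dimensional space of vectors of power series the orders are bounded -/
lemma stab {N' : Type} (U : Submodule ℚ (N' → ℚ⟦X⟧)) [FiniteDimensional ℚ U] :
    ∃ K : ℕ, ∀ u ∈ U, (∀ I, (PowerSeries.X : ℚ⟦X⟧) ^ K ∣ u I) → u = 0 := by
  let S : ℕ → Submodule ℚ U := fun k =>
    { carrier := {u | ∀ I, (PowerSeries.X : ℚ⟦X⟧) ^ k ∣ (u : N' → ℚ⟦X⟧) I}
      add_mem' := fun {u v} hu hv I => dvd_add (hu I) (hv I)
      zero_mem' := fun I => dvd_zero _
      smul_mem' := fun c u hu I => by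
        have : (c • (u : N' → ℚ⟦X⟧)) I = PowerSeries.C c * (u : N' → ℚ⟦X⟧) I := by
          rw [Pi.smul_apply, PowerSeries.smul_eq_C_mul]
        change _ ∣ (c • (u : N' → ℚ⟦X⟧)) I
        rw [this]
        exact (hu I).mul_left _ }
  have hS : ∀ k l, k ≤ l → S l ≤ S k := by
    intro k l hkl u hu I
    exact (pow_dvd_pow _ hkl).trans (hu I)
  let f : ℕ →o (Submodule ℚ U)ᵒᵈ := ⟨fun k => OrderDual.toDual (S k), fun k l hkl => hS k l hkl⟩
  obtain ⟨n, hn⟩ := IsArtinian.monotone_stabilizes f
  refine ⟨n, fun u hu hd => ?_⟩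
  have h1 : (⟨u, hu⟩ : U) ∈ S n := hd
  funext I
  ext m
  have h2 : S n = S (max n (m + 1)) := hn _ (le_max_left _ _)
  rw [h2] at h1
  have h3 := h1 I
  rw [PowerSeries.X_pow_dvd_iff] at h3
  exact h3 m (lt_of_lt_of_le (Nat.lt_succ_self m) (le_max_right _ _))

end BddM

open BddM in
theorem specBdd : SpecBdd := by
  intro μ _ _ T B u r hT
  classical
  set M : Matrix (Fin (r + 1) → μ) (Fin (r + 1) → μ) ℚ[X] := fun J I =>
    ∑ a, ∑ i, if J = Function.update I a i then B i (I a) else 0 with hM
  have hdel : ∀ w : (Fin (r + 1) → μ) → ℚ[X], delT T B w = del T M w := by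
    intro w
    funext I
    unfold delT del
    congr 1
    simp only [hM, Finset.mul_sum]
    conv_rhs => rw [Finset.sum_comm]
    apply Finset.sum_congr rfl
    intro a _
    conv_rhs => rw [Finset.sum_comm]
    apply Finset.sum_congr rfl
    intro i _
    simp
  obtain ⟨κ, _, v, hv⟩ := fin_dim hT M
  have hfd : FiniteDimensional ℚ (Submodule.span ℚ (Set.range fun k => ctr u (v k))) :=
    FiniteDimensional.span_of_finite ℚ (Set.finite_range _)
  obtain ⟨K2, hK2⟩ := stab (Submodule.span ℚ (Set.range fun k => ctr u (v k)))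
  set K1 : ℕ := ∑ k, ∑ I, (v k I).natDegree with hK1
  refine ⟨K1 + K2, fun w a hw hcop => ?_⟩
  obtain ⟨c, g, hg, hcg⟩ := hv w a (fun I => by rw [← hdel]; exact hw I) hcop
  constructor
  · intro I
    by_cases hwI : w I = 0
    · rw [hwI]
      simp
    · have h1 : (w I).natDegree ≤ (g * w I).natDegree := by
        rw [natDegree_mul hg hwI]
        omega
      have h2 : (∑ k, C (c k) * v k I).natDegree ≤ K1 := by
        apply natDegree_sum_le_of_forall_le
        intro k _
        calc (C (c k) * v k I).natDegree ≤ (v k I).natDegree := natDegree_C_mul_le _ _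
          _ ≤ ∑ I, (v k I).natDegree :=
            Finset.single_le_sum (f := fun I => (v k I).natDegree) (fun _ _ => Nat.zero_le _)
              (Finset.mem_univ I)
          _ ≤ K1 := Finset.single_le_sum (f := fun k => ∑ I, (v k I).natDegree)
              (fun _ _ => Nat.zero_le _) (Finset.mem_univ k)
      rw [← hcg I] at h1
      omega
  · intro hne hdvd
    apply hne
    have h1 : ctr u (fun I => ∑ k, C (c k) * v k I) = ∑ k, c k • ctr u (v k) := by
      funext I
      simp only [ctr, Finset.sum_apply, Pi.smul_apply]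
      have h2 : ∀ p : ℚ[X], (p : ℚ⟦X⟧) = Polynomial.coeToPowerSeries.ringHom (R := ℚ) p :=
        fun p => rfl
      simp only [h2, map_sum, map_mul, Finset.mul_sum, Finset.smul_sum]
      rw [Finset.sum_comm]
      apply Finset.sum_congr rfl
      intro k _
      apply Finset.sum_congr rfl
      intro i _
      rw [PowerSeries.smul_eq_C_mul, ← h2, Polynomial.coe_C]
      ring
    have h2 : ctr u (fun I => ∑ k, C (c k) * v k I) = fun I => (g : ℚ⟦X⟧) * ctr u w I := by
      funext I
      simp only [ctr]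
      simp only [hcg, Polynomial.coe_mul, Finset.mul_sum]
      apply Finset.sum_congr rfl
      intro i _
      ring
    have h3 : (fun I => (g : ℚ⟦X⟧) * ctr u w I) = 0 := by
      apply hK2
      · rw [← h2, h1]
        apply Submodule.sum_mem
        intro k _
        exact Submodule.smul_mem _ _ (Submodule.subset_span ⟨k, rfl⟩)
      · intro I
        exact ((pow_dvd_pow _ (Nat.le_add_left K2 K1)).trans (hdvd I)).mul_left _
    funext I
    have h4 := congrFun h3 I
    have h5 : (g : ℚ⟦X⟧) ≠ 0 := by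
      intro h6
      exact hg (Polynomial.coe_eq_zero_iff.1 h6)
    exact (mul_eq_zero.1 h4).resolve_left h5

end Pool.Agent.Lib.MPf11a48.GF
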