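import Pool.Agent.Lib.MP_f11a48_ag.GF.Spec

/-!
# Module REM: the size of the remainders
-/

set_option autoImplicit false

namespace Pool.Agent.Lib.MPf11a48.GF

open Polynomial
open scoped PowerSeries

namespace RemM

/-- coefficients of a product of a polynomial and a power series -/
theorem coeff_bound {p : ℤ[X]} {D H : ℕ} (hD : p.natDegree ≤ D) (hH : ∀ i, |p.coeff i| ≤ H)
    {u : ℚ⟦X⟧} {C : ℕ} (hC : 1 ≤ C) (hu : ∀ n, |PowerSeries.coeff n u| ≤ (C : ℚ) ^ (n + 1))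
    (n : ℕ) : |PowerSeries.coeff n (((zq p : ℚ[X]) : ℚ⟦X⟧) * u)| ≤
      (2 : ℚ) ^ D * H * (C : ℚ) ^ (n + 1) := by
  rw [PowerSeries.coeff_mul]
  simp only [Polynomial.coeff_coe, coeff_map]
  rw [Finset.Nat.sum_antidiagonal_eq_sum_range_succ
    (fun i j => (Int.castRingHom ℚ (p.coeff i)) * PowerSeries.coeff j u) n]
  have hC' : (1 : ℚ) ≤ C := by exact_mod_cast hC
  have h1 : ∀ i ∈ Finset.range n.succ,
      |(Int.castRingHom ℚ (p.coeff i)) * PowerSeries.coeff (n - i) u| ≤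
        (if i ∈ Finset.range (D + 1) then (H : ℚ) * (C : ℚ) ^ (n + 1) else 0) := by
    intro i _
    rw [abs_mul]
    split_ifs with h
    · apply mul_le_mul _ _ (abs_nonneg _) (by positivity)
      · have := hH i
        rw [eq_intCast]
        exact_mod_cast this
      · exact (hu (n - i)).trans (pow_le_pow_right₀ hC' (by omega))
    · rw [Finset.mem_range] at h
      rw [coeff_eq_zero_of_natDegree_lt (by omega)]
      simp
  refine (Finset.abs_sum_le_sum_abs _ _).trans ((Finset.sum_le_sum h1).trans ?_)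
  rw [← Finset.sum_filter, Finset.sum_const, nsmul_eq_mul]
  have h2 : (Finset.filter (fun i => i ∈ Finset.range (D + 1)) (Finset.range n.succ)).card ≤
      2 ^ D := by
    calc _ ≤ (Finset.range (D + 1)).card := by
          apply Finset.card_le_card
          intro i hi
          exact (Finset.mem_filter.1 hi).2
      _ = D + 1 := Finset.card_range _
      _ ≤ 2 ^ D := Nat.lt_two_pow_self
  have h3 : ((Finset.filter (fun i => i ∈ Finset.range (D + 1)) (Finset.range n.succ)).card : ℚ) ≤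
      (2 : ℚ) ^ D := by exact_mod_cast h2
  calc _ ≤ (2 : ℚ) ^ D * ((H : ℚ) * (C : ℚ) ^ (n + 1)) :=
        mul_le_mul_of_nonneg_right h3 (by positivity)
    _ = _ := by ring

end RemM

open RemM in
theorem specRem : SpecRem := by
  intro μ _ u C hu
  set C1 : ℕ := max C 1 with hC1
  have hC11 : 1 ≤ C1 := le_max_right _ _
  have hCC1 : C ≤ C1 := le_max_left _ _
  have hu1 : ∀ c n, |PowerSeries.coeff n (u c)| ≤ (C1 : ℚ) ^ (n + 1) := fun c n => by
    refine (hu c n).trans ?_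
    have : C ^ (n + 1) ≤ C1 ^ (n + 1) := Nat.pow_le_pow_left hCC1 _
    exact_mod_cast this
  set M := Fintype.card μ with hM
  refine ⟨4 * C1 * (M + 1), ?_⟩
  intro P D H L k z hPD hPH hkL hdvd hz
  set R : ℚ⟦X⟧ := ∑ c, ((zq (P c) : ℚ[X]) : ℚ⟦X⟧) * u c with hR
  -- the coefficients of `R`
  have hRn : ∀ n, |PowerSeries.coeff n R| ≤ (M : ℚ) * ((2 : ℚ) ^ D * H * (C1 : ℚ) ^ (n + 1)) := by
    intro n
    rw [hR, map_sum]
    refine (Finset.abs_sum_le_sum_abs _ _).trans ?_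
    refine (Finset.sum_le_sum fun c _ => coeff_bound (hPD c) (hPH c) hC11 (hu1 c) n).trans ?_
    rw [Finset.sum_const, nsmul_eq_mul, Finset.card_univ]
  have hR0 : ∀ n, n < L → PowerSeries.coeff n R = 0 := PowerSeries.X_pow_dvd_iff.1 hdvd
  push_cast at hz
  have hz1 : 4 * (C1 : ℝ) * ‖z‖ ≤ 1 := by
    have h1 : 4 * (C1 : ℝ) * ‖z‖ ≤ 4 * C1 * (M + 1) * ‖z‖ := by
      apply mul_le_mul_of_nonneg_right _ (norm_nonneg z)
      have : (0 : ℝ) ≤ M := Nat.cast_nonneg _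
      have h2 : (0 : ℝ) ≤ C1 := Nat.cast_nonneg _
      nlinarith [mul_nonneg h2 this]
    linarith
  -- the terms
  set a : ℕ → ℂ := fun n => ((PowerSeries.coeff n (hs k R) : ℚ) : ℂ) * z ^ n with ha
  have ha0 : ∀ n, n < L - k → a n = 0 := by
    intro n hn
    simp only [ha, hs, PowerSeries.coeff_mk]
    rw [hR0 (n + k) (by omega)]
    simp
  have han : ∀ j, ‖a (j + (L - k))‖ ≤
      ((M : ℝ) * (2 ^ D * H * (C1 : ℝ) ^ (L + 1)) * 2 ^ L * ‖z‖ ^ (L - k)) * (1 / 2) ^ j := by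
    intro j
    simp only [ha, hs, PowerSeries.coeff_mk]
    rw [norm_mul, norm_pow, Complex.norm_ratCast]
    have e1 : j + (L - k) + k = j + L := by omega
    rw [e1]
    have h1 : |(((j + L).choose k : ℚ) * PowerSeries.coeff (j + L) R : ℚ)| ≤
        (2 : ℚ) ^ (j + L) * ((M : ℚ) * ((2 : ℚ) ^ D * H * (C1 : ℚ) ^ (j + L + 1))) := by
      rw [abs_mul, Nat.abs_cast]
      apply mul_le_mul _ (hRn (j + L)) (abs_nonneg _) (by positivity)
      have : (j + L).choose k ≤ 2 ^ (j + L) := Nat.choose_le_two_pow _ _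
      exact_mod_cast this
    have h2 : |(((((j + L).choose k : ℚ) * PowerSeries.coeff (j + L) R : ℚ)) : ℝ)| ≤
        (2 : ℝ) ^ (j + L) * ((M : ℝ) * ((2 : ℝ) ^ D * H * (C1 : ℝ) ^ (j + L + 1))) := by
      have h3 := (Rat.cast_le (K := ℝ)).2 h1
      rw [Rat.cast_abs] at h3
      push_cast at h3 ⊢
      exact h3
    refine (mul_le_mul_of_nonneg_right h2 (by positivity)).trans ?_
    have h4 : (2 : ℝ) ^ (j + L) * ((M : ℝ) * ((2 : ℝ) ^ D * H * (C1 : ℝ) ^ (j + L + 1))) *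
        ‖z‖ ^ (j + (L - k)) =
        ((M : ℝ) * (2 ^ D * H * (C1 : ℝ) ^ (L + 1)) * 2 ^ L * ‖z‖ ^ (L - k)) *
          (2 * C1 * ‖z‖) ^ j := by
      rw [mul_pow, mul_pow, pow_add 2 j L, pow_add ‖z‖ j (L - k),
        show j + L + 1 = j + (L + 1) by ring, pow_add (C1 : ℝ) j (L + 1)]
      ring
    rw [h4]
    apply mul_le_mul_of_nonneg_left _ (by positivity)
    apply pow_le_pow_left₀ (by positivity)
    linarith
  have hsum : Summable a := by
    rw [← summable_nat_add_iff (L - k)]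
    refine Summable.of_norm_bounded (g := fun j =>
      ((M : ℝ) * (2 ^ D * H * (C1 : ℝ) ^ (L + 1)) * 2 ^ L * ‖z‖ ^ (L - k)) * (1 / 2) ^ j) ?_ han
    exact (summable_geometric_of_lt_one (by norm_num) (by norm_num)).mul_left _
  have hval : pval (hs k R) z = ∑' j, a (j + (L - k)) := by
    change ∑' n, a n = _
    rw [← hsum.sum_add_tsum_nat_add (L - k)]
    rw [Finset.sum_eq_zero (fun n hn => ha0 n (Finset.mem_range.1 hn)), zero_add]
  rw [hval]
  refine (tsum_of_norm_bounded (hasSum_geometric_two.mul_left _) han).trans ?_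
  have hfin : (M : ℝ) * (2 ^ D * (C1 : ℝ) ^ (L + 1)) * 2 ^ L * 2 ≤
      (4 * (C1 : ℝ) * (M + 1)) ^ (D + L + 1) := by
    rw [mul_pow, mul_pow]
    have h5 : (2 : ℝ) ^ D * 2 ^ L * 2 ≤ 4 ^ (D + L + 1) := by
      calc (2 : ℝ) ^ D * 2 ^ L * 2 = 2 ^ (D + L + 1) := by rw [pow_add, pow_add, pow_one]
        _ ≤ 4 ^ (D + L + 1) := pow_le_pow_left₀ (by norm_num) (by norm_num) _
    have h6 : (C1 : ℝ) ^ (L + 1) ≤ (C1 : ℝ) ^ (D + L + 1) :=
      pow_le_pow_right₀ (by exact_mod_cast hC11) (by omega)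
    have h7 : (M : ℝ) ≤ ((M : ℝ) + 1) ^ (D + L + 1) := by
      have h8 : ((M : ℝ) + 1) ^ 1 ≤ ((M : ℝ) + 1) ^ (D + L + 1) :=
        pow_le_pow_right₀ (by linarith [(Nat.cast_nonneg M : (0 : ℝ) ≤ M)]) (by omega)
      rw [pow_one] at h8
      linarith
    calc (M : ℝ) * (2 ^ D * (C1 : ℝ) ^ (L + 1)) * 2 ^ L * 2 =
          (2 ^ D * 2 ^ L * 2) * (C1 : ℝ) ^ (L + 1) * M := by ring
      _ ≤ 4 ^ (D + L + 1) * (C1 : ℝ) ^ (D + L + 1) * ((M : ℝ) + 1) ^ (D + L + 1) := by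
          apply mul_le_mul (mul_le_mul h5 h6 (by positivity) (by positivity)) h7 (by positivity)
            (by positivity)
  have h9 : (M : ℝ) * (2 ^ D * H * (C1 : ℝ) ^ (L + 1)) * 2 ^ L * ‖z‖ ^ (L - k) * 2 =
      H * ((M : ℝ) * (2 ^ D * (C1 : ℝ) ^ (L + 1)) * 2 ^ L * 2) * ‖z‖ ^ (L - k) := by ring
  rw [h9]
  push_cast
  apply mul_le_mul_of_nonneg_right _ (by positivity)
  exact mul_le_mul_of_nonneg_left hfin (by positivity)

end Pool.Agent.Lib.MPf11a48.GF
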