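import Pool.Agent.Lib.MP_f11a48_ag.GF.Spec

/-!
# SHID: Shidlovsky's lemma
-/

set_option autoImplicit false

namespace Pool.Agent.Lib.MPf11a48.GF.ShidM

open Polynomial Matrix
open scoped PowerSeries

section Det

variable {n R : Type} [Fintype n] [DecidableEq n] [CommRing R]

theorem det_updateCol (N : Matrix n n R) (a : n) (v : n → R) :
    (N.updateCol a v).det = ∑ k, N.adjugate a k * v k := by
  rw [← Matrix.cramer_apply, Matrix.cramer_eq_adjugate_mulVec]
  rfl

theorem det_updateRow (N : Matrix n n R) (k : n) (v : n → R) :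
    (N.updateRow k v).det = ∑ a, N.adjugate a k * v a := by
  rw [← Matrix.det_transpose, ← Matrix.updateCol_transpose, det_updateCol,
    ← Matrix.adjugate_transpose]
  rfl

end Det

theorem derivative_det {n : Type} [Fintype n] [DecidableEq n] (N : Matrix n n ℚ[X]) :
    derivative N.det = ∑ a, (N.updateCol a fun k => derivative (N k a)).det := by
  rw [Matrix.det_apply', map_sum]
  simp only [Matrix.det_apply']
  rw [Finset.sum_comm]
  refine Finset.sum_congr rfl fun σ _ => ?_
  rw [derivative_mul, derivative_intCast, zero_mul, zero_add, derivative_prod_finset,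
    Finset.mul_sum]
  refine Finset.sum_congr rfl fun a _ => ?_
  congr 1
  rw [← Finset.prod_erase_mul _ _ (Finset.mem_univ a)]
  congr 1
  · refine Finset.prod_congr rfl fun i hi => ?_
    rw [Matrix.updateCol_ne (Finset.ne_of_mem_erase hi)]
  · rw [Matrix.updateCol_self]

variable {μ : Type}

/-- rows evaluated at columns -/
def mat {s : ℕ} {R : Type} (d : Fin s → μ → R) (I : Fin s → μ) : Matrix (Fin s) (Fin s) R :=
  Matrix.of fun k a => d k (I a)

theorem exists_det_ne_zero {R : Type} [CommRing R] [Nontrivial R] : ∀ {s : ℕ} (d : Fin s → μ → R),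
    LinearIndependent R d → ∃ I : Fin s → μ, (mat d I).det ≠ 0
  | 0, d, _ => ⟨Fin.elim0, by simp [mat]⟩
  | s + 1, d, h => by
    obtain ⟨I, hI⟩ := exists_det_ne_zero (fun k : Fin s => d k.succ)
      (h.comp Fin.succ (Fin.succ_injective s))
    by_contra hc
    push Not at hc
    rw [Fintype.linearIndependent_iff] at h
    have := h (fun k => (-1) ^ (k : ℕ) * (Matrix.of fun (k' : Fin s) b => d (k.succAbove k') (I b)).det)
      (by
        funext c
        have h1 := hc (Fin.cons c I)
        rw [Matrix.det_succ_column_zero] at h1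
        rw [Finset.sum_apply, Pi.zero_apply, ← h1]
        refine Finset.sum_congr rfl fun k _ => ?_
        have h2 : (mat d (Fin.cons c I)).submatrix k.succAbove Fin.succ =
            Matrix.of fun (k' : Fin s) b => d (k.succAbove k') (I b) := by
          ext k' b
          simp [mat]
        rw [h2]
        simp only [Pi.smul_apply, smul_eq_mul, mat, Matrix.of_apply, Fin.cons_zero]
        ring) 0
    apply hI
    simpa [mat, Fin.succAbove_zero] using this

theorem mat_update {s : ℕ} {R : Type} (d : Fin s → μ → R) (I : Fin s → μ) (a : Fin s) (i : μ) :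
    mat d (Function.update I a i) = (mat d I).updateCol a fun k => d k i := by
  ext k b
  by_cases h : b = a
  · subst h
    simp [mat]
  · simp [mat, h]

variable [Fintype μ]

/-- the system acts on determinants -/
theorem delT_det [DecidableEq μ] {s : ℕ} (T : ℚ[X]) (B : Matrix μ μ ℚ[X]) (d : Fin s → μ → ℚ[X]) (I : Fin s → μ) :
    delT T B (fun I => (mat d I).det) I =
      ∑ k, ((mat d I).updateRow k fun a => del T B (d k) (I a)).det := by
  simp only [delT, derivative_det, mat_update, det_updateCol, det_updateRow, del]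
  rw [Finset.mul_sum, ← Finset.sum_add_distrib, Finset.sum_comm]
  conv_rhs => rw [Finset.sum_comm]
  rw [Finset.sum_comm]
  refine Finset.sum_congr rfl fun a _ => ?_
  simp only [Finset.sum_mul, mul_add, Finset.mul_sum, Finset.sum_add_distrib]
  congr 1
  · refine Finset.sum_congr rfl fun k _ => ?_
    simp only [mat, Matrix.of_apply]
    ring
  · rw [Finset.sum_comm]
    refine Finset.sum_congr rfl fun k _ => Finset.sum_congr rfl fun i _ => ?_
    ring

theorem del_dd (T : ℚ[X]) (B : Matrix μ μ ℚ[X]) (P : μ → ℚ[X]) (k : ℕ) (j : μ) :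
    del T B (dd T B P k) j =
      (k + 1 : ℕ) * dd T B P (k + 1) j + (k : ℚ[X]) * derivative T * dd T B P k j := by
  have h : dd T B P (k + 1) j = C ((k + 1 : ℚ)⁻¹) *
      (del T B (dd T B P k) j - (k : ℚ[X]) * derivative T * dd T B P k j) := rfl
  have hk : ((k + 1 : ℕ) : ℚ[X]) * C ((k + 1 : ℚ)⁻¹) = 1 := by
    rw [← map_natCast (C : ℚ →+* ℚ[X]), ← C_mul, ← C_1]
    congr 1
    push_cast
    exact mul_inv_cancel₀ (by positivity)
  rw [h, ← mul_assoc, hk]
  ring

theorem det_row {r : ℕ} (T : ℚ[X]) (B : Matrix μ μ ℚ[X]) (P : μ → ℚ[X]) (κ : Fin r → ℕ)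
    (I : Fin r → μ) (k : Fin r) :
    ((mat (fun k => dd T B P (κ k)) I).updateRow k fun a => del T B (dd T B P (κ k)) (I a)).det =
      (κ k + 1 : ℕ) * ((mat (fun k => dd T B P (κ k)) I).updateRow k
        fun a => dd T B P (κ k + 1) (I a)).det +
      (κ k : ℚ[X]) * derivative T * (mat (fun k => dd T B P (κ k)) I).det := by
  have h := Matrix.updateRow_eq_self (mat (fun k => dd T B P (κ k)) I) k
  conv_rhs => rw [← h]
  simp only [Matrix.updateRow_idem]
  rw [det_updateRow, det_updateRow, det_updateRow, Finset.mul_sum, Finset.mul_sum,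
    ← Finset.sum_add_distrib]
  refine Finset.sum_congr rfl fun a _ => ?_
  rw [del_dd]
  simp only [mat, Matrix.of_apply]
  ring

/-- the minors of the first rows, when the next row is a combination of them -/
theorem delT_minor [DecidableEq μ] {r : ℕ} (T : ℚ[X]) (B : Matrix μ μ ℚ[X]) (P : μ → ℚ[X])
    (β : ℚ[X]) (b : Fin (r + 1) → ℚ[X])
    (hb : ∀ j, β * dd T B P (r + 1) j = ∑ k : Fin (r + 1), b k * dd T B P k j)
    (I : Fin (r + 1) → μ) :
    β * delT T B (fun I => (mat (fun k : Fin (r + 1) => dd T B P k) I).det) I =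
      ((r + 1 : ℕ) * b (Fin.last r) + β * ((∑ k : Fin (r + 1), ((k : ℕ) : ℚ[X])) * derivative T)) *
        (mat (fun k : Fin (r + 1) => dd T B P k) I).det := by
  rw [delT_det]
  have h1 : ∀ k : Fin (r + 1), ((mat (fun k : Fin (r + 1) => dd T B P k) I).updateRow k
      fun a => del T B (dd T B P k) (I a)).det = _ :=
    fun k => det_row T B P (fun k : Fin (r + 1) => (k : ℕ)) I k
  rw [Finset.sum_congr rfl fun k _ => h1 k, Finset.sum_add_distrib, mul_add, add_mul]
  congr 1
  · rw [Fin.sum_univ_castSucc]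
    have h2 : ∀ k : Fin r, ((mat (fun k : Fin (r + 1) => dd T B P k) I).updateRow k.castSucc
        fun a => dd T B P ((k.castSucc : ℕ) + 1) (I a)).det = 0 := by
      intro k
      have h3 : (fun a => dd T B P ((k.castSucc : ℕ) + 1) (I a)) =
          (mat (fun k : Fin (r + 1) => dd T B P k) I) k.succ := by
        funext a
        simp [mat]
      rw [h3]
      exact Matrix.det_updateRow_eq_zero (Fin.castSucc_lt_succ).ne'
    rw [Finset.sum_eq_zero fun k _ => by rw [h2 k, mul_zero], zero_add]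
    have h4 : β * ((mat (fun k : Fin (r + 1) => dd T B P k) I).updateRow (Fin.last r)
        fun a => dd T B P (((Fin.last r : Fin (r + 1)) : ℕ) + 1) (I a)).det =
        b (Fin.last r) * (mat (fun k : Fin (r + 1) => dd T B P k) I).det := by
      rw [← Matrix.det_updateRow_smul]
      have h5 : (β • fun a => dd T B P (((Fin.last r : Fin (r + 1)) : ℕ) + 1) (I a)) =
          ∑ k, b k • (mat (fun k : Fin (r + 1) => dd T B P k) I) k := by
        funext a
        rw [Finset.sum_apply]
        simpa [mat] using hb (I a)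
      rw [h5, Matrix.det_updateRow_sum]
      rfl
    simp only [Fin.val_last] at h4 ⊢
    linear_combination ((r + 1 : ℕ) : ℚ[X]) * h4
  · rw [← Finset.sum_mul, ← Finset.sum_mul]
    ring

theorem delT_mul [DecidableEq μ] {r : ℕ} (T : ℚ[X]) (B : Matrix μ μ ℚ[X]) (Δ : ℚ[X])
    (w : (Fin r → μ) → ℚ[X]) (I : Fin r → μ) :
    delT T B (fun I => Δ * w I) I = Δ * delT T B w I + T * derivative Δ * w I := by
  simp only [delT, derivative_mul, mul_add, Finset.mul_sum]
  rw [show T * (derivative Δ * w I) + T * (Δ * derivative (w I)) = Δ * (T * derivative (w I)) +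
    T * derivative Δ * w I by ring, add_right_comm]
  congr 2
  refine Finset.sum_congr rfl fun a _ => Finset.sum_congr rfl fun i _ => ?_
  ring

theorem exists_gcd {J : Type} [Fintype J] (W : J → ℚ[X]) (h : ∃ I, W I ≠ 0) :
    ∃ (Δ : ℚ[X]) (w c : J → ℚ[X]), Δ ≠ 0 ∧ (∀ I, W I = Δ * w I) ∧ ∑ I, c I * w I = 1 := by
  set Δ := Submodule.IsPrincipal.generator (Ideal.span (Set.range W)) with hΔ
  have h1 : ∀ I, Δ ∣ W I := fun I =>
    (Submodule.IsPrincipal.mem_iff_generator_dvd _).1 (Ideal.subset_span ⟨I, rfl⟩)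
  have h2 : Δ ∈ Ideal.span (Set.range W) := Submodule.IsPrincipal.generator_mem _
  obtain ⟨c, hc⟩ := Ideal.mem_span_range_iff_exists_fun.1 h2
  choose w hw using h1
  obtain ⟨I0, hI0⟩ := h
  have h3 : Δ ≠ 0 := fun h0 => hI0 (by rw [hw I0, h0, zero_mul])
  refine ⟨Δ, w, c, h3, hw, ?_⟩
  apply mul_left_cancel₀ h3
  rw [mul_one, Finset.mul_sum]
  conv_rhs => rw [← hc]
  refine Finset.sum_congr rfl fun I _ => ?_
  rw [hw I]
  ring

/-- a power of `X` dividing a product -/
theorem dvd_of_mul (g : ℚ⟦X⟧) : ∀ (j n : ℕ) (f : ℚ⟦X⟧), (PowerSeries.X : ℚ⟦X⟧) ^ n ∣ g * f →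
    ¬ (PowerSeries.X : ℚ⟦X⟧) ^ j ∣ f → (PowerSeries.X : ℚ⟦X⟧) ^ (n - j) ∣ g
  | 0, n, f, _, h => absurd (by simp) h
  | j + 1, n, f, h, hf => by
    by_cases hX : (PowerSeries.X : ℚ⟦X⟧) ∣ f
    · obtain ⟨e, rfl⟩ := hX
      rcases n with _ | n
      · simp
      · have h1 : (PowerSeries.X : ℚ⟦X⟧) ^ n ∣ g * e := by
          have h2 : (PowerSeries.X : ℚ⟦X⟧) * PowerSeries.X ^ n ∣ PowerSeries.X * (g * e) := by
            rw [← pow_succ']
            convert h using 1
            ring
          exact (mul_dvd_mul_iff_left PowerSeries.X_ne_zero).1 h2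
        have := dvd_of_mul g j n e h1 fun h3 => hf (by
          rw [pow_succ']
          exact mul_dvd_mul_left _ h3)
        simpa using this
    · exact (pow_dvd_pow _ (Nat.sub_le _ _)).trans
        (PowerSeries.X_prime.pow_dvd_of_dvd_mul_right n hX h)

theorem X_pow_dvd_coe {n : ℕ} {p : ℚ[X]} (h : (PowerSeries.X : ℚ⟦X⟧) ^ n ∣ (p : ℚ⟦X⟧)) :
    (X : ℚ[X]) ^ n ∣ p := by
  rw [Polynomial.X_pow_dvd_iff]
  intro d hd
  have := PowerSeries.X_pow_dvd_iff.1 h d hd
  simpa using this

theorem hs_dvd {L k : ℕ} {f : ℚ⟦X⟧} (h : (PowerSeries.X : ℚ⟦X⟧) ^ L ∣ f) :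
    (PowerSeries.X : ℚ⟦X⟧) ^ (L - k) ∣ hs k f := by
  rw [PowerSeries.X_pow_dvd_iff] at h ⊢
  intro m hm
  rw [hs, PowerSeries.coeff_mk, h (m + k) (by omega), mul_zero]

theorem dd_deg {T : ℚ[X]} {B : Matrix μ μ ℚ[X]} {P : μ → ℚ[X]} {m D : ℕ} (hT : T.natDegree ≤ m)
    (hB : ∀ i j, (B i j).natDegree ≤ m) (hP : ∀ c, (P c).natDegree ≤ D) :
    ∀ k c, (dd T B P k c).natDegree ≤ D + k * m
  | 0, c => by simpa [dd] using hP c
  | k + 1, c => by
    have ih := dd_deg hT hB hP k
    have h : dd T B P (k + 1) c = C ((k + 1 : ℚ)⁻¹) *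
      (del T B (dd T B P k) c - (k : ℚ[X]) * derivative T * dd T B P k c) := rfl
    rw [h, add_mul, one_mul, ← add_assoc]
    refine (natDegree_C_mul_le _ _).trans ((natDegree_sub_le _ _).trans (max_le ?_ ?_))
    · refine (natDegree_add_le _ _).trans (max_le ?_ ?_)
      · refine natDegree_mul_le.trans ?_
        have := (natDegree_derivative_le (dd T B P k c)).trans (Nat.sub_le _ _)
        have := ih c
        omega
      · refine natDegree_sum_le_of_forall_le _ _ fun i _ => natDegree_mul_le.trans ?_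
        have := ih i
        have := hB i c
        omega
    · refine natDegree_mul_le.trans ?_
      have h1 : ((k : ℚ[X]) * derivative T).natDegree ≤ m := by
        refine natDegree_mul_le.trans ?_
        rw [natDegree_natCast, zero_add]
        exact (natDegree_derivative_le _).trans ((Nat.sub_le _ _).trans hT)
      have := ih c
      omega

omit [Fintype μ] in
theorem det_deg {s E : ℕ} (d : Fin s → μ → ℚ[X]) (I : Fin s → μ)
    (h : ∀ k c, (d k c).natDegree ≤ E) : (mat d I).det.natDegree ≤ s * E := by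
  rw [Matrix.det_apply']
  refine natDegree_sum_le_of_forall_le _ _ fun σ _ => natDegree_mul_le.trans ?_
  rw [natDegree_intCast, zero_add]
  refine (natDegree_prod_le _ _).trans ((Finset.sum_le_sum fun i _ => h _ _).trans ?_)
  simp

/-- the first column is free -/
noncomputable def mat0 {r : ℕ} (d : Fin (r + 1) → μ → ℚ[X]) (I : Fin r → μ) :
    Matrix (Fin (r + 1)) (Fin (r + 1)) ℚ[X] :=
  Matrix.of fun k a => Fin.cases (motive := fun _ => ℚ[X]) 0 (fun b => d k (I b)) a

omit [Fintype μ] in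
theorem mat_cons {r : ℕ} (d : Fin (r + 1) → μ → ℚ[X]) (I : Fin r → μ) (i : μ) :
    mat d (Fin.cons i I) = (mat0 d I).updateCol 0 fun k => d k i := by
  ext1 k a
  refine Fin.cases ?_ (fun b => ?_) a
  · simp [mat]
  · simp [mat, mat0]

/-- the contraction of a minor -/
theorem ctr_minor {r : ℕ} (T : ℚ[X]) (B : Matrix μ μ ℚ[X]) (P : μ → ℚ[X]) (u : μ → ℚ⟦X⟧)
    (hs' : ∀ k, ∑ j, (dd T B P k j : ℚ⟦X⟧) * u j =
      (T : ℚ⟦X⟧) ^ k * hs k (∑ j, (P j : ℚ⟦X⟧) * u j)) (I : Fin r → μ) :
    ctr u (fun I => (mat (fun k : Fin (r + 1) => dd T B P k) I).det) I =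
      ∑ k : Fin (r + 1), ((mat0 (fun k : Fin (r + 1) => dd T B P k) I).adjugate 0 k : ℚ⟦X⟧) *
        ((T : ℚ⟦X⟧) ^ (k : ℕ) * hs k (∑ j, (P j : ℚ⟦X⟧) * u j)) := by
  simp only [ctr, mat_cons, det_updateCol]
  simp only [← hs', Finset.mul_sum]
  rw [Finset.sum_comm]
  refine Finset.sum_congr rfl fun i _ => ?_
  rw [← Polynomial.coeToPowerSeries.ringHom_apply, map_sum, Finset.mul_sum]
  refine Finset.sum_congr rfl fun k _ => ?_
  rw [map_mul, Polynomial.coeToPowerSeries.ringHom_apply, Polynomial.coeToPowerSeries.ringHom_apply]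
  ring

omit [Fintype μ] in
/-- moving the column `a` to the front -/
theorem adj_swap {r : ℕ} (d : Fin (r + 1) → μ → ℚ[X]) (I : Fin (r + 1) → μ) (a k : Fin (r + 1)) :
    (mat d I).adjugate a k = ((Equiv.Perm.sign (Equiv.swap 0 a) : ℤ) : ℚ[X]) *
      (mat0 d fun b => I (Equiv.swap 0 a b.succ)).adjugate 0 k := by
  have h1 : ∀ v : Fin (r + 1) → ℚ[X], ∑ k, (mat d I).adjugate a k * v k =
      ((Equiv.Perm.sign (Equiv.swap 0 a) : ℤ) : ℚ[X]) *
      ∑ k, (mat0 d fun b => I (Equiv.swap 0 a b.succ)).adjugate 0 k * v k := by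
    intro v
    rw [← det_updateCol, ← det_updateCol]
    have h2 : ((mat0 d fun b => I (Equiv.swap 0 a b.succ)).updateCol 0 v) =
        ((mat d I).updateCol a v).submatrix id (Equiv.swap 0 a) := by
      ext1 k b
      refine Fin.cases ?_ (fun c => ?_) b
      · simp
      · rw [Matrix.updateCol_ne (Fin.succ_ne_zero c), Matrix.submatrix_apply,
          Matrix.updateCol_ne]
        · simp [mat, mat0]
        · intro h
          have := congrArg (Equiv.swap 0 a) h
          rw [Equiv.swap_apply_self] at this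
          simp at this
    rw [h2, Matrix.det_permute', ← mul_assoc, ← Int.cast_mul, ← Units.val_mul, Int.units_mul_self,
      Units.val_one, Int.cast_one, one_mul]
  have := h1 (Pi.single k 1)
  simpa [Pi.single_apply] using this

end Pool.Agent.Lib.MPf11a48.GF.ShidM

namespace Pool.Agent.Lib.MPf11a48.GF

open Polynomial Matrix ShidM
open scoped PowerSeries

theorem specShid (hBdd : SpecBdd) (hSolv : SpecSolv) : SpecShid := by
  intro μ _ _ T B u hT hsol hind
  choose K hK using fun r => hBdd μ T B u r hT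
  obtain ⟨m, hmT, hmB⟩ : ∃ m : ℕ, T.natDegree ≤ m ∧ ∀ i j, (B i j).natDegree ≤ m :=
    ⟨T.natDegree + ∑ i, ∑ j, (B i j).natDegree, Nat.le_add_right _ _, fun i j =>
      ((Finset.single_le_sum (f := fun j => (B i j).natDegree) (fun _ _ => Nat.zero_le _)
        (Finset.mem_univ j)).trans (Finset.single_le_sum (f := fun i => ∑ j, (B i j).natDegree)
        (fun _ _ => Nat.zero_le _) (Finset.mem_univ i))).trans (Nat.le_add_left _ _)⟩
  set M := Fintype.card μ with hM
  refine ⟨M * (M * m) + M + ∑ r ∈ Finset.range M, K r, ?_⟩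
  intro P D L hP hD hL hlt
  by_contra hdep
  -- the least dependent initial segment
  have hex : ∃ s : ℕ, ¬ LinearIndependent ℚ[X] fun k : Fin s => dd T B P k := ⟨M, hdep⟩
  classical
  set s := Nat.find hex with hsdef
  have hs1 : ¬ LinearIndependent ℚ[X] fun k : Fin s => dd T B P k := Nat.find_spec hex
  have hs2 : ∀ s' < s, LinearIndependent ℚ[X] fun k : Fin s' => dd T B P k := fun s' h =>
    not_not.1 (Nat.find_min hex h)
  have hsM : s ≤ M := Nat.find_min' hex hdep
  have h01 : 2 ≤ s := by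
    by_contra hc
    apply hs1
    have : s = 0 ∨ s = 1 := by omega
    rcases this with h | h
    · rw [h]
      exact linearIndependent_empty_type
    · rw [h, Fintype.linearIndependent_iff]
      intro g hg i
      rw [Fin.sum_univ_one] at hg
      obtain ⟨c, hc⟩ := Function.ne_iff.1 hP
      have := congrFun hg c
      simp only [Pi.smul_apply, smul_eq_mul, Pi.zero_apply, mul_eq_zero] at this
      rw [Subsingleton.elim i 0]
      exact this.resolve_right hc
  obtain ⟨r, hr⟩ : ∃ r, s = r + 2 := ⟨s - 2, by omega⟩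
  rw [hr] at hs1
  have hind' := hs2 (r + 1) (by omega)
  -- the relation
  obtain ⟨β, b, hβ, hb⟩ : ∃ (β : ℚ[X]) (b : Fin (r + 1) → ℚ[X]), β ≠ 0 ∧
      ∀ j, β * dd T B P (r + 1) j = ∑ k : Fin (r + 1), b k * dd T B P k j := by
    rw [Fintype.not_linearIndependent_iff] at hs1
    obtain ⟨g, hg, i, hi⟩ := hs1
    rw [Fin.sum_univ_castSucc] at hg
    refine ⟨g (Fin.last _), fun k => - g k.castSucc, fun h0 => ?_, fun j => ?_⟩
    · rw [h0, zero_smul, add_zero] at hg
      have h1 := Fintype.linearIndependent_iff.1 hind' (fun k => g k.castSucc) (by simpa using hg)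
      revert hi
      refine Fin.lastCases ?_ (fun k => ?_) i
      · exact fun h => h h0
      · exact fun h => h (h1 k)
    · have := congrFun hg j
      simp only [Pi.add_apply, Finset.sum_apply, Pi.smul_apply, smul_eq_mul, Pi.zero_apply,
        Fin.val_castSucc, Fin.val_last] at this
      rw [eq_neg_of_add_eq_zero_right this, ← Finset.sum_neg_distrib]
      refine Finset.sum_congr rfl fun k _ => ?_
      ring
  set W : (Fin (r + 1) → μ) → ℚ[X] :=
    fun I => (mat (fun k : Fin (r + 1) => dd T B P k) I).det with hW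
  obtain ⟨I0, hI0⟩ := exists_det_ne_zero _ hind'
  have hδ := fun I => delT_minor T B P β b hb I
  obtain ⟨Δ, w, c, hΔ, hw, hc⟩ := exists_gcd W ⟨I0, hI0⟩
  -- `w` is an eigenvector
  set γ : ℚ[X] := ((r + 1 : ℕ) * b (Fin.last r) +
    β * ((∑ k : Fin (r + 1), ((k : ℕ) : ℚ[X])) * derivative T)) with hγ
  have hWw : W = fun I => Δ * w I := funext hw
  have h1 : ∀ I, β * Δ * delT T B w I = (γ * Δ - β * T * derivative Δ) * w I := by
    intro I
    have h2 : β * delT T B W I = γ * W I := hδ I
    rw [hWw, delT_mul] at h2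
    linear_combination h2
  have h3 : β * Δ * (∑ I, c I * delT T B w I) = γ * Δ - β * T * derivative Δ := by
    calc β * Δ * (∑ I, c I * delT T B w I) = ∑ I, c I * (β * Δ * delT T B w I) := by
          rw [Finset.mul_sum]
          refine Finset.sum_congr rfl fun I _ => ?_
          ring
      _ = ∑ I, (γ * Δ - β * T * derivative Δ) * (c I * w I) := by
          refine Finset.sum_congr rfl fun I _ => ?_
          rw [h1]
          ring
      _ = _ := by rw [← Finset.mul_sum, hc, mul_one]
  have h4 : ∀ I, delT T B w I = (∑ I, c I * delT T B w I) * w I := by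
    intro I
    apply mul_left_cancel₀ (mul_ne_zero hβ hΔ)
    rw [h1, ← h3]
    ring
  obtain ⟨-, hK2⟩ := hK r w _ h4 fun p hp => isUnit_of_dvd_one (by
    rw [← hc]
    exact Finset.dvd_sum fun I _ => (hp I).mul_left _)
  -- contractions
  have hR : ∑ j, (P j : ℚ⟦X⟧) * u j ≠ 0 := fun h => hP (hind P h)
  have hsv := fun k => hSolv μ T B u hsol P k
  have hctr : ∀ I, ctr u W I = (Δ : ℚ⟦X⟧) * ctr u w I := by
    intro I
    simp only [ctr, hw, Finset.mul_sum, Polynomial.coe_mul]
    refine Finset.sum_congr rfl fun i _ => ?_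
    ring
  have hne : ctr u w ≠ 0 := by
    intro h0
    have h5 : ∀ I, ctr u W I = 0 := fun I => by rw [hctr, h0, Pi.zero_apply, mul_zero]
    have h6 : ∀ a, ∑ k : Fin (r + 1), ((mat (fun k : Fin (r + 1) => dd T B P k) I0).adjugate a k :
        ℚ⟦X⟧) * ((T : ℚ⟦X⟧) ^ (k : ℕ) * hs k (∑ j, (P j : ℚ⟦X⟧) * u j)) = 0 := by
      intro a
      have h7 := h5 fun b => I0 (Equiv.swap 0 a b.succ)
      rw [hW, ctr_minor T B P u hsv] at h7
      simp only [adj_swap _ I0 a, Polynomial.coe_mul, mul_assoc]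
      rw [← Finset.mul_sum, h7, mul_zero]
    set N := (mat (fun k : Fin (r + 1) => dd T B P k) I0) with hN
    set f : ℚ[X] →+* ℚ⟦X⟧ := Polynomial.coeToPowerSeries.ringHom with hf
    set ρ : Fin (r + 1) → ℚ⟦X⟧ := fun k => (T : ℚ⟦X⟧) ^ (k : ℕ) *
      hs k (∑ j, (P j : ℚ⟦X⟧) * u j) with hρ
    have h8 : (f.mapMatrix N.adjugate) *ᵥ ρ = 0 := by
      funext a
      exact h6 a
    have h9 : (f.mapMatrix N) *ᵥ ((f.mapMatrix N.adjugate) *ᵥ ρ) = f N.det • ρ := by
      rw [Matrix.mulVec_mulVec, ← map_mul, Matrix.mul_adjugate]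
      funext k
      simp [Matrix.mulVec, dotProduct, Matrix.one_apply, apply_ite f]
    rw [h8, Matrix.mulVec_zero] at h9
    have h10 := congrFun h9 0
    have h11 : f N.det ≠ 0 := by
      intro h
      apply hI0
      exact Polynomial.coe_injective ℚ (by simpa [hf] using h)
    simp only [Pi.zero_apply, Pi.smul_apply, smul_eq_mul, hρ, Fin.val_zero, pow_zero,
      one_mul] at h10
    have h12 : hs 0 (∑ j, (P j : ℚ⟦X⟧) * u j) = ∑ j, (P j : ℚ⟦X⟧) * u j := by
      ext n
      simp [hs]
    rw [h12] at h10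
    exact (mul_ne_zero h11 hR) h10.symm
  obtain ⟨I1, hI1⟩ := not_forall.1 (hK2 hne)
  have hdiv : (PowerSeries.X : ℚ⟦X⟧) ^ (L - r) ∣ (Δ : ℚ⟦X⟧) * ctr u w I1 := by
    rw [← hctr, hW, ctr_minor T B P u hsv]
    refine Finset.dvd_sum fun k _ => Dvd.dvd.mul_left (Dvd.dvd.mul_left ?_ _) _
    exact (pow_dvd_pow _ (by have := k.2; omega)).trans (hs_dvd (k := (k : ℕ)) hL)
  have hX := X_pow_dvd_coe (dvd_of_mul _ _ _ _ hdiv hI1)
  have hX2 := Polynomial.natDegree_le_of_dvd (hX.trans (Dvd.intro _ (hw I0).symm)) hI0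
  rw [Polynomial.natDegree_X_pow] at hX2
  have hX3 := hX2.trans (det_deg (fun k : Fin (r + 1) => dd T B P k) I0 (E := D + M * m)
    fun k c => (dd_deg hmT hmB hD k c).trans (by
      have h13 : (k : ℕ) ≤ M := by have := k.2; omega
      have := Nat.mul_le_mul_right m h13
      omega))
  have hKr : K r ≤ ∑ r ∈ Finset.range M, K r :=
    Finset.single_le_sum (fun _ _ => Nat.zero_le _) (Finset.mem_range.2 (by omega))
  have h14 : (r + 1) * (D + M * m) ≤ (M - 1) * D + M * (M * m) := by
    rw [mul_add]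
    exact add_le_add (Nat.mul_le_mul_right D (by omega)) (Nat.mul_le_mul_right _ (by omega))
  omega

end Pool.Agent.Lib.MPf11a48.GF
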