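import Pool.Agent.Lib.MP_f11a48_ag.GF.Spec

/-!
# Module SIEG: Padé approximants of the first kind, by Siegel's lemma
-/

set_option autoImplicit false

namespace Pool.Agent.Lib.MPf11a48.GF

open Polynomial Matrix
open scoped PowerSeries

namespace SiegM

/-- the polynomial with given coefficients below `n` -/
noncomputable def pol {n : ℕ} (f : Fin n → ℤ) : ℤ[X] :=
  ∑ i ∈ Finset.range n, monomial i (if h : i < n then f ⟨i, h⟩ else 0)

theorem pol_coeff {n : ℕ} (f : Fin n → ℤ) (i : ℕ) :
    (pol f).coeff i = if h : i < n then f ⟨i, h⟩ else 0 := by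
  unfold pol
  rw [finsetSum_coeff]
  simp only [coeff_monomial]
  rw [Finset.sum_ite_eq']
  split_ifs with h1 h2 h2
  · rfl
  · exact absurd (Finset.mem_range.1 h1) h2
  · exact absurd (Finset.mem_range.2 h2) h1
  · rfl

theorem pol_natDegree {n : ℕ} (hn : 0 < n) (f : Fin n → ℤ) : (pol f).natDegree < n := by
  have h1 : (pol f).natDegree ≤ n - 1 := by
    rw [natDegree_le_iff_coeff_eq_zero]
    intro N hN
    rw [pol_coeff, dif_neg (by omega)]
  omega

/-- the coefficients of a product -/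
theorem coeff_mul {n : ℕ} (f : Fin n → ℤ) (u : ℚ⟦X⟧) (l : ℕ) :
    PowerSeries.coeff l (((zq (pol f) : ℚ[X]) : ℚ⟦X⟧) * u) =
      ∑ i : Fin n, if (i : ℕ) ≤ l then (f i : ℚ) * PowerSeries.coeff (l - i) u else 0 := by
  rw [PowerSeries.coeff_mul]
  simp only [Polynomial.coeff_coe, coeff_map, pol_coeff]
  rw [Finset.Nat.sum_antidiagonal_eq_sum_range_succ
    (fun i j => (Int.castRingHom ℚ (if h : i < n then f ⟨i, h⟩ else 0)) *
      PowerSeries.coeff j u) l]
  have h1 : ∑ i : Fin n, (if (i : ℕ) ≤ l then (f i : ℚ) * PowerSeries.coeff (l - i) u else 0) =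
      ∑ i ∈ Finset.range n, (if i ≤ l then
        (Int.castRingHom ℚ (if h : i < n then f ⟨i, h⟩ else 0)) *
          PowerSeries.coeff (l - i) u else 0) := by
    rw [Finset.sum_range]
    apply Finset.sum_congr rfl
    intro i _
    rw [dif_pos i.2]
    rfl
  rw [h1]
  have h2 : ∑ k ∈ Finset.range l.succ,
      (Int.castRingHom ℚ (if h : k < n then f ⟨k, h⟩ else 0)) * PowerSeries.coeff (l - k) u =
      ∑ i ∈ Finset.range (n + l.succ), (if i ≤ l then
        (Int.castRingHom ℚ (if h : i < n then f ⟨i, h⟩ else 0)) *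
          PowerSeries.coeff (l - i) u else 0) := by
    have h4 := Finset.sum_subset (s₁ := Finset.range l.succ) (s₂ := Finset.range (n + l.succ))
      (f := fun i => (if i ≤ l then
        (Int.castRingHom ℚ (if h : i < n then f ⟨i, h⟩ else 0)) *
          PowerSeries.coeff (l - i) u else 0)) (by
        intro i hi
        rw [Finset.mem_range] at hi ⊢
        omega) (by
        intro i _ hi
        rw [if_neg (by rw [Finset.mem_range] at hi; omega)])
    rw [← h4]
    apply Finset.sum_congr rfl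
    intro i hi
    rw [if_pos (by have := Finset.mem_range.1 hi; omega)]
  have h3 : ∑ i ∈ Finset.range n, (if i ≤ l then
        (Int.castRingHom ℚ (if h : i < n then f ⟨i, h⟩ else 0)) *
          PowerSeries.coeff (l - i) u else 0) =
      ∑ i ∈ Finset.range (n + l.succ), (if i ≤ l then
        (Int.castRingHom ℚ (if h : i < n then f ⟨i, h⟩ else 0)) *
          PowerSeries.coeff (l - i) u else 0) := by
    apply Finset.sum_subset
    · intro i hi
      rw [Finset.mem_range] at hi ⊢
      omega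
    · intro i _ hi
      rw [dif_neg (by rw [Finset.mem_range] at hi; exact hi), map_zero, zero_mul, ite_self]
  rw [h2, h3]

end SiegM

attribute [local instance] Matrix.seminormedAddCommGroup in
open SiegM in
theorem specSieg : SpecSieg := by
  classical
  intro μ _ _ u hu r hr
  obtain ⟨C, hC⟩ := hu
  set M := Fintype.card μ with hM
  have hM1 : 1 ≤ M := Fintype.card_pos
  set C1 : ℕ := max C 1 with hC1
  have hC11 : 1 ≤ C1 := le_max_right _ _
  have hCC1 : C ≤ C1 := le_max_left _ _
  refine ⟨(2 * M * C1 ^ (2 * M)) ^ (M * r - 1), ?_⟩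
  intro k hk
  set L : ℕ := M * (r * k) - k with hL
  have hMr : 2 ≤ M * r := by nlinarith
  have hLe : L = (M * r - 1) * k := by
    rw [hL, Nat.sub_mul, one_mul, mul_assoc]
  have hL1 : 1 ≤ L := by
    rw [hLe]
    exact Nat.mul_pos (by omega) hk
  have hkM : k ≤ M * (r * k) := by nlinarith [Nat.mul_le_mul_right k hMr]
  have hLk : L + k = M * (r * k) := by omega
  have hrk : 1 ≤ r * k := Nat.mul_pos (by omega) hk
  obtain ⟨q, hq0, hqC, hqint, -⟩ := hC L
  choose Z hZ using hqint
  -- the matrix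
  let A : Matrix (Fin L) (μ × Fin (r * k)) ℤ := fun l x =>
    if h : (x.2 : ℕ) ≤ l then Z x.1 (l - x.2) (by omega) else 0
  have hcard1 : Fintype.card (Fin L) = L := Fintype.card_fin L
  have hcard2 : Fintype.card (μ × Fin (r * k)) = M * (r * k) := by
    rw [Fintype.card_prod, Fintype.card_fin]
  obtain ⟨t, ht0, htA, htn⟩ := Int.Matrix.exists_ne_zero_int_vec_norm_le A
    (by rw [hcard1, hcard2]; omega) (by rw [hcard1]; omega)
  -- the size of the matrix
  have hqC1 : (q : ℚ) ≤ (C1 : ℚ) ^ (L + 1) := by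
    have h1 : q ≤ C1 ^ (L + 1) := hqC.trans (Nat.pow_le_pow_left hCC1 _)
    exact_mod_cast h1
  have hcoef : ∀ c j, j ≤ L → |PowerSeries.coeff j (u c)| ≤ (C1 : ℚ) ^ (L + 1) := by
    intro c j hj
    obtain ⟨-, -, -, -, h1⟩ := hC j
    refine (h1 c).trans ?_
    have h2 : C ^ (j + 1) ≤ C1 ^ (L + 1) :=
      (Nat.pow_le_pow_left hCC1 _).trans (Nat.pow_le_pow_right hC11 (by omega))
    exact_mod_cast h2
  have hZle : ∀ c j (hj : j ≤ L), |(Z c j hj : ℤ)| ≤ (C1 : ℤ) ^ (2 * (L + 1)) := by
    intro c j hj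
    have h1 : |((Z c j hj : ℤ) : ℚ)| ≤ (C1 : ℚ) ^ (2 * (L + 1)) := by
      rw [← hZ c j hj, abs_mul, Nat.abs_cast, two_mul, pow_add]
      exact mul_le_mul hqC1 (hcoef c j hj) (abs_nonneg _) (by positivity)
    exact_mod_cast h1
  have hAn : ‖A‖ ≤ (C1 : ℝ) ^ (2 * (L + 1)) := by
    rw [Matrix.norm_le_iff (by positivity)]
    intro i x
    rw [Int.norm_eq_abs, ← Int.cast_abs]
    have h1 : |A i x| ≤ (C1 : ℤ) ^ (2 * (L + 1)) := by
      simp only [A]
      split_ifs with h
      · exact hZle _ _ _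
      · rw [abs_zero]; positivity
    exact_mod_cast h1
  have hmaxA : max 1 ‖A‖ ≤ (C1 : ℝ) ^ (2 * (L + 1)) := by
    refine max_le ?_ hAn
    apply one_le_pow₀
    exact_mod_cast hC11
  -- the size of the solution
  have htle : ‖t‖ ≤ (((2 * M * C1 ^ (2 * M)) ^ (M * r - 1) : ℕ) : ℝ) ^ (r * k) := by
    refine htn.trans ?_
    have hexp : ((Fintype.card (Fin L) : ℕ) : ℝ) /
        ((Fintype.card (μ × Fin (r * k)) : ℕ) - (Fintype.card (Fin L) : ℕ)) =
        ((M * r - 1 : ℕ) : ℝ) := by
      rw [hcard1, hcard2, ← hLk]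
      push_cast
      rw [add_sub_cancel_left, hLe, Nat.cast_mul, mul_div_assoc, div_self, mul_one]
      have : (0 : ℝ) < k := by exact_mod_cast hk
      exact this.ne'
    rw [hexp, Real.rpow_natCast, Nat.cast_pow, ← pow_mul, mul_comm (M * r - 1) (r * k), pow_mul]
    apply pow_le_pow_left₀ (by positivity)
    rw [hcard2]
    have h1 : (((M * (r * k) : ℕ) : ℝ)) * max 1 ‖A‖ ≤
        ((M * (r * k) : ℕ) : ℝ) * (C1 : ℝ) ^ (2 * (L + 1)) :=
      mul_le_mul_of_nonneg_left hmaxA (by positivity)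
    refine h1.trans ?_
    have h2 : M * (r * k) * C1 ^ (2 * (L + 1)) ≤ (2 * M * C1 ^ (2 * M)) ^ (r * k) := by
      rw [mul_pow, mul_pow]
      apply Nat.mul_le_mul
      · rw [mul_comm]
        apply Nat.mul_le_mul
        · exact (Nat.lt_two_pow_self).le
        · calc M = M ^ 1 := (pow_one M).symm
            _ ≤ M ^ (r * k) := Nat.pow_le_pow_right hM1 hrk
      · rw [← pow_mul]
        apply Nat.pow_le_pow_right hC11
        have h3 : 2 * M * (r * k) = 2 * (L + k) := by rw [hLk]; ring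
        rw [h3]
        omega
    exact_mod_cast h2
  refine ⟨fun c => pol (fun i => t (c, i)), ?_, fun c => pol_natDegree hrk _, ?_, ?_⟩
  · intro h0
    apply ht0
    funext x
    have h1 := congrArg (fun f => (f x.1).coeff x.2) h0
    simp only [pol_coeff, Pi.zero_apply, coeff_zero] at h1
    rw [dif_pos x.2.2] at h1
    exact h1
  · intro c i
    rw [pol_coeff]
    split_ifs with h
    · have h1 : ‖t (c, ⟨i, h⟩)‖ ≤ ‖t‖ := norm_le_pi_norm t _
      have h2 := h1.trans htle
      rw [Int.norm_eq_abs, ← Int.cast_abs] at h2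
      exact_mod_cast h2
    · rw [abs_zero]; positivity
  · rw [PowerSeries.X_pow_dvd_iff]
    intro l hl
    rw [map_sum]
    have hq : (q : ℚ) ≠ 0 := by
      have : 0 < q := hq0
      exact_mod_cast this.ne'
    have h0 := congrFun htA ⟨l, hl⟩
    rw [Matrix.mulVec, dotProduct, Fintype.sum_prod_type] at h0
    have h1 : (q : ℚ) * ∑ c, PowerSeries.coeff l
        (((zq (pol (fun i => t (c, i))) : ℚ[X]) : ℚ⟦X⟧) * u c) = 0 := by
      have h2 : ((∑ c, ∑ i, A ⟨l, hl⟩ (c, i) * t (c, i) : ℤ) : ℚ) = 0 := by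
        rw [h0]; simp
      rw [← h2, Finset.mul_sum, Int.cast_sum]
      apply Finset.sum_congr rfl
      intro c _
      rw [coeff_mul, Finset.mul_sum, Int.cast_sum]
      apply Finset.sum_congr rfl
      intro i _
      simp only [A]
      split_ifs with h
      · rw [Int.cast_mul, ← hZ]
        ring
      · simp
    exact (mul_eq_zero.1 h1).resolve_left hq

end Pool.Agent.Lib.MPf11a48.GF
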