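import Pool.Agent.Lib.MP_f11a48_ag.GF.Shid

/-!
# ZERO: the values of the first vectors at a point
-/

set_option autoImplicit false

namespace Pool.Agent.Lib.MPf11a48.GF.ZeroM

open Polynomial Matrix ShidM
open scoped PowerSeries

theorem pow_dvd_of_derivative {p : ℚ[X]} {ξ : ℚ} {j : ℕ} (h0 : p.eval ξ = 0)
    (h : (X - C ξ) ^ (j + 1) ∣ derivative p) : (X - C ξ) ^ (j + 2) ∣ p := by
  by_cases hp : p = 0
  · rw [hp]
    exact dvd_zero _
  · have hp' : derivative p ≠ 0 := by
      intro h1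
      obtain ⟨c, rfl⟩ : ∃ c, p = C c := ⟨_, eq_C_of_derivative_eq_zero h1⟩
      rw [eval_C] at h0
      exact hp (by rw [h0, C_0])
    rw [← le_rootMultiplicity_iff hp'] at h
    rw [derivative_rootMultiplicity_of_root h0] at h
    rw [← le_rootMultiplicity_iff hp]
    omega

variable {μ : Type} [Fintype μ] [DecidableEq μ]

/-- the determinant of the rows `dd (κ i)` -/
noncomputable def De {s : ℕ} (T : ℚ[X]) (B : Matrix μ μ ℚ[X]) (P : μ → ℚ[X]) (I : Fin s → μ)
    (κ : Fin s → ℕ) : ℚ[X] := (mat (fun i => dd T B P (κ i)) I).det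

theorem dvd_derivative {s : ℕ} {T : ℚ[X]} {B : Matrix μ μ ℚ[X]} {P : μ → ℚ[X]} {I : Fin s → μ}
    (hI : Function.Bijective I) (κ : Fin s → ℕ) (q : ℚ[X]) (h0 : q ∣ De T B P I κ)
    (h1 : ∀ i, q ∣ De T B P I (Function.update κ i (κ i + 1))) :
    q ∣ T * derivative (De T B P I κ) := by
  have h2 := delT_det T B (fun i => dd T B P (κ i)) I
  rw [Finset.sum_congr rfl fun k _ => det_row T B P κ I k] at h2
  have h3 : delT T B (fun I => (mat (fun i => dd T B P (κ i)) I).det) I =
      T * derivative (De T B P I κ) + ∑ a, ∑ i,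
        (mat (fun i => dd T B P (κ i)) (Function.update I a i)).det * B i (I a) := rfl
  rw [h3] at h2
  have h4 : q ∣ ∑ a, ∑ i,
      (mat (fun i => dd T B P (κ i)) (Function.update I a i)).det * B i (I a) := by
    refine Finset.dvd_sum fun a _ => Finset.dvd_sum fun i _ => Dvd.dvd.mul_right ?_ _
    obtain ⟨b, rfl⟩ := hI.2 i
    by_cases hab : b = a
    · subst hab
      rw [Function.update_eq_self]
      exact h0
    · rw [mat_update]
      have : (fun k => dd T B P (κ k) (I b)) = fun k => mat (fun i => dd T B P (κ i)) I k b := rfl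
      rw [this, Matrix.det_updateCol_eq_zero hab]
      exact dvd_zero _
  have h5 : q ∣ ∑ k, (((κ k + 1 : ℕ) : ℚ[X]) * ((mat (fun k => dd T B P (κ k)) I).updateRow k
        fun a => dd T B P (κ k + 1) (I a)).det +
      (κ k : ℚ[X]) * derivative T * (mat (fun k => dd T B P (κ k)) I).det) := by
    refine Finset.dvd_sum fun k _ => dvd_add (Dvd.dvd.mul_left ?_ _) (Dvd.dvd.mul_left h0 _)
    have h6 : (mat (fun k => dd T B P (κ k)) I).updateRow k (fun a => dd T B P (κ k + 1) (I a)) =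
        mat (fun i => dd T B P (Function.update κ k (κ k + 1) i)) I := by
      ext1 i a
      by_cases hik : i = k
      · subst hik
        simp [mat]
      · simp [mat, hik]
    rw [h6]
    exact h1 k
  exact (dvd_add_left h4).1 (h2 ▸ h5)

theorem dvd_of_zero {s : ℕ} {T : ℚ[X]} {B : Matrix μ μ ℚ[X]} {P : μ → ℚ[X]} {I : Fin s → μ}
    (hI : Function.Bijective I) {ξ : ℚ} (hT : T.eval ξ ≠ 0) {Q : ℕ}
    (h : ∀ κ : Fin s → ℕ, (∀ i, κ i ≤ Q) → (De T B P I κ).eval ξ = 0) :
    ∀ (j : ℕ) (κ : Fin s → ℕ), (∀ i, κ i + j ≤ Q) → (X - C ξ) ^ (j + 1) ∣ De T B P I κ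
  | 0, κ, hκ => by
    rw [zero_add, pow_one, dvd_iff_isRoot]
    exact h κ fun i => by simpa using hκ i
  | j + 1, κ, hκ => by
    refine pow_dvd_of_derivative (h κ fun i => by have := hκ i; omega) ?_
    have h1 : (X - C ξ) ^ (j + 1) ∣ T * derivative (De T B P I κ) := by
      refine dvd_derivative hI κ _ (dvd_of_zero hI hT h j κ fun i => by have := hκ i; omega)
        fun i => dvd_of_zero hI hT h j _ fun i' => ?_
      have h2 := hκ i'
      by_cases hi : i' = i
      · subst hi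
        rw [Function.update_self]
        omega
      · rw [Function.update_of_ne hi]
        omega
    have h3 : IsCoprime ((X - C ξ) ^ (j + 1)) T := by
      refine IsCoprime.pow_left ?_
      rw [Irreducible.coprime_iff_not_dvd (irreducible_X_sub_C ξ), dvd_iff_isRoot]
      exact hT
    exact h3.dvd_of_dvd_mul_left h1

end Pool.Agent.Lib.MPf11a48.GF.ZeroM

namespace Pool.Agent.Lib.MPf11a48.GF

open Polynomial Matrix ShidM ZeroM
open scoped PowerSeries

theorem specZero (hSolv : SpecSolv) : SpecZero := by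
  intro μ _ _ T B u hsol hu
  obtain ⟨m, hmT, hmB⟩ : ∃ m : ℕ, T.natDegree ≤ m ∧ ∀ i j, (B i j).natDegree ≤ m :=
    ⟨T.natDegree + ∑ i, ∑ j, (B i j).natDegree, Nat.le_add_right _ _, fun i j =>
      ((Finset.single_le_sum (f := fun j => (B i j).natDegree) (fun _ _ => Nat.zero_le _)
        (Finset.mem_univ j)).trans (Finset.single_le_sum (f := fun i => ∑ j, (B i j).natDegree)
        (fun _ _ => Nat.zero_le _) (Finset.mem_univ i))).trans (Nat.le_add_left _ _)⟩
  obtain ⟨c0, hc0⟩ := Function.ne_iff.1 hu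
  obtain ⟨o, ho⟩ : ∃ o : ℕ, ¬ (PowerSeries.X : ℚ⟦X⟧) ^ o ∣ u c0 := by
    by_contra hall
    push Not at hall
    apply hc0
    ext n
    simpa using PowerSeries.X_pow_dvd_iff.1 (hall (n + 1)) n (Nat.lt_succ_self n)
  set M := Fintype.card μ with hM
  refine ⟨M * (M * m) + 2 * M + o, ?_⟩
  intro P D L ξ hD hL hlin hξ hTξ
  obtain ⟨I, hI⟩ := exists_det_ne_zero _ hlin
  have hIb : Function.Bijective I := by
    refine (Fintype.bijective_iff_injective_and_card _).2 ⟨fun a b hab => ?_, by simp [hM]⟩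
    by_contra hne
    exact hI (Matrix.det_zero_of_column_eq hne fun k => by simp [mat, hab])
  set Q := (mat (fun k : Fin M => dd T B P k) I).det with hQ
  have hMpos : 0 < M := Fintype.card_pos_iff.2 ⟨c0⟩
  -- divisibility by the power of X
  have hsv := fun k => hSolv μ T B u hsol P k
  obtain ⟨a0, ha0⟩ := hIb.2 c0
  set f : ℚ[X] →+* ℚ⟦X⟧ := Polynomial.coeToPowerSeries.ringHom with hf
  have h1 : (Q : ℚ⟦X⟧) * u c0 = ∑ k : Fin M,
      ((mat (fun k : Fin M => dd T B P k) I).adjugate a0 k : ℚ⟦X⟧) *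
        ((T : ℚ⟦X⟧) ^ (k : ℕ) * hs k (∑ j, (P j : ℚ⟦X⟧) * u j)) := by
    set N := mat (fun k : Fin M => dd T B P k) I with hN
    have h2 : (f.mapMatrix N) *ᵥ (fun a => u (I a)) = fun k : Fin M => (T : ℚ⟦X⟧) ^ (k : ℕ) *
        hs k (∑ j, (P j : ℚ⟦X⟧) * u j) := by
      funext k
      rw [← hsv]
      simp only [Matrix.mulVec, dotProduct]
      exact hIb.sum_comp (fun c => (dd T B P k c : ℚ⟦X⟧) * u c)
    have h3 : (f.mapMatrix N.adjugate) *ᵥ ((f.mapMatrix N) *ᵥ fun a => u (I a)) =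
        f N.det • fun a => u (I a) := by
      rw [Matrix.mulVec_mulVec, ← map_mul, Matrix.adjugate_mul]
      funext k
      simp [Matrix.mulVec, dotProduct, Matrix.one_apply, apply_ite f]
    have h4 := congrFun h3 a0
    rw [h2] at h4
    simp only [Pi.smul_apply, smul_eq_mul, ha0] at h4
    rw [hQ]
    exact h4.symm
  have h5 : (PowerSeries.X : ℚ⟦X⟧) ^ (L - (M - 1)) ∣ (Q : ℚ⟦X⟧) * u c0 := by
    rw [h1]
    refine Finset.dvd_sum fun k _ => Dvd.dvd.mul_left (Dvd.dvd.mul_left ?_ _) _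
    exact (pow_dvd_pow _ (by have := k.2; omega)).trans (hs_dvd (k := (k : ℕ)) hL)
  have h6 : (X : ℚ[X]) ^ (L - (M - 1) - o) ∣ Q := X_pow_dvd_coe (dvd_of_mul _ _ _ _ h5 ho)
  have hdeg : Q.natDegree ≤ M * (D + M * m) :=
    det_deg (fun k : Fin M => dd T B P k) I (E := D + M * m)
      fun k c => (dd_deg hmT hmB hD k c).trans (by
        have := Nat.mul_le_mul_right m k.2.le
        omega)
  set E := M * (D + M * m) with hE
  set n := L - (M - 1) - o with hn
  have hnE : n ≤ E := by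
    have := Polynomial.natDegree_le_of_dvd h6 hI
    rw [natDegree_X_pow] at this
    omega
  -- a non-vanishing determinant
  obtain ⟨κ, hκ, hev⟩ : ∃ κ : Fin M → ℕ, (∀ i, κ i ≤ M - 1 + (E - n)) ∧
      (De T B P I κ).eval ξ ≠ 0 := by
    by_contra hc
    push Not at hc
    have h7 := dvd_of_zero hIb hTξ hc (E - n) (fun i => (i : ℕ)) fun i => by
      have := i.2
      omega
    have h8 : (X - C ξ) ^ (E - n + 1) ∣ Q := h7
    have h9 : IsCoprime ((X : ℚ[X]) ^ n) ((X - C ξ) ^ (E - n + 1)) := by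
      refine IsCoprime.pow ?_
      have := isCoprime_X_sub_C_of_isUnit_sub (R := ℚ) (a := 0) (b := ξ)
        (by simpa using hξ)
      simpa using this
    have h10 := Polynomial.natDegree_le_of_dvd (h9.mul_dvd h6 h8) hI
    rw [natDegree_mul (pow_ne_zero _ X_ne_zero) (pow_ne_zero _ (X_sub_C_ne_zero ξ)),
      natDegree_X_pow, natDegree_pow, natDegree_X_sub_C] at h10
    omega
  refine ⟨κ, fun i => ?_, ?_⟩
  · have h11 := hκ i
    have h12 : E = M * D + M * (M * m) := by rw [hE, mul_add]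
    omega
  · have h13 : ((mat (fun i => dd T B P (κ i)) I).map (eval ξ)).det ≠ 0 := by
      intro h
      apply hev
      rw [De, ← Polynomial.coe_evalRingHom, RingHom.map_det]
      exact h
    have h14 := Matrix.linearIndependent_rows_iff_isUnit.2
      ((Matrix.isUnit_iff_isUnit_det _).2 (isUnit_iff_ne_zero.2 h13))
    exact LinearIndependent.of_comp (LinearMap.funLeft ℚ ℚ I) h14

end Pool.Agent.Lib.MPf11a48.GF
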