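import Pool.Agent.Lib.MP_f11a48_ag.GF.Spec

/-!
# DER: the derivation of `ℚ(X)`
-/

set_option autoImplicit false

namespace Pool.Agent.Lib.MPf11a48.GF

open Polynomial

namespace DerM

/-- `p ↦ p + p' ε` -/
noncomputable def phi : ℚ[X] →+* TrivSqZeroExt (RatFunc ℚ) (RatFunc ℚ) where
  toFun p := TrivSqZeroExt.inl (algebraMap ℚ[X] (RatFunc ℚ) p)
    + TrivSqZeroExt.inr (algebraMap ℚ[X] (RatFunc ℚ) (derivative p))
  map_one' := by
    simp
  map_mul' p q := by
    ext
    · simp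
    · simp only [map_mul, derivative_mul, map_add, TrivSqZeroExt.snd_add, TrivSqZeroExt.snd_inl,
        TrivSqZeroExt.snd_inr, TrivSqZeroExt.snd_mul, TrivSqZeroExt.fst_add,
        TrivSqZeroExt.fst_inl, TrivSqZeroExt.fst_inr, smul_eq_mul, MulOpposite.smul_eq_mul_unop,
        MulOpposite.unop_op]
      ring
  map_zero' := by simp
  map_add' p q := by
    ext
    · simp
    · rw [derivative_add, map_add, map_add]
      simp only [TrivSqZeroExt.snd_add, TrivSqZeroExt.snd_inl, TrivSqZeroExt.snd_inr, zero_add]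

lemma fst_phi (p : ℚ[X]) : (phi p).fst = algebraMap ℚ[X] (RatFunc ℚ) p := by
  change TrivSqZeroExt.fst ((TrivSqZeroExt.inl _ + TrivSqZeroExt.inr _ :
    TrivSqZeroExt (RatFunc ℚ) (RatFunc ℚ))) = _
  rw [TrivSqZeroExt.fst_add, TrivSqZeroExt.fst_inl, TrivSqZeroExt.fst_inr, add_zero]

lemma snd_phi (p : ℚ[X]) : (phi p).snd = algebraMap ℚ[X] (RatFunc ℚ) (derivative p) := by
  change TrivSqZeroExt.snd ((TrivSqZeroExt.inl _ + TrivSqZeroExt.inr _ :
    TrivSqZeroExt (RatFunc ℚ) (RatFunc ℚ))) = _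
  rw [TrivSqZeroExt.snd_add, TrivSqZeroExt.snd_inl, TrivSqZeroExt.snd_inr, zero_add]

lemma phi_unit (y : nonZeroDivisors ℚ[X]) : IsUnit (phi y) := by
  rw [TrivSqZeroExt.isUnit_iff_isUnit_fst]
  rw [fst_phi]
  apply IsUnit.mk0
  intro h
  have h2 : (y : ℚ[X]) = 0 := by
    apply RatFunc.algebraMap_injective ℚ
    rw [h, map_zero]
  exact nonZeroDivisors.coe_ne_zero y h2

/-- the extension to `ℚ(X)` -/
noncomputable def ext : RatFunc ℚ →+* TrivSqZeroExt (RatFunc ℚ) (RatFunc ℚ) :=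
  IsLocalization.lift (M := nonZeroDivisors ℚ[X]) phi_unit

lemma ext_alg (p : ℚ[X]) : ext (algebraMap ℚ[X] (RatFunc ℚ) p) = phi p :=
  IsLocalization.lift_eq phi_unit p

lemma fst_ext (f : RatFunc ℚ) : (ext f).fst = f := by
  have h1 : ((TrivSqZeroExt.fstHom (RatFunc ℚ) (RatFunc ℚ) (RatFunc ℚ)).toRingHom.comp ext)
      = RingHom.id (RatFunc ℚ) := by
    apply IsLocalization.ringHom_ext (nonZeroDivisors ℚ[X])
    apply RingHom.ext
    intro p
    change (ext (algebraMap ℚ[X] (RatFunc ℚ) p)).fst = algebraMap ℚ[X] (RatFunc ℚ) p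
    rw [ext_alg, fst_phi]
  have h2 := congrArg (fun g : RatFunc ℚ →+* RatFunc ℚ => g f) h1
  exact h2

/-- the derivation -/
noncomputable def D : RatFunc ℚ →+ RatFunc ℚ where
  toFun f := (ext f).snd
  map_zero' := by simp
  map_add' f g := by simp

lemma D_mul (f g : RatFunc ℚ) : D (f * g) = f * D g + g * D f := by
  change (ext (f * g)).snd = f * (ext g).snd + g * (ext f).snd
  rw [map_mul, TrivSqZeroExt.snd_mul, fst_ext, fst_ext]
  simp [mul_comm]

lemma D_alg (p : ℚ[X]) : D (algebraMap ℚ[X] (RatFunc ℚ) p)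
    = algebraMap ℚ[X] (RatFunc ℚ) (derivative p) := by
  change (ext _).snd = _
  rw [ext_alg, snd_phi]

lemma D_const {f : RatFunc ℚ} (hf : D f = 0) : ∃ q : ℚ, f = algebraMap ℚ[X] (RatFunc ℚ) (C q) := by
  have hd : algebraMap ℚ[X] (RatFunc ℚ) f.denom ≠ 0 := by
    intro h
    exact f.denom_ne_zero (RatFunc.algebraMap_injective ℚ (by rw [h, map_zero]))
  have h1 : f * algebraMap ℚ[X] (RatFunc ℚ) f.denom = algebraMap ℚ[X] (RatFunc ℚ) f.num := by
    have := f.num_div_denom
    rw [div_eq_iff hd] at this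
    exact this.symm
  have h2 := congrArg D h1
  rw [D_mul, D_alg, D_alg, hf, mul_zero, add_zero] at h2
  -- `f q' = p'`
  have h3 : f.num * derivative f.denom = derivative f.num * f.denom := by
    apply RatFunc.algebraMap_injective ℚ
    rw [map_mul, map_mul, ← h1, ← h2]
    ring
  have h4 : f.denom ∣ derivative f.denom := by
    have h5 : f.denom ∣ f.num * derivative f.denom := ⟨derivative f.num, by rw [h3]; ring⟩
    exact (f.isCoprime_num_denom.symm).dvd_of_dvd_mul_left h5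
  have h6 : derivative f.denom = 0 := by
    by_contra h7
    have h8 := Polynomial.degree_le_of_dvd h4 h7
    exact absurd (Polynomial.degree_derivative_lt f.denom_ne_zero) (not_lt.2 h8)
  have h9 : derivative f.num = 0 := by
    rw [h6, mul_zero] at h3
    exact (mul_eq_zero.1 h3.symm).resolve_right f.denom_ne_zero
  have h10 := Polynomial.eq_C_of_derivative_eq_zero h6
  have h11 := Polynomial.eq_C_of_derivative_eq_zero h9
  have h12 : f.denom.coeff 0 ≠ 0 := by
    intro h13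
    rw [h13] at h10
    exact f.denom_ne_zero (by rw [h10]; simp)
  refine ⟨f.num.coeff 0 / f.denom.coeff 0, ?_⟩
  have h14 : algebraMap ℚ[X] (RatFunc ℚ) (C (f.num.coeff 0 / f.denom.coeff 0))
      * algebraMap ℚ[X] (RatFunc ℚ) f.denom = algebraMap ℚ[X] (RatFunc ℚ) f.num := by
    rw [← map_mul]
    congr 1
    conv_lhs => rw [h10]
    conv_rhs => rw [h11]
    rw [← C_mul]
    congr 1
    simp
    field_simp
  exact mul_right_cancel₀ hd (h1.trans h14.symm)

end DerM

theorem specDer : SpecDer :=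
  ⟨DerM.D, DerM.D_mul, DerM.D_alg, fun _ h => DerM.D_const h⟩

end Pool.Agent.Lib.MPf11a48.GF
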