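import Pool.Agent.Lib.MP_f11a48_ag.GF.Stmt
import Pool.Agent.Lib.MP_f11a48_ag.K3.KSpec

/-!
# G-functions as periods: specifications of the Lie algebra and torsor part
-/

set_option autoImplicit false

namespace Pool.Agent.Lib.MPf11a48.GF

open Matrix
open Pool.Agent.Lib.MPf11a48.Tors
open Pool.Agent.Lib.MPf11a48.CM hiding OmegaM
open Pool.Agent.Lib.MPf11a48.GL2 (lie)
open Pool.Agent.Lib.MPf11a48.K3 (cx)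

/-- `h` is a Lie algebra of infinitesimal isometries of the alternating form `ψ`, which acts
irreducibly -/
structure SpIrr {ι : Type} [Fintype ι] [DecidableEq ι] (ψ : Matrix ι ι ℂ)
    (h : Submodule ℂ (Matrix ι ι ℂ)) : Prop where
  skew : ψᵀ = -ψ
  det : ψ.det ≠ 0
  lie : ∀ X ∈ h, ∀ Y ∈ h, X * Y - Y * X ∈ h
  sp : ∀ X ∈ h, Xᵀ * ψ + ψ * X = 0
  irr : ∀ W : Submodule ℂ (ι → ℂ), (∀ X ∈ h, ∀ v ∈ W, X *ᵥ v ∈ W) → W = ⊥ ∨ W = ⊤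

/-- NDG: the trace form is non-degenerate -/
def SpecNdg : Prop :=
  ∀ (ι : Type) [Fintype ι] [DecidableEq ι] [Nonempty ι] (ψ : Matrix ι ι ℂ)
    (h : Submodule ℂ (Matrix ι ι ℂ)), SpIrr ψ h →
    ∀ X ∈ h, (∀ Y ∈ h, (X * Y).trace = 0) → X = 0

/-- LQ: if the quartic form vanishes, then `h` is the whole symplectic Lie algebra -/
def SpecLQ : Prop :=
  ∀ (ι : Type) [Fintype ι] [DecidableEq ι] [Nonempty ι] (ψ : Matrix ι ι ℂ)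
    (h : Submodule ℂ (Matrix ι ι ℂ)), SpIrr ψ h →
    (∀ v : ι → ℂ, ∀ X ∈ h, (∀ Y ∈ h, (X * Y).trace = v ⬝ᵥ ((ψ * Y) *ᵥ v)) →
      v ⬝ᵥ ((ψ * X) *ᵥ v) = 0) →
    ∀ X : Matrix ι ι ℂ, Xᵀ * ψ + ψ * X = 0 → X ∈ h

/-- TRV: the symplectic group is generated by transvections -/
def SpecTrv : Prop :=
  ∀ (ι : Type) [Fintype ι] [DecidableEq ι] (ψ : Matrix ι ι ℂ) (G : Subgroup (GL ι ℂ)),
    ψᵀ = -ψ → ψ.det ≠ 0 →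
    (∀ (u : ι → ℂ) (s : ℂ), ∃ g ∈ G, g.1 = 1 + s • vecMulVec u (u ᵥ* ψ)) →
    ∀ f : GL ι ℂ, f.1ᵀ * ψ * f.1 = ψ → f ∈ G

/-- the isometries which are elements of the Lie algebra of `T`, up to scalars -/
def spl {ι : Type} [Fintype ι] [DecidableEq ι] (T : Set (GL ι ℂ)) (ψ : Matrix ι ι ℚ) :
    Set (Matrix ι ι ℂ) :=
  {Y | Yᵀ * cx ψ + cx ψ * Y = 0 ∧ ∃ s : ℂ, Y + s • (1 : Matrix ι ι ℂ) ∈ lie T}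

/-- SUB: properties of `spl T ψ` -/
def SpecSub : Prop :=
  ∀ (ι : Type) [Fintype ι] [DecidableEq ι] [Nonempty ι] (T : Set (GL ι ℂ)) (c : GL ι ℂ)
    (ψ : Matrix ι ι ℚ), IsTorsor ⊥ T → c ∈ T → ClosedOver ⊥ (grp T) → ψᵀ = -ψ → ψ.det ≠ 0 →
    (∀ f ∈ T, ∃ z : ℂ, f.1ᵀ * cx ψ * f.1 = z • (c.1ᵀ * cx ψ * c.1)) →
    ∃ h : Submodule ℂ (Matrix ι ι ℂ), (h : Set (Matrix ι ι ℂ)) = spl T ψ ∧
      (∀ X ∈ h, ∀ Y ∈ h, X * Y - Y * X ∈ h) ∧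
      (∀ l : ℂ →ₗ[ℚ] ℚ, ∀ Y ∈ h, cx (fun i j => l (Y i j)) ∈ h) ∧
      (∀ g ∈ grp T, ∀ Y ∈ h, g.1 * Y * g⁻¹.1 ∈ h) ∧
      ∀ X ∈ lie T, ∃ m : ℂ, Xᵀ * cx ψ + cx ψ * X = m • cx ψ

/-- QJ: the quartic form, on the Betti and on the de Rham side -/
def SpecQJ : Prop :=
  ∀ (ι : Type) [Fintype ι] [DecidableEq ι] (T : Set (GL ι ℂ)) (c : GL ι ℂ)
    (ψdR ψ : Matrix ι ι ℚ) (h : Submodule ℂ (Matrix ι ι ℂ)), IsTorsor ⊥ T → c ∈ T →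
    c.1ᵀ * cx ψ * c.1 = (2 * Real.pi * Complex.I) • cx ψdR →
    (∀ l : ℂ →ₗ[ℚ] ℚ, ∀ Y ∈ h, cx (fun i j => l (Y i j)) ∈ h) →
    (∀ g ∈ grp T, ∀ Y ∈ h, g.1 * Y * g⁻¹.1 ∈ h) →
    (∀ X ∈ h, (∀ Y ∈ h, (X * Y).trace = 0) → X = 0) →
    ∃ Q J : MvPolynomial ι ℚ, Q.IsHomogeneous 4 ∧ J.IsHomogeneous 4 ∧
      (∀ v : ι → ℂ, ∀ X ∈ h, (∀ Y ∈ h, (X * Y).trace = v ⬝ᵥ ((cx ψ * Y) *ᵥ v)) →
        MvPolynomial.aeval v Q = v ⬝ᵥ ((cx ψ * X) *ᵥ v)) ∧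
      ∀ w : ι → ℂ, MvPolynomial.aeval (c.1 *ᵥ w) Q =
        (2 * Real.pi * Complex.I) ^ 2 * MvPolynomial.aeval w J

/-- GRP: from the Lie algebra to the torsor -/
def SpecGrp : Prop :=
  ∀ (ι : Type) [Fintype ι] [DecidableEq ι] [Nonempty ι] (T : Set (GL ι ℂ)) (c : GL ι ℂ)
    (ψ : Matrix ι ι ℚ), IsTorsor ⊥ T → c ∈ T → ψᵀ = -ψ → ψ.det ≠ 0 →
    (∀ Y : Matrix ι ι ℂ, Yᵀ * cx ψ + cx ψ * Y = 0 → Y ∈ spl T ψ) →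
    (∃ X ∈ lie T, ∃ m : ℂ, m ≠ 0 ∧ Xᵀ * cx ψ + cx ψ * X = m • cx ψ) →
    ∀ (f : GL ι ℂ) (z : ℂˣ), f.1ᵀ * cx ψ * f.1 = (z : ℂ) • (c.1ᵀ * cx ψ * c.1) → f ∈ T

end Pool.Agent.Lib.MPf11a48.GF
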