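import Pool.Agent.Lib.MP_f11a48_ag.GF.Defs

/-!
# G-functions as periods: specifications of the analytic part

`μ` is a finite index set, `u : μ → ℚ⟦X⟧` a solution of the system `T y' = B y`.
-/

set_option autoImplicit false

namespace Pool.Agent.Lib.MPf11a48.GF

open Polynomial Matrix
open scoped PowerSeries

/-- the components of `u` are linearly independent over `ℚ(X)` -/
def LinInd {μ : Type} [Fintype μ] (u : μ → ℚ⟦X⟧) : Prop :=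
  ∀ P : μ → ℚ[X], ∑ c, (P c : ℚ⟦X⟧) * u c = 0 → P = 0

/-- the `k`-th divided derivative of a power series -/
noncomputable def hs (k : ℕ) (f : ℚ⟦X⟧) : ℚ⟦X⟧ :=
  PowerSeries.mk fun n => ((n + k).choose k : ℚ) * PowerSeries.coeff (n + k) f

/-- the sum of the absolute values of the coefficients -/
noncomputable def nrm (p : ℚ[X]) : ℚ := p.sum fun _ a => |a|

/-- BND: the vectors `dd P k`: integrality, degrees, sizes -/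
def SpecBnd : Prop :=
  ∀ (μ : Type) [Fintype μ] [DecidableEq μ] (T : ℤ[X]) (B : Matrix μ μ ℤ[X]), IsGal T B →
    ∃ C : ℕ, ∀ κ : ℕ, ∃ q : ℕ, 0 < q ∧ q ≤ C ^ (κ + 1) ∧
      ∀ (P : μ → ℤ[X]) (D H : ℕ), (∀ c, (P c).natDegree ≤ D) → (∀ c i, |(P c).coeff i| ≤ H) →
        ∀ k ≤ κ, ∀ j, ∃ z : ℤ[X],
          (q : ℚ[X]) * dd (zq T) (B.map zq) (fun c => zq (P c)) k j = zq z ∧
          z.natDegree ≤ D + C * κ ∧ ∀ i, |z.coeff i| ≤ H * C ^ (D + κ + 1)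

/-- SOLV: the vectors `dd P k` and solutions -/
def SpecSolv : Prop :=
  ∀ (μ : Type) [Fintype μ] (T : ℚ[X]) (B : Matrix μ μ ℚ[X]) (y : μ → ℚ⟦X⟧), IsSol T B y →
    ∀ (P : μ → ℚ[X]) (k : ℕ), ∑ j, (dd T B P k j : ℚ⟦X⟧) * y j =
      (T : ℚ⟦X⟧) ^ k * hs k (∑ j, (P j : ℚ⟦X⟧) * y j)

/-- SIEG: Padé approximants of the first kind, by Siegel's lemma -/
def SpecSieg : Prop :=
  ∀ (μ : Type) [Fintype μ] [Nonempty μ] (u : μ → ℚ⟦X⟧), IsG u → ∀ r : ℕ, 2 ≤ r →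
    ∃ C : ℕ, ∀ k : ℕ, 1 ≤ k → ∃ P : μ → ℤ[X], P ≠ 0 ∧ (∀ c, (P c).natDegree < r * k) ∧
      (∀ c i, |(P c).coeff i| ≤ (C : ℤ) ^ (r * k)) ∧
      (PowerSeries.X : ℚ⟦X⟧) ^ (Fintype.card μ * (r * k) - k) ∣
        ∑ c, ((zq (P c) : ℚ[X]) : ℚ⟦X⟧) * u c

/-- DER: the derivation of `ℚ(X)` -/
def SpecDer : Prop :=
  ∃ D : RatFunc ℚ →+ RatFunc ℚ, (∀ f g, D (f * g) = f * D g + g * D f) ∧
    (∀ p : ℚ[X], D (algebraMap ℚ[X] (RatFunc ℚ) p) = algebraMap ℚ[X] (RatFunc ℚ) (derivative p)) ∧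
    ∀ f, D f = 0 → ∃ q : ℚ, f = algebraMap ℚ[X] (RatFunc ℚ) (C q)

/-- the action of the system on tensors of degree `r` -/
noncomputable def delT {μ : Type} [Fintype μ] [DecidableEq μ] {r : ℕ} (T : ℚ[X])
    (B : Matrix μ μ ℚ[X]) (w : (Fin r → μ) → ℚ[X]) : (Fin r → μ) → ℚ[X] :=
  fun I => T * derivative (w I) + ∑ a, ∑ i, w (Function.update I a i) * B i (I a)

/-- contraction of a tensor with a vector of power series -/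
noncomputable def ctr {μ : Type} [Fintype μ] {r : ℕ} (u : μ → ℚ⟦X⟧)
    (w : (Fin (r + 1) → μ) → ℚ[X]) : (Fin r → μ) → ℚ⟦X⟧ :=
  fun I => ∑ i, u i * (w (Fin.cons i I) : ℚ⟦X⟧)

/-- BDD: eigenvectors of the system on tensors with coprime components have bounded degrees, and
their contractions with `u` have bounded orders -/
def SpecBdd : Prop :=
  ∀ (μ : Type) [Fintype μ] [DecidableEq μ] (T : ℚ[X]) (B : Matrix μ μ ℚ[X]) (u : μ → ℚ⟦X⟧)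
    (r : ℕ), T ≠ 0 → ∃ K : ℕ, ∀ (w : (Fin (r + 1) → μ) → ℚ[X]) (a : ℚ[X]),
      (∀ I, delT T B w I = a * w I) → (∀ p : ℚ[X], (∀ I, p ∣ w I) → IsUnit p) →
      (∀ I, (w I).natDegree ≤ K) ∧
      (ctr u w ≠ 0 → ¬ ∀ I, (PowerSeries.X : ℚ⟦X⟧) ^ K ∣ ctr u w I)

/-- SHID: Shidlovsky's lemma -/
def SpecShid : Prop :=
  ∀ (μ : Type) [Fintype μ] [DecidableEq μ] (T : ℚ[X]) (B : Matrix μ μ ℚ[X]) (u : μ → ℚ⟦X⟧),
    T ≠ 0 → IsSol T B u → LinInd u → ∃ K : ℕ, ∀ (P : μ → ℚ[X]) (D L : ℕ), P ≠ 0 →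
      (∀ c, (P c).natDegree ≤ D) →
      (PowerSeries.X : ℚ⟦X⟧) ^ L ∣ ∑ c, (P c : ℚ⟦X⟧) * u c →
      (Fintype.card μ - 1) * D + K < L →
      LinearIndependent ℚ[X] fun k : Fin (Fintype.card μ) => dd T B P k

/-- ZERO: the values at a rational number `ξ` of the first `dd P k` span the whole space -/
def SpecZero : Prop :=
  ∀ (μ : Type) [Fintype μ] [DecidableEq μ] (T : ℚ[X]) (B : Matrix μ μ ℚ[X]) (u : μ → ℚ⟦X⟧),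
    IsSol T B u → u ≠ 0 → ∃ K : ℕ, ∀ (P : μ → ℚ[X]) (D L : ℕ) (ξ : ℚ),
      (∀ c, (P c).natDegree ≤ D) →
      (PowerSeries.X : ℚ⟦X⟧) ^ L ∣ ∑ c, (P c : ℚ⟦X⟧) * u c →
      (LinearIndependent ℚ[X] fun k : Fin (Fintype.card μ) => dd T B P k) →
      ξ ≠ 0 → T.eval ξ ≠ 0 →
      ∃ k : Fin (Fintype.card μ) → ℕ, (∀ i, k i + L ≤ Fintype.card μ * D + K) ∧
        LinearIndependent ℚ fun i => fun c => (dd T B P (k i) c).eval ξ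

/-- EVAL: values of power series with geometric growth -/
def SpecEval : Prop :=
  (∀ (u : ℚ⟦X⟧) (C : ℕ) (z : ℂ), (∀ n, |PowerSeries.coeff n u| ≤ (C : ℚ) ^ (n + 1)) →
    2 * C * ‖z‖ ≤ 1 → Summable fun k => ‖((PowerSeries.coeff k u : ℚ) : ℂ) * z ^ k‖) ∧
  (∀ (f g : ℚ⟦X⟧) (z : ℂ), (Summable fun k => ‖((PowerSeries.coeff k f : ℚ) : ℂ) * z ^ k‖) →
    (Summable fun k => ‖((PowerSeries.coeff k g : ℚ) : ℂ) * z ^ k‖) →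
    pval (f + g) z = pval f z + pval g z ∧ pval (f * g) z = pval f z * pval g z ∧
    Summable fun k => ‖((PowerSeries.coeff k (f * g) : ℚ) : ℂ) * z ^ k‖) ∧
  (∀ (p : ℚ[X]) (z : ℂ), (Summable fun k => ‖((PowerSeries.coeff k (p : ℚ⟦X⟧) : ℚ) : ℂ) * z ^ k‖) ∧
    pval (p : ℚ⟦X⟧) z = aeval z p) ∧
  ∀ (f : ℚ⟦X⟧) (C : ℕ), (∀ n, |PowerSeries.coeff n f| ≤ (C : ℚ) ^ (n + 1)) → f ≠ 0 →
    ∃ K : ℕ, ∀ z : ℂ, z ≠ 0 → K * ‖z‖ ≤ 1 → pval f z ≠ 0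

/-- REM: the size of the remainders -/
def SpecRem : Prop :=
  ∀ (μ : Type) [Fintype μ] (u : μ → ℚ⟦X⟧) (C : ℕ),
    (∀ c n, |PowerSeries.coeff n (u c)| ≤ (C : ℚ) ^ (n + 1)) →
    ∃ C' : ℕ, ∀ (P : μ → ℤ[X]) (D H L k : ℕ) (z : ℂ), (∀ c, (P c).natDegree ≤ D) →
      (∀ c i, |(P c).coeff i| ≤ H) → k ≤ L →
      (PowerSeries.X : ℚ⟦X⟧) ^ L ∣ ∑ c, ((zq (P c) : ℚ[X]) : ℚ⟦X⟧) * u c → C' * ‖z‖ ≤ 1 →
      ‖pval (hs k (∑ c, ((zq (P c) : ℚ[X]) : ℚ⟦X⟧) * u c)) z‖ ≤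
        H * (C' : ℝ) ^ (D + L + 1) * ‖z‖ ^ (L - k)

/-- EST: linear independence of the values -/
def SpecEst : Prop :=
  ∀ (μ : Type) [Fintype μ] [DecidableEq μ] [Nonempty μ] (T : ℤ[X]) (B : Matrix μ μ ℤ[X])
    (u : μ → ℚ⟦X⟧), T ≠ 0 → IsGal T B → IsSol (zq T) (B.map zq) u → IsG u → LinInd u →
    ∃ C : ℕ, ∀ a b : ℤ, a ≠ 0 → (C : ℤ) * |a| ^ C ≤ b → ∀ h : μ → ℚ,
      ∑ c, (h c : ℂ) * pval (u c) ((a : ℂ) / b) = 0 → h = 0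

/-- SYM: symmetric powers. Two copies of the `d`-th symmetric power of the system satisfy Galochkin's
condition, and the monomials of degree `d` in `v 0` and `v 1` are a solution. -/
def SpecSym : Prop :=
  ∀ (ι : Type) [Fintype ι] [DecidableEq ι] (T : ℤ[X]) (B : Matrix ι ι ℤ[X])
    (v : Fin 2 → ι → ℚ⟦X⟧) (d : ℕ) (_ : Fintype {J : ι →₀ ℕ // J.degree = d}), IsGal T B →
    (∀ k, IsSol (zq T) (B.map zq) (v k)) → (∀ k, IsG (v k)) →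
    (∃ B' : Matrix (Fin 2 × {J : ι →₀ ℕ // J.degree = d}) (Fin 2 × {J : ι →₀ ℕ // J.degree = d})
        ℤ[X], IsGal T B' ∧
      IsSol (zq T) (B'.map zq) fun x => ∏ i, v x.1 i ^ x.2.1 i) ∧
    IsG fun x : Fin 2 × {J : ι →₀ ℕ // J.degree = d} => ∏ i, v x.1 i ^ x.2.1 i

/-- QUA: the result of this part -/
def SpecQua : Prop :=
  ∀ (ι : Type) [Fintype ι] [DecidableEq ι] (T : ℤ[X]) (B : Matrix ι ι ℤ[X])
    (v : Fin 2 → ι → ℚ⟦X⟧) (d : ℕ), GSys T B v d →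
    ∃ C : ℕ, ∀ a b : ℤ, a ≠ 0 → (C : ℤ) * |a| ^ C ≤ b →
      ∀ J : Fin 2 → MvPolynomial ι ℚ, (∀ k, (J k).IsHomogeneous d) →
        ∑ k, MvPolynomial.aeval (fun i => pval (v k i) ((a : ℂ) / b)) (J k) = 0 → ∀ k, J k = 0

end Pool.Agent.Lib.MPf11a48.GF
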