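import Pool.Agent.Lib.MP_f11a48_ag.K3.KStmt
import Pool.Agent.Lib.MP_f11a48_ag.U.Statement

/-!
# G-functions as periods: definitions

Systems `T y' = B y` of linear differential equations over `ℚ(X)`, `T ∈ ℤ[X]`, `B` a matrix over
`ℤ[X]`, and their solutions in power series with rational coefficients.
-/

set_option autoImplicit false

namespace Pool.Agent.Lib.MPf11a48.GF

open Polynomial Matrix
open scoped PowerSeries
open Pool.Agent.Lib.MPf11a48.K3 (cx)

variable {ν : Type} [Fintype ν]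

/-- The operator `P ↦ T P' + P B` on row vectors: if `T y' = B y` then `T (P y)' = (T P' + P B) y`. -/
noncomputable def del (T : ℚ[X]) (B : Matrix ν ν ℚ[X]) (P : ν → ℚ[X]) : ν → ℚ[X] :=
  fun j => T * derivative (P j) + ∑ i, P i * B i j

/-- The row vectors `P_k` with `P_k y = T^k (P y)^(k) / k!` for all solutions `y` of `T y' = B y`. -/
noncomputable def dd (T : ℚ[X]) (B : Matrix ν ν ℚ[X]) (P : ν → ℚ[X]) : ℕ → ν → ℚ[X]
  | 0 => P
  | k + 1 => fun j => C ((k + 1 : ℚ)⁻¹) *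
      (del T B (dd T B P k) j - (k : ℚ[X]) * derivative T * dd T B P k j)

/-- A polynomial over `ℤ` as a polynomial over `ℚ`. -/
noncomputable abbrev zq (p : ℤ[X]) : ℚ[X] := p.map (Int.castRingHom ℚ)

/-- Galochkin's condition for the system `T y' = B y`: the coefficients of the row vectors `P_k`,
`k ≤ n`, for `P` a standard basis vector, have a common denominator `≤ C^(n+1)`. -/
def IsGal [DecidableEq ν] (T : ℤ[X]) (B : Matrix ν ν ℤ[X]) : Prop :=
  ∃ C : ℕ, ∀ n : ℕ, ∃ q : ℕ, 0 < q ∧ q ≤ C ^ (n + 1) ∧ ∀ k ≤ n, ∀ i j, ∃ z : ℤ[X],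
    (q : ℚ[X]) * dd (zq T) (B.map zq) (Pi.single i 1) k j = zq z

/-- `y` is a solution of `T y' = B y`. -/
def IsSol (T : ℚ[X]) (B : Matrix ν ν ℚ[X]) (y : ν → ℚ⟦X⟧) : Prop :=
  ∀ i, (T : ℚ⟦X⟧) * PowerSeries.derivative ℚ (y i) = ∑ j, (B i j : ℚ⟦X⟧) * y j

/-- Siegel's condition for G-functions: the coefficients up to degree `n` are `≤ C^(n+1)` and have a
common denominator `≤ C^(n+1)`. -/
def IsG {μ : Type} (u : μ → ℚ⟦X⟧) : Prop :=
  ∃ C : ℕ, ∀ n : ℕ, ∃ q : ℕ, 0 < q ∧ q ≤ C ^ (n + 1) ∧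
    (∀ i, ∀ k ≤ n, ∃ z : ℤ, (q : ℚ) * PowerSeries.coeff k (u i) = z) ∧
    ∀ i, |PowerSeries.coeff n (u i)| ≤ (C : ℚ) ^ (n + 1)

/-- The value of a power series. -/
noncomputable def pval (s : ℚ⟦X⟧) (z : ℂ) : ℂ := ∑' k, ((PowerSeries.coeff k s : ℚ) : ℂ) * z ^ k

/-- The value of a polynomial over `ℚ(X)` in several variables at a vector of power series. -/
noncomputable def peval {ι : Type} (v : ι → ℚ⟦X⟧) (J : MvPolynomial ι ℚ[X]) : ℚ⟦X⟧ :=
  MvPolynomial.eval₂ (Polynomial.coeToPowerSeries.ringHom (R := ℚ)) v J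

/-- `v 0`, `v 1` are solutions of `T y' = B y` which are G-functions with rational coefficients, the
system satisfies Galochkin's condition, and the monomials of degree `d` in the components of `v 0`
and of `v 1` are linearly independent over `ℚ(X)`. -/
structure GSys {ι : Type} [Fintype ι] [DecidableEq ι] (T : ℤ[X]) (B : Matrix ι ι ℤ[X])
    (v : Fin 2 → ι → ℚ⟦X⟧) (d : ℕ) : Prop where
  ne : T ≠ 0
  gal : IsGal T B
  sol : ∀ k, IsSol (zq T) (B.map zq) (v k)
  g : ∀ k, IsG (v k)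
  ind : ∀ J : Fin 2 → MvPolynomial ι ℚ[X], (∀ k, (J k).IsHomogeneous d) →
    ∑ k, peval (v k) (J k) = 0 → ∀ k, J k = 0

variable {ι : Type} [Fintype ι] [DecidableEq ι]

/-- There are two cycles (elements of `M_B^∨`) of the object over `ℚ` with period matrix `c` whose
periods, in some `ℚ`-basis of `M_dR`, are `κ` times the values at `z` of `v 0` and `v 1`. -/
def HasCycles (c : GL ι ℂ) (v : Fin 2 → ι → ℚ⟦X⟧) (z : ℂ) : Prop :=
  ∃ (γ : Fin 2 → ι → ℚ) (R : Matrix ι ι ℚ) (κ : ℂ), R.det ≠ 0 ∧ κ ≠ 0 ∧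
    ∀ k, (fun i => (γ k i : ℂ)) ᵥ* c.1 = κ • ((fun i => pval (v k i) z) ᵥ* cx R)

/-- The object over `ℚ` with period matrix `c` has no sub-object of rank one in `Sym^d M`. (Elements
of `Sym^d M_B`, `Sym^d M_dR` are polynomials on the dual spaces, written as row vectors.) -/
def NoLine (c : GL ι ℂ) (d : ℕ) : Prop :=
  ∀ (I I' : MvPolynomial ι ℚ) (ρ : ℂ), I.IsHomogeneous d → I'.IsHomogeneous d →
    (∀ x : ι → ℂ, MvPolynomial.aeval x I = ρ * MvPolynomial.aeval (x ᵥ* c.1) I') → I = 0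

end Pool.Agent.Lib.MPf11a48.GF
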