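import Pool.Agent.Lib.MP_f11a48_ag.GF.One
import Pool.Agent.Lib.MP_f11a48_ag.GF.Sub
import Pool.Agent.Lib.MP_f11a48_ag.GF.Grp
import Pool.Agent.Lib.MP_f11a48_ag.K3.Bic2
import Pool.Agent.Lib.MP_f11a48_ag.K3.KRat
import Pool.Agent.Lib.MP_f11a48_ag.U.Final

/-!
# Module FIN: Part 2 of the theorem
-/

set_option autoImplicit false
set_option linter.unusedSectionVars false

namespace Pool.Agent.Lib.MPf11a48.GF.FinM

open Matrix
open Pool.Agent.Lib.MPf11a48.Tors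
open Pool.Agent.Lib.MPf11a48.CM hiding OmegaM
open Pool.Agent.Lib.MPf11a48.GL2
open Pool.Agent.Lib.MPf11a48.K3 (cx)
open Pool.Agent.Lib.MPf11a48.U (HD EndAlg)

variable {ι : Type} [Fintype ι] [DecidableEq ι]

/-- the rational elements of the Lie algebra -/
noncomputable def kk (T : Set (GL ι ℂ)) : Submodule ℚ (Matrix ι ι ℚ) where
  carrier := {Z | cx Z ∈ lie T}
  add_mem' := by
    intro X Y hX hY
    change cx (X + Y) ∈ lie T
    rw [K3.KRatM.cx_add]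
    exact (lie T).add_mem hX hY
  zero_mem' := by
    change cx (0 : Matrix ι ι ℚ) ∈ lie T
    rw [K3.KRatM.cx_zero]
    exact (lie T).zero_mem
  smul_mem' := by
    intro a X hX
    change cx (a • X) ∈ lie T
    rw [K3.KRatM.cx_smul]
    exact (lie T).smul_mem _ hX

theorem cx_inj {A B : Matrix ι ι ℚ} (h : cx A = cx B) : A = B := by
  refine Matrix.ext fun i j => ?_
  have := congrFun (congrFun h i) j
  change ((A i j : ℚ) : ℂ) = ((B i j : ℚ) : ℂ) at this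
  exact_mod_cast this

/-- a rational infinitesimal similitude has a rational multiplier -/
theorem rat_mult [Nonempty ι] {ψ : Matrix ι ι ℚ} (hψ : ψ.det ≠ 0) {Z : Matrix ι ι ℚ} {m : ℂ}
    (h : (cx Z)ᵀ * cx ψ + cx ψ * cx Z = m • cx ψ) : ∃ m' : ℚ, Zᵀ * ψ + ψ * Z = m' • ψ := by
  obtain ⟨k, l, hkl⟩ : ∃ k l, ψ k l ≠ 0 := by
    by_contra hcon
    push Not at hcon
    apply hψ
    have : ψ = 0 := Matrix.ext fun i j => hcon i j
    rw [this, det_zero]
  have h1 : cx (Zᵀ * ψ + ψ * Z) = m • cx ψ := by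
    rw [K3.KRatM.cx_add, K3.KRatM.cx_mul, K3.KRatM.cx_mul]
    exact h
  have h2 : ((((Zᵀ * ψ + ψ * Z) k l : ℚ)) : ℂ) = m * ((ψ k l : ℚ) : ℂ) :=
    congrFun (congrFun h1 k) l
  have hkl' : ((ψ k l : ℚ) : ℂ) ≠ 0 := by exact_mod_cast hkl
  have hm : m = (((Zᵀ * ψ + ψ * Z) k l / ψ k l : ℚ) : ℂ) := by
    rw [Rat.cast_div, h2, mul_div_cancel_right₀ _ hkl']
  refine ⟨(Zᵀ * ψ + ψ * Z) k l / ψ k l, cx_inj ?_⟩
  rw [h1, K3.KRatM.cx_smul, ← hm]

/-- a subspace stable under the Lie algebra is trivial, if all endomorphisms are scalars -/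
theorem irr_lie [Nonempty ι] (c : GL ι ℂ) (J : Matrix ι ι ℝ) (ψ : Matrix ι ι ℚ) (hHD : HD c J ψ)
    (hend : ∀ B ∈ EndAlg c.1, ∃ s : ℚ, B = s • 1) (T : Set (GL ι ℂ)) (hT : IsTorsor ⊥ T)
    (hc : c ∈ T) (hcl : ClosedOver ⊥ (grp T))
    (hsim : ∀ X ∈ lie T, ∃ m : ℂ, Xᵀ * cx ψ + cx ψ * X = m • cx ψ)
    (W : Submodule ℂ (ι → ℂ)) (hW : ∀ X ∈ lie T, ∀ v ∈ W, X *ᵥ v ∈ W) : W = ⊥ ∨ W = ⊤ := by
  have hG := SubM.geo hT
  have hfull : ∀ x : Matrix ι ι ℚ, x ∈ Algebra.adjoin ℚ (kk T : Set (Matrix ι ι ℚ)) := by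
    intro x
    refine K3.specBic2 c J ψ hHD (kk T) ?_ ?_ x ?_
    · intro Z hZ
      obtain ⟨m, hm⟩ := hsim (cx Z) hZ
      exact rat_mult hHD.det hm
    · intro δ
      have h1 := hG.deriv_mem hc δ
      obtain ⟨m, β, l, h2⟩ := K3.KRatM.eq_sum (c.1.map δ * c⁻¹.1)
      rw [h2]
      refine Submodule.sum_mem _ fun i _ => Submodule.smul_mem _ _ (Submodule.subset_span ?_)
      refine ⟨K3.KRatM.ap (l i) (c.1.map δ * c⁻¹.1), ?_, rfl⟩
      exact K3.specLRat ι T (SubM.torQ hT) hcl _ h1 (l i)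
    · intro B hB
      obtain ⟨s, rfl⟩ := hend B hB
      rw [Matrix.mul_smul, Matrix.smul_mul, Matrix.mul_one, Matrix.one_mul]
  have hall : ∀ x : Matrix ι ι ℚ, ∀ v ∈ W, cx x *ᵥ v ∈ W := by
    intro x
    refine Algebra.adjoin_induction (p := fun x _ => ∀ v ∈ W, cx x *ᵥ v ∈ W) ?_ ?_ ?_ ?_ (hfull x)
    · intro Z hZ v hv
      exact hW _ hZ v hv
    · intro r v hv
      have : cx (algebraMap ℚ (Matrix ι ι ℚ) r) = ((r : ℚ) : ℂ) • (1 : Matrix ι ι ℂ) := by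
        rw [Algebra.algebraMap_eq_smul_one, K3.KRatM.cx_smul]
        congr 1
        refine Matrix.ext fun i j => ?_
        change (((1 : Matrix ι ι ℚ) i j : ℚ) : ℂ) = (1 : Matrix ι ι ℂ) i j
        rw [Matrix.one_apply, Matrix.one_apply]
        split_ifs <;> simp
      rw [this, Matrix.smul_mulVec, Matrix.one_mulVec]
      exact W.smul_mem _ hv
    · intro a b _ _ ha hb v hv
      rw [K3.KRatM.cx_add, Matrix.add_mulVec]
      exact W.add_mem (ha v hv) (hb v hv)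
    · intro a b _ _ ha hb v hv
      rw [K3.KRatM.cx_mul, ← Matrix.mulVec_mulVec]
      exact ha _ (hb v hv)
  by_cases hW0 : W = ⊥
  · exact Or.inl hW0
  right
  obtain ⟨w, hw, hw0⟩ := W.ne_bot_iff.1 hW0
  obtain ⟨i, hi⟩ := Function.ne_iff.1 hw0
  have hi' : w i ≠ 0 := hi
  have hsingle : ∀ j, (Pi.single j 1 : ι → ℂ) ∈ W := by
    intro j
    have h1 := hall (Matrix.single j i 1) w hw
    have h2 : cx (Matrix.single j i (1 : ℚ)) *ᵥ w = w i • (Pi.single j 1 : ι → ℂ) := by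
      have h3 : cx (Matrix.single j i (1 : ℚ)) = Matrix.single j i (1 : ℂ) := by
        refine Matrix.ext fun a b => ?_
        change ((Matrix.single j i (1 : ℚ) a b : ℚ) : ℂ) = _
        rw [Matrix.single_apply, Matrix.single_apply]
        split_ifs <;> simp
      rw [h3]
      funext a
      simp only [Matrix.mulVec, dotProduct, Matrix.single_apply, Pi.smul_apply, Pi.single_apply,
        smul_eq_mul, ite_mul, one_mul, zero_mul, mul_ite, mul_one, mul_zero]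
      by_cases ha : j = a
      · subst ha
        simp
      · have ha' : ¬ a = j := fun h => ha h.symm
        simp [ha, ha']
    rw [h2] at h1
    have h4 := W.smul_mem (w i)⁻¹ h1
    rwa [smul_smul, inv_mul_cancel₀ hi', one_smul] at h4
  rw [eq_top_iff]
  intro v _
  have : v = ∑ j, v j • (Pi.single j 1 : ι → ℂ) := by
    funext a
    simp [Finset.sum_apply, Pi.single_apply]
  rw [this]
  exact W.sum_mem fun j _ => W.smul_mem _ (hsingle j)

end Pool.Agent.Lib.MPf11a48.GF.FinM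

namespace Pool.Agent.Lib.MPf11a48.GF

open Polynomial Matrix
open scoped PowerSeries
open Pool.Agent.Lib.MPf11a48.Tors
open Pool.Agent.Lib.MPf11a48.CM hiding OmegaM
open Pool.Agent.Lib.MPf11a48.GL2 (lie glmul glinv glinv')
open Pool.Agent.Lib.MPf11a48.GL2T
open Pool.Agent.Lib.MPf11a48.K3 (cx)
open Pool.Agent.Lib.MPf11a48.U (HD EndAlg AbData Ix)

/-- the torsor `T` contains all similitudes -/
theorem main_sim (hNdg : SpecNdg) (hLQ : SpecLQ) (hQJ : SpecQJ) (hTrv : SpecTrv)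
    (ι : Type) [Fintype ι] [DecidableEq ι] [Nonempty ι] (V : Fin 2 → ι → ℂ)
    (hV : ∀ J : Fin 2 → MvPolynomial ι ℚ, (∀ k, (J k).IsHomogeneous 4) →
        ∑ k, MvPolynomial.aeval (V k) (J k) = 0 → ∀ k, J k = 0)
    (c : GL ι ℂ) (J : Matrix ι ι ℝ) (ψ ψdR : Matrix ι ι ℚ) (hHD : HD c J ψ)
    (hleg : c.1ᵀ * cx ψ * c.1 = (2 * Real.pi * Complex.I) • cx ψdR)
    (hend : ∀ B ∈ EndAlg c.1, ∃ s : ℚ, B = s • 1)
    (γ : Fin 2 → ι → ℚ) (R : Matrix ι ι ℚ) (κ : ℂ) (hR : R.det ≠ 0) (hκ : κ ≠ 0)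
    (hγ : ∀ k, (fun i => (γ k i : ℂ)) ᵥ* c.1 = κ • (V k ᵥ* cx R))
    (T : Set (GL ι ℂ)) (hT : IsTorsor ⊥ T) (hc : c ∈ T) (hcl : ClosedOver ⊥ (grp T))
    (hTs : ∀ f ∈ T, ∃ z : ℂ, f.1ᵀ * cx ψ * f.1 = z • (c.1ᵀ * cx ψ * c.1))
    (f : GL ι ℂ) (z : ℂˣ) (hf : f.1ᵀ * cx ψ * f.1 = (z : ℂ) • (c.1ᵀ * cx ψ * c.1)) : f ∈ T := by
  have hG := SubM.geo hT
  have h2pi : (2 * Real.pi * Complex.I : ℂ) ≠ 0 := Complex.two_pi_I_ne_zero
  obtain ⟨h, hh, hbr, hrat, had, hsim⟩ := specSub ι T c ψ hT hc hcl hHD.skew hHD.det hTs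
  have hψd : (cx ψ).det ≠ 0 := by
    rw [cx_det]
    exact_mod_cast hHD.det
  have hmem : ∀ X ∈ lie T, ∃ Y ∈ h, ∃ m : ℂ, X = Y + m • (1 : Matrix ι ι ℂ) := by
    intro X hX
    obtain ⟨m, hm⟩ := hsim X hX
    refine ⟨X - (m / 2) • 1, ?_, m / 2, by rw [sub_add_cancel]⟩
    have : X - (m / 2) • (1 : Matrix ι ι ℂ) ∈ (h : Set (Matrix ι ι ℂ)) := by
      rw [hh]
      refine ⟨?_, m / 2, by rw [sub_add_cancel]; exact hX⟩
      rw [Matrix.transpose_sub, Matrix.transpose_smul, Matrix.transpose_one, Matrix.sub_mul,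
        Matrix.mul_sub, Matrix.smul_mul, Matrix.mul_smul, Matrix.one_mul, Matrix.mul_one]
      have : Xᵀ * cx ψ - (m / 2) • cx ψ + (cx ψ * X - (m / 2) • cx ψ) =
          (Xᵀ * cx ψ + cx ψ * X) - ((m / 2) • cx ψ + (m / 2) • cx ψ) := by abel
      rw [this, hm, ← add_smul, add_halves, sub_self]
    exact this
  have hS : SpIrr (cx ψ) h := by
    refine ⟨cx_skew hHD.skew, hψd, hbr, ?_, ?_⟩
    · intro X hX
      have : X ∈ (h : Set (Matrix ι ι ℂ)) := hX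
      rw [hh] at this
      exact this.1
    · intro W hW
      refine FinM.irr_lie c J ψ hHD hend T hT hc hcl hsim W ?_
      intro X hX v hv
      obtain ⟨Y, hY, m, rfl⟩ := hmem X hX
      rw [Matrix.add_mulVec, Matrix.smul_mulVec, Matrix.one_mulVec]
      exact W.add_mem (hW Y hY v hv) (W.smul_mem _ hv)
  have hX : ∃ X ∈ lie T, ∃ m : ℂ, m ≠ 0 ∧ Xᵀ * cx ψ + cx ψ * X = m • cx ψ := by
    obtain ⟨δ, hδ⟩ := GL2.exists_derivation U.SimM.two_pi_I_notMem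
    obtain ⟨ψdR', hψ', hleg'⟩ := hHD.leg
    refine ⟨c.1.map δ * c⁻¹.1, hG.deriv_mem hc δ, _, div_ne_zero hδ h2pi,
      U.SimM.log_deriv c ψ ψdR' hψ' hleg' δ⟩
  by_cases hq : ∀ v : ι → ℂ, ∀ X ∈ h, (∀ Y ∈ h, (X * Y).trace = v ⬝ᵥ ((cx ψ * Y) *ᵥ v)) →
      v ⬝ᵥ ((cx ψ * X) *ᵥ v) = 0
  · have hall := hLQ ι (cx ψ) h hS hq
    refine specGrp hTrv ι T c ψ hT hc hHD.skew hHD.det ?_ hX f z hf
    intro Y hY
    have : Y ∈ (h : Set (Matrix ι ι ℂ)) := hall Y hY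
    rwa [hh] at this
  · exfalso
    push Not at hq
    obtain ⟨v, X, hXh, hXv, hne⟩ := hq
    obtain ⟨Q, JJ, hQ, hJ, hQv, hQJ'⟩ := hQJ ι T c ψdR ψ h hT hc hleg hrat had
      (hNdg ι (cx ψ) h hS)
    have hdRd : (cx ψdR).det ≠ 0 := by
      intro h0
      have h1 : (c.1ᵀ * cx ψ * c.1).det = 0 := by
        rw [hleg, det_smul, h0, mul_zero]
      rw [det_mul, det_mul, det_transpose] at h1
      have hcd : c.1.det ≠ 0 := by
        intro h0
        have h3 := congrArg Matrix.det (glinv c)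
        rw [det_mul, h0, zero_mul, det_one] at h3
        exact zero_ne_one h3
      exact mul_ne_zero (mul_ne_zero hcd hψd) hcd h1
    have hdRq : ψdR.det ≠ 0 := by
      intro h0
      apply hdRd
      rw [cx_det, h0, Rat.cast_zero]
    -- the vectors on the Betti side
    let vB : Fin 2 → ι → ℚ := fun k => ψ⁻¹ *ᵥ γ k
    have hvB : ∀ k, (fun i => ((vB k i : ℚ) : ℂ)) = (cx ψ)⁻¹ *ᵥ (fun i => (γ k i : ℂ)) := by
      intro k
      have e1 : cx ψ *ᵥ (fun i => ((vB k i : ℚ) : ℂ)) = (fun i => (γ k i : ℂ)) := by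
        have e2 : ψ *ᵥ vB k = γ k := by
          change ψ *ᵥ (ψ⁻¹ *ᵥ γ k) = γ k
          rw [Matrix.mulVec_mulVec, Matrix.mul_nonsing_inv _ (isUnit_iff_ne_zero.2 hHD.det),
            Matrix.one_mulVec]
        funext i
        have e3 := congrFun e2 i
        simp only [Matrix.mulVec, dotProduct] at e3
        change ∑ j, ((ψ i j : ℚ) : ℂ) * ((vB k j : ℚ) : ℂ) = ((γ k i : ℚ) : ℂ)
        rw [← e3]
        push_cast
        rfl
      rw [← e1, Matrix.mulVec_mulVec, Matrix.nonsing_inv_mul _ (isUnit_iff_ne_zero.2 hψd),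
        Matrix.one_mulVec]
    -- the vectors on the de Rham side
    set M : Matrix ι ι ℚ := R * (ψdR⁻¹)ᵀ with hM
    have hMd : M.det ≠ 0 := by
      rw [hM, det_mul, det_transpose, Matrix.det_nonsing_inv, Ring.inverse_eq_inv']
      exact mul_ne_zero hR (inv_ne_zero hdRq)
    have hinv : cx (ψdR⁻¹) = (cx ψdR)⁻¹ := by
      symm
      apply Matrix.inv_eq_left_inv
      rw [← K3.KRatM.cx_mul, Matrix.nonsing_inv_mul _ (isUnit_iff_ne_zero.2 hdRq)]
      refine Matrix.ext fun i j => ?_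
      change (((1 : Matrix ι ι ℚ) i j : ℚ) : ℂ) = (1 : Matrix ι ι ℂ) i j
      rw [Matrix.one_apply, Matrix.one_apply]
      split_ifs <;> simp
    have hw : ∀ k, (fun i => ((vB k i : ℚ) : ℂ)) =
        c.1 *ᵥ (((2 * Real.pi * Complex.I : ℂ)⁻¹ * κ) • (V k ᵥ* cx M)) := by
      intro k
      have e1 : V k ᵥ* cx M = (cx ψdR)⁻¹ *ᵥ (V k ᵥ* cx R) := by
        have e2 : cx M = cx R * ((cx ψdR)⁻¹)ᵀ := by
          rw [hM, K3.KRatM.cx_mul, ← hinv]
          rfl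
        rw [e2, ← Matrix.vecMul_vecMul, Matrix.vecMul_transpose]
      have e3 : κ • (V k ᵥ* cx R) = c.1ᵀ *ᵥ (fun i => (γ k i : ℂ)) := by
        rw [← hγ k, Matrix.mulVec_transpose]
      have e4 : c.1 * (cx ψdR)⁻¹ * c.1ᵀ = (2 * Real.pi * Complex.I : ℂ) • (cx ψ)⁻¹ := by
        have e5 : cx ψ = (2 * Real.pi * Complex.I : ℂ) • (c⁻¹.1ᵀ * cx ψdR * c⁻¹.1) := by
          have h5 : c⁻¹.1ᵀ * c.1ᵀ = 1 := by
            rw [← Matrix.transpose_mul, glinv, Matrix.transpose_one]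
          calc cx ψ = (c⁻¹.1ᵀ * c.1ᵀ) * cx ψ * (c.1 * c⁻¹.1) := by
                rw [h5, glinv, Matrix.one_mul, Matrix.mul_one]
            _ = c⁻¹.1ᵀ * (c.1ᵀ * cx ψ * c.1) * c⁻¹.1 := by simp only [Matrix.mul_assoc]
            _ = _ := by rw [hleg, Matrix.mul_smul, Matrix.smul_mul]
        have e6 : (cx ψ)⁻¹ = (2 * Real.pi * Complex.I : ℂ)⁻¹ • (c.1 * (cx ψdR)⁻¹ * c.1ᵀ) := by
          apply Matrix.inv_eq_left_inv
          have h6 : c.1ᵀ * c⁻¹.1ᵀ = 1 := by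
            rw [← Matrix.transpose_mul, glinv', Matrix.transpose_one]
          conv_lhs => rw [e5]
          rw [Matrix.smul_mul, Matrix.mul_smul, smul_smul, inv_mul_cancel₀ h2pi, one_smul]
          calc c.1 * (cx ψdR)⁻¹ * c.1ᵀ * (c⁻¹.1ᵀ * cx ψdR * c⁻¹.1)
              = c.1 * ((cx ψdR)⁻¹ * ((c.1ᵀ * c⁻¹.1ᵀ) * cx ψdR)) * c⁻¹.1 := by
                simp only [Matrix.mul_assoc]
            _ = 1 := by
                rw [h6, Matrix.one_mul, Matrix.nonsing_inv_mul _ (isUnit_iff_ne_zero.2 hdRd),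
                  Matrix.mul_one, glinv]
        rw [e6, smul_smul, mul_inv_cancel₀ h2pi, one_smul]
      rw [hvB k, e1, mul_smul, ← Matrix.mulVec_smul, ← Matrix.mulVec_smul, e3,
        Matrix.mulVec_smul, Matrix.mulVec_smul, Matrix.mulVec_mulVec, Matrix.mulVec_mulVec,
        e4, Matrix.smul_mulVec, smul_smul, inv_mul_cancel₀ h2pi, one_smul]
    have hr : ∀ k, ((MvPolynomial.eval (vB k) Q : ℚ) : ℂ) =
        ((2 * Real.pi * Complex.I) ^ 2 * ((2 * Real.pi * Complex.I : ℂ)⁻¹ * κ) ^ 4) *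
          MvPolynomial.aeval (V k) (OneM.subst M JJ) := by
      intro k
      rw [← OneM.aeval_rat, hw k, hQJ', OneM.aeval_smul JJ 4 hJ, OneM.aeval_subst]
      ring
    have h0 := OneM.elim 4 V hV (OneM.subst M JJ) (OneM.subst_hom M JJ 4 hJ)
      (fun k => MvPolynomial.eval (vB k) Q) _
      (mul_ne_zero (pow_ne_zero _ h2pi) (pow_ne_zero _ (mul_ne_zero (inv_ne_zero h2pi) hκ))) hr
    have hJ0 := OneM.subst_eq_zero M hMd JJ h0
    apply hne
    rw [← hQv v X hXh hXv]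
    have e : v = c.1 *ᵥ (c⁻¹.1 *ᵥ v) := by
      rw [Matrix.mulVec_mulVec, glinv, Matrix.one_mulVec]
    rw [e, hQJ', hJ0, map_zero, mul_zero]

theorem stmt2 (hQ : SpecQua) (hNdg : SpecNdg) (hLQ : SpecLQ) (hQJ : SpecQJ) (hTrv : SpecTrv) :
    Statement2 := by
  intro g T B v hGS
  obtain ⟨C, hC⟩ := hQ (Ix g) T B v 4 hGS
  refine ⟨C, fun a b ha hab N A hA hE c hc hcyc => ?_⟩
  have hbot : (⊥ : IntermediateField ℚ ℂ) ≤ Qbar := bot_le
  obtain ⟨⟨J, hHD⟩, hendo⟩ := U.hda' U.specTL' ⊥ g N A c hbot hA hc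
  obtain ⟨ψdR, hpol⟩ := U.specLEG ⊥ g N A c hbot hA hc
  have hpol' : Polarised 1 c ψdR A.psi := hpol
  refine ⟨ψdR, hpol', ?_⟩
  -- a rational matrix
  have hrat : ∀ i j, ∃ q : ℚ, ((ψdR i j : (⊥ : IntermediateField ℚ ℂ)) : ℂ) = (q : ℂ) := by
    intro i j
    obtain ⟨q, hq⟩ := IntermediateField.mem_bot.1 (ψdR i j).2
    exact ⟨q, hq.symm⟩
  choose ψ' hψ' using hrat
  have hψ'' : ψdR.map (fun x => (x : ℂ)) = cx (Matrix.of ψ') := by
    refine Matrix.ext fun i j => ?_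
    exact hψ' i j
  have hleg : c.1ᵀ * cx A.psi * c.1 = (2 * Real.pi * Complex.I : ℂ) • cx (Matrix.of ψ') := by
    have h1 := hpol'.2
    rw [Mult, hψ'', zpow_one] at h1
    exact h1
  have h2pi : (2 * Real.pi * Complex.I : ℂ) ≠ 0 := Complex.two_pi_I_ne_zero
  have hfix : ∀ f : GL (Ix g) ℂ, (∃ z : ℂˣ, Mult f ψdR A.psi z) ↔
      Fixes f (polPair ψdR A.psi) := by
    intro f
    constructor
    · rintro ⟨z, hz⟩
      exact GL2.fixes_of_sim hpol'.1 (mult_iff.1 hz) z.ne_zero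
    · intro hf
      rcases isEmpty_or_nonempty (Ix g) with he | hne
      · exact ⟨1, Matrix.ext fun i => he.elim i⟩
      obtain ⟨μ, hμ⟩ := GL2.sim_of_fixes hpol'.1 hf
      have hμ0 : μ ≠ 0 := by
        rintro rfl
        rw [zero_smul] at hμ
        have h1 : (f.1ᵀ * A.psi.map (algebraMap ℚ ℂ) * f.1).det = 0 := by
          rw [hμ, det_zero]
        rw [det_mul, det_mul, det_transpose] at h1
        have hfd : f.1.det ≠ 0 := by
          intro h0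
          have h3 := congrArg Matrix.det (glinv f)
          rw [det_mul, h0, zero_mul, det_one] at h3
          exact zero_ne_one h3
        have hψd : (A.psi.map (algebraMap ℚ ℂ)).det ≠ 0 := by
          have : (cx A.psi).det ≠ 0 := by
            rw [cx_det]
            exact_mod_cast hpol'.1
          exact this
        exact mul_ne_zero (mul_ne_zero hfd hψd) hfd h1
      exact ⟨Units.mk0 μ hμ0, mult_iff.2 hμ⟩
  have hcfix : Fixes c (polPair ψdR A.psi) :=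
    (hfix c).1 ⟨Units.mk0 _ (zpow_ne_zero 1 h2pi), hpol'.2⟩
  have hsub : OmegaDRB ⊥ c ⊆ {f | ∃ z : ℂˣ, Mult f ψdR A.psi z} := by
    intro f hf
    refine (hfix f).2 ?_
    have h1 := drb_subset (S := {polPair ψdR A.psi}) (c := c) (by
      intro α hα
      rw [Set.mem_singleton_iff] at hα
      rw [hα]
      exact hcfix) hf
    exact h1 _ rfl
  have hsup : {f : GL (Ix g) ℂ | ∃ z : ℂˣ, Mult f ψdR A.psi z} ⊆ OmegaDRB ⊥ c := by
    rcases isEmpty_or_nonempty (Ix g) with he | hne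
    · intro f _
      have : f = c := by
        apply Units.ext
        exact Matrix.ext fun i => he.elim i
      rw [this]
      exact mem_OmegaDRB_self ⊥ c
    rintro f ⟨z, hz⟩
    obtain ⟨γ, R, κ, hR, hκ, hγ⟩ := hcyc
    have hmc : ∀ f' : GL (Ix g) ℂ, ∀ y : ℂ, Mult f' ψdR A.psi y →
        f'.1ᵀ * cx A.psi * f'.1 = (y * (2 * Real.pi * Complex.I : ℂ)⁻¹) •
          (c.1ᵀ * cx A.psi * c.1) := by
      intro f' y hy
      rw [Mult, hψ''] at hy
      have hy' : f'.1ᵀ * cx A.psi * f'.1 = y • cx (Matrix.of ψ') := hy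
      rw [hy', hleg, smul_smul, mul_assoc, inv_mul_cancel₀ h2pi, mul_one]
    refine main_sim hNdg hLQ hQJ hTrv (Ix g) (fun k i => pval (v k i) ((a : ℂ) / b))
      (hC a b ha hab) c J A.psi (Matrix.of ψ') hHD hleg ?_ γ R κ hR hκ hγ (OmegaDRB ⊥ c)
      (isTorsor_OmegaDRB ⊥ c) (mem_OmegaDRB_self ⊥ c) ?_ ?_ f
      (z * (Units.mk0 _ h2pi)⁻¹) ?_
    · intro B' hB'
      exact hE B' (hendo B' hB')
    · rw [grp_OmegaDRB]
      exact closedOver_GdRB ⊥ c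
    · intro f' hf'
      obtain ⟨y, hy⟩ := hsub hf'
      exact ⟨_, hmc f' y hy⟩
    · rw [hmc f z hz]
      rfl
  have hdrb : OmegaDRB ⊥ c = {f | ∃ z : ℂˣ, Mult f ψdR A.psi z} :=
    Set.Subset.antisymm hsub hsup
  refine ⟨?_, hdrb, ?_⟩
  · rw [Tors.OmegaM_eq_OmegaDRB c]
    exact hdrb
  · intro S hS hP
    refine Set.Subset.antisymm ?_ ?_
    · intro f hf
      exact (hfix f).2 (hf _ hP)
    · rw [← hdrb]
      exact drb_subset hS

end Pool.Agent.Lib.MPf11a48.GF
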