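import Pool.Agent.Lib.MP_f11a48_ag.GF.Defs
import Pool.Agent.Lib.MP_f11a48_ag.U.StatementL

/-!
# G-functions as periods: the theorem
-/

set_option autoImplicit false

namespace Pool.Agent.Lib.MPf11a48.GF

open Polynomial Matrix
open scoped PowerSeries
open Pool.Agent.Lib.MPf11a48.CM Pool.Agent.Lib.MPf11a48.GL2T
open Pool.Agent.Lib.MPf11a48.U (AbData Ix)

/-- Part 1: objects over `ℚ` of any rank, symmetric powers. -/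
def Statement1 : Prop :=
  ∀ (ι : Type) [Fintype ι] [DecidableEq ι] (T : ℤ[X]) (B : Matrix ι ι ℤ[X])
    (v : Fin 2 → ι → ℚ⟦X⟧) (d : ℕ), GSys T B v d →
    ∃ C : ℕ, ∀ a b : ℤ, a ≠ 0 → (C : ℤ) * |a| ^ C ≤ b →
      ∀ c : GL ι ℂ, HasCycles c v ((a : ℂ) / b) → NoLine c d

/-- Part 2: abelian varieties over `ℚ` with `End(A) = ℤ`. -/
def Statement2 : Prop :=
  ∀ (g : ℕ) (T : ℤ[X]) (B : Matrix (Ix g) (Ix g) ℤ[X]) (v : Fin 2 → Ix g → ℚ⟦X⟧), GSys T B v 4 →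
    ∃ C : ℕ, ∀ a b : ℤ, a ≠ 0 → (C : ℤ) * |a| ^ C ≤ b →
      ∀ (N : ℕ) (A : AbData g N), A.IsAbVar ⊥ → (∀ Z, A.IsEndo Z → ∃ s : ℚ, Z = s • 1) →
      ∀ c : GL (Ix g) ℂ, c.1 = A.per → HasCycles c v ((a : ℂ) / b) →
      ∃ ψdR : Matrix (Ix g) (Ix g) (⊥ : IntermediateField ℚ ℂ), Polarised 1 c ψdR A.psi ∧
        Tors.OmegaM ⊥ c = {f | ∃ z : ℂˣ, Mult f ψdR A.psi z} ∧
        OmegaDRB ⊥ c = {f | ∃ z : ℂˣ, Mult f ψdR A.psi z} ∧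
        ∀ S : Set (TPair (⊥ : IntermediateField ℚ ℂ) (Ix g)), (∀ α ∈ S, Fixes c α) →
          polPair ψdR A.psi ∈ S → OmegaS S = {f | ∃ z : ℂˣ, Mult f ψdR A.psi z}

end Pool.Agent.Lib.MPf11a48.GF
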