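import Pool.Agent.Lib.MP_f11a48_ag.GF.Spec
import Pool.Agent.Lib.MP_f11a48_ag.GF.Stmt

/-!
# Module ONE: Part 1 of the theorem
-/

set_option autoImplicit false

namespace Pool.Agent.Lib.MPf11a48.GF.OneM

open Polynomial Matrix
open scoped PowerSeries
open Pool.Agent.Lib.MPf11a48.K3 (cx)

variable {ι : Type} [Fintype ι] [DecidableEq ι]

omit [Fintype ι] [DecidableEq ι] in
theorem aeval_rat (I : MvPolynomial ι ℚ) (y : ι → ℚ) :
    MvPolynomial.aeval (fun i => (y i : ℂ)) I = ((MvPolynomial.eval y I : ℚ) : ℂ) := by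
  have h := MvPolynomial.aeval_algebraMap_apply (A := ℚ) ℂ y I
  have h' : MvPolynomial.aeval y I = MvPolynomial.eval y I := by
    rw [MvPolynomial.aeval_eq_eval]
  rw [h'] at h
  exact h

omit [Fintype ι] [DecidableEq ι] in
theorem eq_zero_of_aeval (I : MvPolynomial ι ℚ)
    (h : ∀ x : ι → ℂ, MvPolynomial.aeval x I = 0) : I = 0 := by
  apply MvPolynomial.funext
  intro y
  have := h (fun i => (y i : ℂ))
  rw [aeval_rat] at this
  rw [map_zero]
  exact_mod_cast this

omit [Fintype ι] [DecidableEq ι] in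
theorem aeval_smul (I : MvPolynomial ι ℚ) (d : ℕ) (hI : I.IsHomogeneous d) (κ : ℂ) (x : ι → ℂ) :
    MvPolynomial.aeval (κ • x) I = κ ^ d * MvPolynomial.aeval x I := by
  rw [MvPolynomial.aeval_def, MvPolynomial.aeval_def, MvPolynomial.eval₂_eq,
    MvPolynomial.eval₂_eq, Finset.mul_sum]
  refine Finset.sum_congr rfl fun m hm => ?_
  have hd : m.degree = d := by
    by_contra hne
    exact (MvPolynomial.mem_support_iff.1 hm) (hI.coeff_eq_zero hne)
  simp only [Pi.smul_apply, smul_eq_mul, mul_pow, Finset.prod_mul_distrib]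
  rw [Finset.prod_pow_eq_pow_sum]
  have : ∑ i ∈ m.support, m i = d := by rw [← hd]; rfl
  rw [this]
  ring

/-- substitution of a rational matrix: `subst R I x = I (x R)` -/
noncomputable def subst (R : Matrix ι ι ℚ) (I : MvPolynomial ι ℚ) : MvPolynomial ι ℚ :=
  MvPolynomial.aeval (fun j => ∑ i, MvPolynomial.C (R i j) * MvPolynomial.X i) I

omit [DecidableEq ι] in
theorem subst_hom (R : Matrix ι ι ℚ) (I : MvPolynomial ι ℚ) (d : ℕ) (hI : I.IsHomogeneous d) :
    (subst R I).IsHomogeneous d := by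
  have := hI.aeval (R := ℚ) (n := 1) (fun j => ∑ i, MvPolynomial.C (R i j) * MvPolynomial.X i)
    (fun j => MvPolynomial.IsHomogeneous.sum _ _ _ fun i _ =>
      MvPolynomial.isHomogeneous_C_mul_X _ _)
  rw [one_mul] at this
  exact this

omit [DecidableEq ι] in
theorem aeval_subst (R : Matrix ι ι ℚ) (I : MvPolynomial ι ℚ) (x : ι → ℂ) :
    MvPolynomial.aeval x (subst R I) = MvPolynomial.aeval (x ᵥ* cx R) I := by
  rw [subst, ← AlgHom.comp_apply, MvPolynomial.comp_aeval]
  congr 2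
  funext j
  rw [map_sum]
  simp only [map_mul, MvPolynomial.aeval_X, MvPolynomial.algHom_C, Matrix.vecMul, dotProduct]
  refine Finset.sum_congr rfl fun i _ => ?_
  rw [mul_comm]
  rfl

theorem subst_eq_zero (R : Matrix ι ι ℚ) (hR : R.det ≠ 0) (I : MvPolynomial ι ℚ)
    (h : subst R I = 0) : I = 0 := by
  apply eq_zero_of_aeval
  intro x
  have hc : (cx R).det ≠ 0 := by
    have : (cx R).det = ((R.det : ℚ) : ℂ) := by
      have := RingHom.map_det (algebraMap ℚ ℂ) R
      rw [eq_ratCast] at this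
      rw [this]
      rfl
    rw [this]
    exact_mod_cast hR
  have e : x = (x ᵥ* (cx R)⁻¹) ᵥ* cx R := by
    rw [Matrix.vecMul_vecMul, Matrix.nonsing_inv_mul _ (isUnit_iff_ne_zero.2 hc), Matrix.vecMul_one]
  rw [e, ← aeval_subst, h, map_zero]

omit [Fintype ι] [DecidableEq ι] in
/-- the elimination argument -/
theorem elim (d : ℕ) (V : Fin 2 → ι → ℂ)
    (hV : ∀ J : Fin 2 → MvPolynomial ι ℚ, (∀ k, (J k).IsHomogeneous d) →
        ∑ k, MvPolynomial.aeval (V k) (J k) = 0 → ∀ k, J k = 0)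
    (J : MvPolynomial ι ℚ) (hJ : J.IsHomogeneous d) (r : Fin 2 → ℚ) (θ : ℂ) (hθ : θ ≠ 0)
    (hr : ∀ k, ((r k : ℚ) : ℂ) = θ * MvPolynomial.aeval (V k) J) : J = 0 := by
  have h1 := hV ![MvPolynomial.C (r 1) * J, MvPolynomial.C (-r 0) * J]
    (by
      intro k
      fin_cases k
      · exact hJ.C_mul _
      · exact hJ.C_mul _)
    (by
      rw [Fin.sum_univ_two]
      simp only [Matrix.cons_val_zero, Matrix.cons_val_one, map_mul, MvPolynomial.algHom_C]
      have h0 := hr 0
      have h1 := hr 1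
      simp only [eq_ratCast, Rat.cast_neg, h0, h1]
      ring)
  have e0 := h1 0
  have e1 := h1 1
  simp only [Matrix.cons_val_zero, Matrix.cons_val_one, mul_eq_zero,
    MvPolynomial.C_eq_zero] at e0 e1
  rcases e0 with e0 | e0
  · have hz : MvPolynomial.aeval (V 1) J = 0 := by
      have := hr 1
      rw [e0, Rat.cast_zero] at this
      rcases mul_eq_zero.1 this.symm with h | h
      · exact absurd h hθ
      · exact h
    have h2 := hV ![0, J] (by
      intro k
      fin_cases k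
      · exact MvPolynomial.isHomogeneous_zero _ _ _
      · exact hJ) (by
      rw [Fin.sum_univ_two]
      simp [hz])
    exact h2 1
  · exact e0

end Pool.Agent.Lib.MPf11a48.GF.OneM

namespace Pool.Agent.Lib.MPf11a48.GF

open Polynomial Matrix
open scoped PowerSeries
open Pool.Agent.Lib.MPf11a48.K3 (cx)

theorem stmt1 (hQ : SpecQua) : Statement1 := by
  intro ι _ _ T B v d hG
  obtain ⟨C, hC⟩ := hQ ι T B v d hG
  refine ⟨C, fun a b ha hab c hcyc => ?_⟩
  obtain ⟨γ, R, κ, hR, hκ, hγ⟩ := hcyc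
  intro I I' ρ hI hI' h
  by_cases hρ : ρ = 0
  · apply OneM.eq_zero_of_aeval
    intro x
    rw [h x, hρ, zero_mul]
  have h0 : OneM.subst R I' = 0 := by
    refine OneM.elim d (fun k i => pval (v k i) ((a : ℂ) / b)) (hC a b ha hab)
      (OneM.subst R I') (OneM.subst_hom R I' d hI') (fun k => MvPolynomial.eval (γ k) I)
      (ρ * κ ^ d) (mul_ne_zero hρ (pow_ne_zero _ hκ)) ?_
    intro k
    rw [← OneM.aeval_rat, h, hγ k, OneM.aeval_smul I' d hI', OneM.aeval_subst, mul_assoc]
  have h1 := OneM.subst_eq_zero R hR I' h0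
  apply OneM.eq_zero_of_aeval
  intro x
  rw [h x, h1, map_zero, mul_zero]

end Pool.Agent.Lib.MPf11a48.GF
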